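import Pool.Agent.H951.FX.StmP

/-!
# Project FX, part 4: assembly, slopes in the cube (`S_FVP`)
-/

set_option autoImplicit false

open MeasureTheory
open scoped Classical ENNReal NNReal

namespace Pool.Agent.H640.FXR

open Pool.Agent.H951.FH Pool.Agent.H951.FX

theorem log_pw (ε x : ℝ) (k : ℕ) : Real.log (Real.exp (-ε) ^ k * ((2 : ℝ) ^ k) ^ x / 2) =
    k * (-ε) + x * (k * Real.log 2) - Real.log 2 := by
  have h2 : (0 : ℝ) < ((2 : ℝ) ^ k) ^ x := Real.rpow_pos_of_pos (by positivity) _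
  have h3 : (0 : ℝ) < Real.exp (-ε) ^ k := by positivity
  rw [Real.log_div (mul_pos h3 h2).ne' two_ne_zero, Real.log_mul h3.ne' h2.ne', Real.log_pow,
    Real.log_exp, Real.log_rpow (by positivity), Real.log_pow]

/-- the numbers -/
theorem nums {d : ℕ} {β τ s ε C0 W σ Q : ℝ} {k l : ℕ} (hC0 : 0 < C0) (hτ : 0 < τ)
    (hW : Real.exp (-ε) ^ k * ((2 : ℝ) ^ k) ^ β / 2 < W)
    (hσ : σ = Real.exp (-ε) ^ k * ((2 : ℝ) ^ k) ^ τ / 2)
    (hQ0 : 0 ≤ Q) (hQ : Q ≤ (2 : ℝ) ^ (s * (k + 1)))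
    (hl : (l : ℝ) ≤ (ε * k + Real.log 12) / (τ * Real.log 2) + 1)
    (h1 : W * σ ^ 2 ≤ C0 * ((2 : ℝ) ^ l) ^ d * Q ^ 2) :
    k * (β * Real.log 2 + 2 * τ * Real.log 2 - 2 * s * Real.log 2) -
      (3 + d / τ) * ε * k ≤ Real.log C0 + d * (Real.log 12 / τ + Real.log 2) +
        (2 * s + 3) * Real.log 2 := by
  have hlog2 : 0 < Real.log 2 := Real.log_pos one_lt_two
  have hW0 : 0 < W := by
    refine lt_trans ?_ hW
    have h2 : (0 : ℝ) < ((2 : ℝ) ^ k) ^ β := Real.rpow_pos_of_pos (by positivity) _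
    positivity
  have hσ0 : 0 < σ := by
    rw [hσ]
    have h2 : (0 : ℝ) < ((2 : ℝ) ^ k) ^ τ := Real.rpow_pos_of_pos (by positivity) _
    positivity
  have hQ1 : 0 < Q := by
    rcases hQ0.eq_or_lt with h | h
    · rw [← h] at h1
      have h2 : 0 < W * σ ^ 2 := by positivity
      rw [zero_pow two_ne_zero, mul_zero] at h1
      linarith
    · exact h
  have hWl : k * (-ε) + β * (k * Real.log 2) - Real.log 2 ≤ Real.log W := by
    rw [← log_pw ε β k]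
    refine Real.log_le_log ?_ hW.le
    have h2 : (0 : ℝ) < ((2 : ℝ) ^ k) ^ β := Real.rpow_pos_of_pos (by positivity) _
    positivity
  have hσl : Real.log σ = k * (-ε) + τ * (k * Real.log 2) - Real.log 2 := by
    rw [hσ, log_pw ε τ k]
  have hQl : Real.log Q ≤ s * (k + 1) * Real.log 2 := by
    refine (Real.log_le_log hQ1 hQ).trans (le_of_eq ?_)
    rw [Real.log_rpow two_pos]
  have h2 := Real.log_le_log (by positivity) h1
  have h3 : (0 : ℝ) < ((2 : ℝ) ^ l) ^ d := by positivity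
  rw [Real.log_mul hW0.ne' (pow_pos hσ0 2).ne', Real.log_pow,
    Real.log_mul (mul_pos hC0 h3).ne' (pow_pos hQ1 2).ne', Real.log_mul hC0.ne' h3.ne',
    Real.log_pow, Real.log_pow, Real.log_pow, hσl] at h2
  have h4 : (l : ℝ) * Real.log 2 ≤ (ε * k + Real.log 12) / τ + Real.log 2 := by
    have h5 := mul_le_mul_of_nonneg_right hl hlog2.le
    have h6 : ((ε * k + Real.log 12) / (τ * Real.log 2) + 1) * Real.log 2 =
        (ε * k + Real.log 12) / τ + Real.log 2 := by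
      field_simp
    rw [h6] at h5
    exact h5
  have h7 : (d : ℝ) * (l * Real.log 2) ≤ d * ((ε * k + Real.log 12) / τ + Real.log 2) :=
    mul_le_mul_of_nonneg_left h4 (Nat.cast_nonneg d)
  have h8 : (d : ℝ) * ((ε * k + Real.log 12) / τ + Real.log 2) =
      d / τ * ε * k + d * (Real.log 12 / τ + Real.log 2) := by
    field_simp
    ring
  rw [h8] at h7
  push_cast at h2
  nlinarith [h2, h7, hWl, hQl]

/-- the choice of the level `l` -/
theorem level {τ ε : ℝ} {k : ℕ} (hτ : 0 < τ) (hε : 0 < ε) (hε4 : ε ≤ τ * Real.log 2 / 4)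
    (hk : Real.log 12 * (1 + 1 / τ) + Real.log 2 ≤ k * (3 / 4 * Real.log 2)) :
    ∃ l : ℕ, l ≤ k ∧ 12 * (2 : ℝ) ^ l ≤ 2 ^ k ∧
      6 * ((2 : ℝ) ^ (k - l)) ^ τ ≤ Real.exp (-ε) ^ k * ((2 : ℝ) ^ k) ^ τ / 2 ∧
      (l : ℝ) ≤ (ε * k + Real.log 12) / (τ * Real.log 2) + 1 := by
  have hlog2 : 0 < Real.log 2 := Real.log_pos one_lt_two
  have hlog12 : 0 < Real.log 12 := Real.log_pos (by norm_num)
  have hk0 : (0 : ℝ) ≤ k := Nat.cast_nonneg k
  obtain ⟨l, hl⟩ : ∃ l : ℕ, l = ⌈(ε * k + Real.log 12) / (τ * Real.log 2)⌉₊ := ⟨_, rfl⟩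
  have hl1 : (ε * k + Real.log 12) / (τ * Real.log 2) ≤ l := by
    rw [hl]
    exact Nat.le_ceil _
  have hl2 : (l : ℝ) ≤ (ε * k + Real.log 12) / (τ * Real.log 2) + 1 := by
    rw [hl]
    exact (Nat.ceil_lt_add_one (by positivity)).le
  have h4 : (l : ℝ) * Real.log 2 ≤ (ε * k + Real.log 12) / τ + Real.log 2 := by
    have h5 := mul_le_mul_of_nonneg_right hl2 hlog2.le
    have h6 : ((ε * k + Real.log 12) / (τ * Real.log 2) + 1) * Real.log 2 =
        (ε * k + Real.log 12) / τ + Real.log 2 := by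
      field_simp
    rw [h6] at h5
    exact h5
  have h7 : ε * k / τ ≤ k * Real.log 2 / 4 := by
    rw [div_le_iff₀ hτ]
    have := mul_le_mul_of_nonneg_right hε4 hk0
    nlinarith
  have h8 : (ε * k + Real.log 12) / τ = ε * k / τ + Real.log 12 * (1 / τ) := by ring
  rw [h8] at h4
  have h9 : Real.log 12 + l * Real.log 2 ≤ k * Real.log 2 := by nlinarith
  have h12 : 12 * (2 : ℝ) ^ l ≤ 2 ^ k := by
    have h10 : Real.log (12 * (2 : ℝ) ^ l) ≤ Real.log ((2 : ℝ) ^ k) := by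
      rw [Real.log_mul (by norm_num) (by positivity), Real.log_pow, Real.log_pow]
      exact h9
    exact (Real.log_le_log_iff (by positivity) (by positivity)).1 h10
  have hlk : l ≤ k := by
    have h10 : (l : ℝ) * Real.log 2 ≤ k * Real.log 2 := by linarith
    exact_mod_cast le_of_mul_le_mul_right h10 hlog2
  refine ⟨l, hlk, h12, ?_, hl2⟩
  have h13 : (0 : ℝ) < ((2 : ℝ) ^ (k - l)) ^ τ := Real.rpow_pos_of_pos (by positivity) _
  have h14 : (0 : ℝ) < ((2 : ℝ) ^ k) ^ τ := Real.rpow_pos_of_pos (by positivity) _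
  refine (Real.log_le_log_iff (by positivity) (by positivity)).1 ?_
  rw [log_pw, Real.log_mul (by norm_num) h13.ne', Real.log_rpow (by positivity), Real.log_pow,
    Nat.cast_sub hlk]
  have h15 : Real.log 12 = Real.log 6 + Real.log 2 := by
    rw [← Real.log_mul (by norm_num) (by norm_num)]
    norm_num
  rw [div_le_iff₀ (by positivity)] at hl1
  nlinarith

theorem t_FVP : S_COV → S_SELD → S_FRO → S_FROD → S_ONEP → S_FVP := by
  intro hCOV hSEL hFRO hFROD hONEP d hd K V B β τ hβ hτ hτ1 hV hV0 hT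
  obtain ⟨C0, hC0, hONE⟩ := hONEP d hd
  by_contra hcon
  rw [not_le] at hcon
  -- the exponent `s`
  obtain ⟨y, hy1, hy2⟩ := exists_between hcon
  have hyt : y ≠ ⊤ := (hy2.trans ENNReal.ofReal_lt_top).ne
  set s : ℝ := y.toReal with hs
  have hys : ENNReal.ofReal s = y := ENNReal.ofReal_toReal hyt
  have hs0 : 0 ≤ s := ENNReal.toReal_nonneg
  have hs1 : dimH K < ENNReal.ofReal s := by rw [hys]; exact hy1
  have hs2 : s < τ + β / 2 := by
    rw [← hys] at hy2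
    exact (ENNReal.ofReal_lt_ofReal_iff_of_nonneg hs0).1 hy2
  have hlog2 : 0 < Real.log 2 := Real.log_pos one_lt_two
  set g : ℝ := β * Real.log 2 + 2 * τ * Real.log 2 - 2 * s * Real.log 2 with hg
  have hg0 : 0 < g := by
    have h3 : g = Real.log 2 * (2 * ((τ + β / 2) - s)) := by rw [hg]; ring
    rw [h3]
    exact mul_pos hlog2 (mul_pos two_pos (sub_pos.2 hs2))
  have hd0 : (0 : ℝ) ≤ d := Nat.cast_nonneg _
  have hdc : (0 : ℝ) < 3 + d / τ := by positivity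
  set ε : ℝ := min (g / (2 * (3 + d / τ))) (τ * Real.log 2 / 4) with hε
  have hε0 : 0 < ε := lt_min (by positivity) (by positivity)
  have hε4 : ε ≤ τ * Real.log 2 / 4 := min_le_right _ _
  have hεg : (3 + d / τ) * ε ≤ g / 2 := by
    have h1 : (3 + d / τ) * ε ≤ (3 + d / τ) * (g / (2 * (3 + d / τ))) :=
      mul_le_mul_of_nonneg_left (min_le_left _ _) hdc.le
    have h2 : (3 + d / τ) * (g / (2 * (3 + d / τ))) = g / 2 := by
      field_simp
    rw [h2] at h1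
    exact h1
  set ρ : ℝ := Real.exp (-ε) with hρ
  have hρ0 : 0 < ρ := Real.exp_pos _
  have hρ1 : ρ < 1 := by
    rw [hρ, Real.exp_lt_one_iff]
    linarith
  set T : (Fin d → ℝ) → Set ℝ := fun v => {t : ℝ | t ∈ Set.Ico (0 : ℝ) 1 ∧
    (Fin.cons t (fun i => B v i + t * v i) : Fin (d + 1) → ℝ) ∈ K} with hTdef
  have hTsub : ∀ v, T v ⊆ Set.Ico 0 1 := fun v t ht => ht.1
  obtain ⟨k1, hsel⟩ := hSEL d V T β τ ρ ρ hβ hτ hρ0 hρ1 hρ0 hρ1 hV hV0
    (fun v hv => ⟨hTsub v, hT v hv⟩)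
  set CC : ℝ := Real.log C0 + d * (Real.log 12 / τ + Real.log 2) +
        (2 * s + 3) * Real.log 2 with hCC
  obtain ⟨k1', hk1'⟩ := exists_nat_gt (max (CC / (g / 2))
    ((Real.log 12 * (1 + 1 / τ) + Real.log 2) / (3 / 4 * Real.log 2)))
  obtain ⟨Q, hQ1, hQ2⟩ := hCOV (d + 1) K s (max k1 k1') hs0 hs1
  set U : (Fin d → ℝ) → ℕ → Set ℝ := fun v k => {t : ℝ | ∃ q ∈ Q k, ∀ i : Fin (d + 1),
    |(2 : ℝ) ^ k * (Fin.cons t (fun i => B v i + t * v i) : Fin (d + 1) → ℝ) i - q i| < 3} with hU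
  obtain ⟨k, hk, hvol⟩ := hsel (max k1 k1') (le_max_left _ _) U (by
    intro v hv t ht
    obtain ⟨k, hk, q, hq, h3⟩ := hQ2 _ ht.2
    exact ⟨k, hk, q, hq, h3⟩)
  have hkk' : max (CC / (g / 2))
    ((Real.log 12 * (1 + 1 / τ) + Real.log 2) / (3 / 4 * Real.log 2)) < k := by
    refine hk1'.trans_le ?_
    exact_mod_cast (le_max_right k1 k1').trans hk
  have hkk : CC / (g / 2) < k := lt_of_le_of_lt (le_max_left _ _) hkk'
  have hkl : Real.log 12 * (1 + 1 / τ) + Real.log 2 ≤ k * (3 / 4 * Real.log 2) := by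
    have h1 := lt_of_le_of_lt (le_max_right (CC / (g / 2)) _) hkk'
    rw [div_lt_iff₀ (by positivity)] at h1
    exact h1.le
  obtain ⟨l, hlk, hl12, hl6, hlle⟩ := level hτ hε0 hε4 hkl
  set W₀ : Set (Fin d → ℝ) := {v | v ∈ V ∧ ∀ C : Finset (ℕ × ℕ), Cv C (T v ∩ U v k) →
    ρ ^ k < Sm τ C} with hW₀
  obtain ⟨W, C', hWsub, hWcnt, hWcov, hWsum⟩ := hFROD d β k W₀ hβ (fun v hv => hV v hv.1)
  set σ : ℝ := ρ ^ k * ((2 : ℝ) ^ k) ^ τ / 2 with hσ
  have h2k : (0 : ℝ) < ((2 : ℝ) ^ k) ^ τ := Real.rpow_pos_of_pos (by positivity) _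
  have h2kβ : (0 : ℝ) < ((2 : ℝ) ^ k) ^ β := Real.rpow_pos_of_pos (by positivity) _
  have hσ0 : 0 < σ := by rw [hσ]; positivity
  have hWcard : ρ ^ k * ((2 : ℝ) ^ k) ^ β / 2 < W.card := by
    have h1 : ρ ^ k < 2 * (W.card : ℝ) / ((2 : ℝ) ^ k) ^ β := (hvol C' hWcov).trans_le hWsum
    rw [lt_div_iff₀ h2kβ] at h1
    linarith
  have hWpos : 0 < ρ ^ k * ((2 : ℝ) ^ k) ^ β / 2 := by positivity
  have hWne : W.Nonempty := by
    rw [← Finset.card_pos]
    have h1 : (0 : ℝ) < W.card := hWpos.trans hWcard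
    exact_mod_cast h1
  -- the finite sets
  have hP : ∀ v, ∃ P : Finset ℝ, v ∈ W₀ → (P : Set ℝ) ⊆ T v ∩ U v k ∧ σ ≤ P.card ∧
      ∀ l ≤ k, ∀ p : ℕ, ((P.filter fun t => (p : ℝ) / 2 ^ l ≤ t ∧ t < ((p : ℝ) + 1) / 2 ^ l).card :
      ℝ) ≤ ((2 : ℝ) ^ (k - l)) ^ τ := by
    intro v
    by_cases hv : v ∈ W₀
    · obtain ⟨P, C, h1, h2, -, h4, h5⟩ := hFRO τ k (T v ∩ U v k) hτ hτ1
        (fun t ht => hTsub v ht.1)
      refine ⟨P, fun _ => ⟨h1, ?_, h2⟩⟩
      have h6 : ρ ^ k < Sm τ C := hv.2 C h4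
      have h7 : ρ ^ k < 2 * (P.card : ℝ) / ((2 : ℝ) ^ k) ^ τ := lt_of_lt_of_le h6 h5
      rw [lt_div_iff₀ h2k] at h7
      rw [hσ]
      linarith
    · exact ⟨∅, fun h => absurd h hv⟩
  choose P hP using hP
  have hWmem : ∀ v ∈ W, v ∈ W₀ := fun v hv => hWsub (Finset.mem_coe.2 hv)
  have hone := hONE k l W B P (Q k) σ τ hσ0 hτ hlk hl12 hl6 hWne
    (fun v hv => hV v (hWmem v hv).1)
    (fun p => by
      have h1 := hWcnt k le_rfl p
      rwa [Nat.sub_self, pow_zero, Real.one_rpow] at h1)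
    (fun v hv => by
      obtain ⟨h1, h2, h3⟩ := hP v (hWmem v hv)
      refine ⟨fun t ht => hTsub v (h1 ht).1, h2, h3, fun t ht => ?_⟩
      obtain ⟨q, hq, h4⟩ := (h1 ht).2
      refine ⟨q, hq, ?_, fun i => ?_⟩
      · have := h4 0
        rwa [Fin.cons_zero] at this
      · have := h4 i.succ
        rwa [Fin.cons_succ] at this)
  have hfin := nums (k := k) (l := l) (s := s) (ε := ε) (β := β) (τ := τ) hC0 hτ hWcard hσ
    (Nat.cast_nonneg _) (hQ1 k) hlle hone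
  rw [div_lt_iff₀ (by positivity)] at hkk
  have h5 : (3 + d / τ) * ε * k ≤ g / 2 * k :=
    mul_le_mul_of_nonneg_right hεg (Nat.cast_nonneg k)
  have h6 : (k : ℝ) * g - (3 + d / τ) * ε * k ≤ CC := hfin
  linarith

end Pool.Agent.H640.FXR
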