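import Pool.Agent.H951.FX.StmP

/-!
# Pairs of points: counting at one scale
-/

set_option autoImplicit false

open MeasureTheory
open scoped Classical ENNReal NNReal

namespace Pool.Agent.H281.FXR

open Pool.Agent.H951.FH Pool.Agent.H951.FX

/-- the points near `t` -/
theorem near_le {l : ℕ} {P : Finset ℝ} {c : ℝ} (hP : (P : Set ℝ) ⊆ Set.Ico 0 1)
    (hfr : ∀ p : ℕ, ((P.filter fun t => (p : ℝ) / 2 ^ l ≤ t ∧ t < ((p : ℝ) + 1) / 2 ^ l).card : ℝ) ≤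
      c) {t : ℝ} (ht : t ∈ P) :
    ((P.filter fun t' => |t - t'| < 1 / 2 ^ l).card : ℝ) ≤ 3 * c := by
  obtain ⟨I, hI⟩ : ∃ I : ℕ → Finset ℝ, I = fun p : ℕ =>
    P.filter fun t => (p : ℝ) / 2 ^ l ≤ t ∧ t < ((p : ℝ) + 1) / 2 ^ l := ⟨_, rfl⟩
  obtain ⟨p, hp⟩ : ∃ p, p = ⌊(2 : ℝ) ^ l * t⌋₊ := ⟨_, rfl⟩
  have hl : (0 : ℝ) < 2 ^ l := by positivity
  have h0 : 0 ≤ t := (hP (Finset.mem_coe.2 ht)).1
  have hsub : P.filter (fun t' => |t - t'| < 1 / 2 ^ l) ⊆ I (p - 1) ∪ (I p ∪ I (p + 1)) := by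
    intro t' ht'
    rw [Finset.mem_filter] at ht'
    obtain ⟨ht'P, hd⟩ := ht'
    have h0' : 0 ≤ t' := (hP (Finset.mem_coe.2 ht'P)).1
    obtain ⟨p', hp'⟩ : ∃ p', p' = ⌊(2 : ℝ) ^ l * t'⌋₊ := ⟨_, rfl⟩
    have a1 : (p : ℝ) ≤ 2 ^ l * t := by rw [hp]; exact Nat.floor_le (by positivity)
    have a2 : 2 ^ l * t < (p : ℝ) + 1 := by rw [hp]; exact Nat.lt_floor_add_one _
    have a3 : (p' : ℝ) ≤ 2 ^ l * t' := by rw [hp']; exact Nat.floor_le (by positivity)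
    have a4 : 2 ^ l * t' < (p' : ℝ) + 1 := by rw [hp']; exact Nat.lt_floor_add_one _
    have hm : t' ∈ I p' := by
      rw [hI]
      simp only [Finset.mem_filter]
      refine ⟨ht'P, ?_, ?_⟩
      · rw [div_le_iff₀ hl, mul_comm]
        exact a3
      · rw [lt_div_iff₀ hl, mul_comm]
        exact a4
    have hpp : p' = p - 1 ∨ p' = p ∨ p' = p + 1 := by
      have h1 : |2 ^ l * t - 2 ^ l * t'| < 1 := by
        rw [← mul_sub, abs_mul, abs_of_pos hl]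
        calc (2 : ℝ) ^ l * |t - t'| < 2 ^ l * (1 / 2 ^ l) := mul_lt_mul_of_pos_left hd hl
          _ = 1 := by field_simp
      rw [abs_lt] at h1
      have b1 : (p' : ℝ) < p + 2 := by linarith [h1.1]
      have b2 : (p : ℝ) < p' + 2 := by linarith [h1.2]
      have b1' : p' < p + 2 := by exact_mod_cast b1
      have b2' : p < p' + 2 := by exact_mod_cast b2
      omega
    rw [Finset.mem_union, Finset.mem_union]
    rcases hpp with h | h | h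
    · left; rw [← h]; exact hm
    · right; left; rw [← h]; exact hm
    · right; right; rw [← h]; exact hm
  have h1 : ((P.filter (fun t' => |t - t'| < 1 / 2 ^ l)).card : ℝ) ≤
      (I (p - 1)).card + ((I p).card + (I (p + 1)).card) := by
    exact_mod_cast (Finset.card_le_card hsub).trans ((Finset.card_union_le _ _).trans
      (Nat.add_le_add_left (Finset.card_union_le _ _) _))
  have h2 : ∀ p, ((I p).card : ℝ) ≤ c := by
    intro p
    rw [hI]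
    exact hfr p
  have := h2 (p - 1)
  have := h2 p
  have := h2 (p + 1)
  linarith

/-- many pairs of distant points -/
theorem pairs_ge {l : ℕ} {P : Finset ℝ} {c σ : ℝ} (hσ : 0 < σ) (hc : 6 * c ≤ σ)
    (hcard : σ ≤ P.card)
    (hnear : ∀ t ∈ P, ((P.filter fun t' => |t - t'| < 1 / 2 ^ l).card : ℝ) ≤ 3 * c) :
    σ ^ 2 / 2 ≤ (((P ×ˢ P).filter fun z : ℝ × ℝ => 1 / 2 ^ l ≤ |z.1 - z.2|).card : ℝ) := by
  have h1 := Finset.card_filter_add_card_filter_not (s := P ×ˢ P)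
    (fun z : ℝ × ℝ => 1 / 2 ^ l ≤ |z.1 - z.2|)
  have h2 : (((P ×ˢ P).filter fun z : ℝ × ℝ => ¬ (1 : ℝ) / 2 ^ l ≤ |z.1 - z.2|).card : ℝ) ≤
      P.card * (3 * c) := by
    have e : ((P ×ˢ P).filter fun z : ℝ × ℝ => ¬ (1 : ℝ) / 2 ^ l ≤ |z.1 - z.2|).card =
        ∑ t ∈ P, (P.filter fun t' => |t - t'| < 1 / 2 ^ l).card := by
      rw [Finset.card_filter, Finset.sum_product]
      refine Finset.sum_congr rfl fun t _ => ?_
      rw [Finset.card_filter]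
      refine Finset.sum_congr rfl fun t' _ => ?_
      simp only [not_le]
    rw [e]
    push_cast
    refine (Finset.sum_le_sum hnear).trans ?_
    rw [Finset.sum_const, nsmul_eq_mul]
  have h3 : ((P ×ˢ P).card : ℝ) = (P.card : ℝ) * P.card := by
    rw [Finset.card_product]
    push_cast
    ring
  have h4 : (((P ×ˢ P).filter fun z : ℝ × ℝ => 1 / 2 ^ l ≤ |z.1 - z.2|).card : ℝ) +
      (((P ×ˢ P).filter fun z : ℝ × ℝ => ¬ (1 : ℝ) / 2 ^ l ≤ |z.1 - z.2|).card : ℝ) =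
      (P.card : ℝ) * P.card := by
    rw [← h3]
    exact_mod_cast h1
  have h5 : (P.card : ℝ) * (3 * c) ≤ P.card * (P.card / 2) :=
    mul_le_mul_of_nonneg_left (by linarith) (Nat.cast_nonneg _)
  have h6 : σ ^ 2 ≤ (P.card : ℝ) * P.card := by
    rw [pow_two]
    exact mul_le_mul hcard hcard hσ.le (Nat.cast_nonneg _)
  linarith

theorem inj_t {k : ℕ} {P : Finset ℝ} (hP : (P : Set ℝ) ⊆ Set.Ico 0 1)
    (h1 : ∀ p : ℕ, ((P.filter fun t => (p : ℝ) / 2 ^ k ≤ t ∧ t < ((p : ℝ) + 1) / 2 ^ k).card : ℝ) ≤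
      1) {t t' : ℝ} (ht : t ∈ P) (ht' : t' ∈ P) (he : ⌊(2 : ℝ) ^ k * t⌋ = ⌊(2 : ℝ) ^ k * t'⌋) :
    t = t' := by
  have h0 : 0 ≤ t := (hP (Finset.mem_coe.2 ht)).1
  have hn : 0 ≤ ⌊(2 : ℝ) ^ k * t⌋ := Int.floor_nonneg.2 (by positivity)
  obtain ⟨p, hp⟩ := Int.eq_ofNat_of_zero_le hn
  have h3 : (P.filter fun t => (p : ℝ) / 2 ^ k ≤ t ∧ t < ((p : ℝ) + 1) / 2 ^ k).card ≤ 1 := by
    exact_mod_cast h1 p
  rw [Finset.card_le_one] at h3
  have mem : ∀ s ∈ P, ⌊(2 : ℝ) ^ k * s⌋ = (p : ℤ) →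
      s ∈ P.filter fun t => (p : ℝ) / 2 ^ k ≤ t ∧ t < ((p : ℝ) + 1) / 2 ^ k := by
    intro s hs h
    have h5 := Int.floor_eq_iff.1 h
    rw [Finset.mem_filter]
    push_cast at h5
    exact ⟨hs, by rw [div_le_iff₀ (by positivity)]; linarith [h5.1],
      by rw [lt_div_iff₀ (by positivity)]; linarith [h5.2]⟩
  exact h3 t (mem t ht hp) t' (mem t' ht' (he ▸ hp))

theorem t_le {k : ℕ} {P : Finset ℝ} (hP : (P : Set ℝ) ⊆ Set.Ico 0 1)
    (h1 : ∀ p : ℕ, ((P.filter fun t => (p : ℝ) / 2 ^ k ≤ t ∧ t < ((p : ℝ) + 1) / 2 ^ k).card : ℝ) ≤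
      1) (m : ℤ) : (P.filter fun t => |(2 : ℝ) ^ k * t - m| < 3).card ≤ 7 := by
  have h2 : (P.filter fun t => |(2 : ℝ) ^ k * t - m| < 3).card ≤
      (Finset.Icc (m - 3) (m + 3)).card := by
    apply Finset.card_le_card_of_injOn (fun t => ⌊(2 : ℝ) ^ k * t⌋)
    · intro t ht
      rw [Finset.mem_coe, Finset.mem_filter] at ht
      obtain ⟨_, h⟩ := ht
      rw [abs_lt] at h
      rw [Finset.mem_coe, Finset.mem_Icc]
      constructor
      · rw [Int.le_floor]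
        push_cast
        linarith [h.1]
      · have h4 : ⌊(2 : ℝ) ^ k * t⌋ < m + 4 := by
          rw [Int.floor_lt]
          push_cast
          linarith [h.2]
        show ⌊(2 : ℝ) ^ k * t⌋ ≤ m + 3
        omega
    · intro t ht t' ht' he
      rw [Finset.mem_coe, Finset.mem_filter] at ht ht'
      exact inj_t hP h1 ht.1 ht'.1 he
  rw [Int.card_Icc] at h2
  omega

/-- the number of the directions in a small cube -/
theorem v_le {d k l : ℕ} {W W' : Finset (Fin d → ℝ)} (hWW : W' ⊆ W)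
    (hW : ∀ v ∈ W, ∀ i, 0 ≤ v i ∧ v i < 1)
    (h1 : ∀ p : Fin d → ℕ, ((W.filter fun v => v ∈ Cb (k, p)).card : ℝ) ≤ 1) (c : Fin d → ℝ)
    (hc : ∀ v ∈ W', ∀ i, |(2 : ℝ) ^ k * v i - c i| < 24 * 2 ^ l) :
    (W'.card : ℝ) ≤ (50 * (2 : ℝ) ^ l) ^ d := by
  obtain ⟨S, hS⟩ : ∃ S : Fin d → Finset ℤ, S = fun i =>
    Finset.Icc ⌊c i - 24 * 2 ^ l⌋ (⌊c i - 24 * 2 ^ l⌋ + 48 * 2 ^ l) := ⟨_, rfl⟩
  have hcard : W'.card ≤ (Fintype.piFinset S).card := by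
    apply Finset.card_le_card_of_injOn (fun v i => ⌊(2 : ℝ) ^ k * v i⌋)
    · intro v hv
      rw [Finset.mem_coe] at hv ⊢
      rw [Fintype.mem_piFinset]
      intro i
      have h2 := abs_lt.1 (hc v hv i)
      rw [hS]
      simp only [Finset.mem_Icc]
      constructor
      · exact Int.floor_le_floor (by linarith [h2.1])
      · have h3 : (2 : ℝ) ^ k * v i < ((⌊c i - 24 * 2 ^ l⌋ + 48 * 2 ^ l + 1 : ℤ) : ℝ) := by
          push_cast
          have := Int.lt_floor_add_one (c i - 24 * 2 ^ l)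
          linarith [h2.2]
        exact Int.lt_add_one_iff.1 (Int.floor_lt.2 h3)
    · intro v hv v' hv' he
      rw [Finset.mem_coe] at hv hv'
      have hvW := hWW hv
      have hvW' := hWW hv'
      have h3 : (W.filter fun w => w ∈ Cb (k, fun i => (⌊(2 : ℝ) ^ k * v i⌋).toNat)).card ≤ 1 := by
        exact_mod_cast h1 (fun i => (⌊(2 : ℝ) ^ k * v i⌋).toNat)
      rw [Finset.card_le_one] at h3
      have mem : ∀ w ∈ W, (∀ i, ⌊(2 : ℝ) ^ k * w i⌋ = ⌊(2 : ℝ) ^ k * v i⌋) →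
          w ∈ W.filter fun w => w ∈ Cb (k, fun i => (⌊(2 : ℝ) ^ k * v i⌋).toNat) := by
        intro w hw h
        rw [Finset.mem_filter]
        refine ⟨hw, fun i => ?_⟩
        have hn : 0 ≤ ⌊(2 : ℝ) ^ k * w i⌋ := by
          have := (hW w hw i).1
          exact Int.floor_nonneg.2 (by positivity)
        have e : (((⌊(2 : ℝ) ^ k * v i⌋).toNat : ℕ) : ℝ) = ((⌊(2 : ℝ) ^ k * w i⌋ : ℤ) : ℝ) := by
          rw [← h i]
          exact_mod_cast Int.toNat_of_nonneg hn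
        have h5 := Int.floor_le ((2 : ℝ) ^ k * w i)
        have h6 := Int.lt_floor_add_one ((2 : ℝ) ^ k * w i)
        show (((⌊(2 : ℝ) ^ k * v i⌋).toNat : ℕ) : ℝ) / 2 ^ k ≤ w i ∧
          w i < ((((⌊(2 : ℝ) ^ k * v i⌋).toNat : ℕ) : ℝ) + 1) / 2 ^ k
        rw [e]
        exact ⟨by rw [div_le_iff₀ (by positivity)]; linarith,
          by rw [lt_div_iff₀ (by positivity)]; linarith⟩
      exact h3 v (mem v hvW fun _ => rfl) v' (mem v' hvW' fun i => (congrFun he i).symm)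
  have hSc : (Fintype.piFinset S).card = (48 * 2 ^ l + 1) ^ d := by
    rw [Fintype.card_piFinset]
    have h2 : ∀ i, (S i).card = 48 * 2 ^ l + 1 := by
      intro i
      rw [hS]
      simp only [Int.card_Icc]
      have e : ⌊c i - 24 * 2 ^ l⌋ + 48 * 2 ^ l + 1 - ⌊c i - 24 * 2 ^ l⌋ =
          ((48 * 2 ^ l + 1 : ℕ) : ℤ) := by
        push_cast
        ring
      rw [e, Int.toNat_natCast]
    rw [Finset.prod_congr rfl (fun i _ => h2 i), Finset.prod_const, Finset.card_univ,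
      Fintype.card_fin]
  have h2 : (W'.card : ℝ) ≤ (48 * (2 : ℝ) ^ l + 1) ^ d := by
    rw [hSc] at hcard
    exact_mod_cast hcard
  refine h2.trans (pow_le_pow_left₀ (by positivity) ?_ d)
  have : (1 : ℝ) ≤ 2 ^ l := one_le_pow₀ (by norm_num)
  linarith

/-- the direction is determined by two points -/
theorem dir_le {k l : ℕ} (hkl : 12 * (2 : ℝ) ^ l ≤ 2 ^ k) {t t' b v : ℝ} {m m' n n' : ℤ}
    (hv : 0 ≤ v ∧ v < 1) (hd : 1 / 2 ^ l ≤ |t - t'|) (h1 : |(2 : ℝ) ^ k * t - m| < 3)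
    (h2 : |(2 : ℝ) ^ k * t' - m'| < 3) (h3 : |(2 : ℝ) ^ k * (b + t * v) - n| < 3)
    (h4 : |(2 : ℝ) ^ k * (b + t' * v) - n'| < 3) :
    |(2 : ℝ) ^ k * v - 2 ^ k * (((n : ℝ) - n') / ((m : ℝ) - m'))| < 24 * 2 ^ l := by
  obtain ⟨a, ha⟩ : ∃ a, a = (2 : ℝ) ^ k * (t - t') := ⟨_, rfl⟩
  obtain ⟨D, hD⟩ : ∃ D, D = (m : ℝ) - m' := ⟨_, rfl⟩
  obtain ⟨E, hE⟩ : ∃ E, E = (n : ℝ) - n' := ⟨_, rfl⟩
  have hl : (0 : ℝ) < 2 ^ l := by positivity
  have hk : (0 : ℝ) < 2 ^ k := by positivity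
  obtain ⟨X, hX⟩ : ∃ X, X = (2 : ℝ) ^ k / 2 ^ l := ⟨_, rfl⟩
  have hX12 : 12 ≤ X := by rw [hX, le_div_iff₀ hl]; exact hkl
  have haX : X ≤ |a| := by
    rw [ha, abs_mul, abs_of_pos hk, hX, div_eq_mul_one_div]
    exact mul_le_mul_of_nonneg_left hd hk.le
  have haD : |a - D| < 6 := by
    have e : a - D = ((2 : ℝ) ^ k * t - m) - ((2 : ℝ) ^ k * t' - m') := by rw [ha, hD]; ring
    rw [e]
    exact lt_of_le_of_lt (abs_sub _ _) (by linarith)
  have haE : |a * v - E| < 6 := by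
    have e : a * v - E = ((2 : ℝ) ^ k * (b + t * v) - n) - ((2 : ℝ) ^ k * (b + t' * v) - n') := by
      rw [ha, hE]; ring
    rw [e]
    exact lt_of_le_of_lt (abs_sub _ _) (by linarith)
  have hDE : |D * v - E| < 12 := by
    have e : D * v - E = (a * v - E) - (a - D) * v := by ring
    rw [e]
    refine lt_of_le_of_lt (abs_sub _ _) ?_
    rw [abs_mul, abs_of_nonneg hv.1]
    have : |a - D| * v ≤ |a - D| * 1 := mul_le_mul_of_nonneg_left hv.2.le (abs_nonneg _)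
    linarith
  have hDX : X / 2 ≤ |D| := by
    have h5 : |a| ≤ |D| + |a - D| := by
      have e : a = D + (a - D) := by ring
      calc |a| = |D + (a - D)| := by rw [← e]
        _ ≤ _ := abs_add_le _ _
    linarith
  have hD0 : D ≠ 0 := by
    intro h
    rw [h, abs_zero] at hDX
    linarith
  rw [← hD, ← hE]
  obtain ⟨w, hw⟩ : ∃ w, w = |v - E / D| := ⟨_, rfl⟩
  have hw0 : 0 ≤ w := by rw [hw]; exact abs_nonneg _
  have hwD : w * |D| < 12 := by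
    rw [hw, ← abs_mul]
    have e : (v - E / D) * D = D * v - E := by field_simp
    rw [e]
    exact hDE
  have e1 : |(2 : ℝ) ^ k * v - 2 ^ k * (E / D)| = 2 ^ k * w := by
    rw [← mul_sub, abs_mul, abs_of_pos hk, hw]
  rw [e1]
  have h5 : w * (X / 2) < 12 := lt_of_le_of_lt (mul_le_mul_of_nonneg_left hDX hw0) hwD
  have h6 : X * 2 ^ l = 2 ^ k := by rw [hX]; field_simp
  rw [← h6]
  nlinarith

theorem t_ONEP : S_ONEP := by
  intro d hd
  refine ⟨98 * 50 ^ d, by positivity, ?_⟩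
  intro k l W B P Q σ τ hσ hτ hlk hkl hστ _ hW01 hW1 hP
  obtain ⟨R, hR⟩ : ∃ R : (Fin d → ℝ) → ℝ → (Fin (d + 1) → ℤ) → Prop, R = fun v t q =>
    |(2 : ℝ) ^ k * t - q 0| < 3 ∧ ∀ i : Fin d, |(2 : ℝ) ^ k * (B v i + t * v i) - q i.succ| < 3 :=
    ⟨_, rfl⟩
  obtain ⟨M, hM⟩ : ∃ M : (Fin d → ℝ) → (Fin (d + 1) → ℤ) × (Fin (d + 1) → ℤ) → Finset (ℝ × ℝ),
    M = fun v z => ((P v) ×ˢ (P v)).filter (fun y => 1 / 2 ^ l ≤ |y.1 - y.2| ∧ R v y.1 z.1 ∧
      R v y.2 z.2) := ⟨_, rfl⟩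
  have hkk : ∀ v ∈ W, ∀ p : ℕ, (((P v).filter fun t => (p : ℝ) / 2 ^ k ≤ t ∧
      t < ((p : ℝ) + 1) / 2 ^ k).card : ℝ) ≤ 1 := by
    intro v hv p
    have := (hP v hv).2.2.1 k le_rfl p
    rwa [Nat.sub_self, pow_zero, Real.one_rpow] at this
  -- lower bound
  have hlow : ∀ v ∈ W, σ ^ 2 / 2 ≤
      (((P v ×ˢ P v).filter fun z : ℝ × ℝ => 1 / 2 ^ l ≤ |z.1 - z.2|).card : ℝ) := by
    intro v hv
    obtain ⟨p1, p2, p3, _⟩ := hP v hv
    exact pairs_ge hσ hστ p2 fun t ht => near_le p1 (p3 l hlk) ht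
  -- covering by the pairs of cubes
  have hcov : ∀ v ∈ W, (((P v ×ˢ P v).filter fun z : ℝ × ℝ => 1 / 2 ^ l ≤ |z.1 - z.2|).card : ℝ) ≤
      ∑ z ∈ Q ×ˢ Q, ((M v z).card : ℝ) := by
    intro v hv
    have h1 : ((P v ×ˢ P v).filter fun z : ℝ × ℝ => 1 / 2 ^ l ≤ |z.1 - z.2|) ⊆
        (Q ×ˢ Q).biUnion (M v) := by
      intro y hy
      rw [Finset.mem_filter, Finset.mem_product] at hy
      obtain ⟨⟨hy1, hy2⟩, hy3⟩ := hy
      obtain ⟨q, hq, hq1⟩ := (hP v hv).2.2.2 y.1 hy1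
      obtain ⟨q', hq', hq1'⟩ := (hP v hv).2.2.2 y.2 hy2
      rw [Finset.mem_biUnion]
      refine ⟨(q, q'), Finset.mem_product.2 ⟨hq, hq'⟩, ?_⟩
      rw [hM]
      simp only [Finset.mem_filter, Finset.mem_product]
      rw [hR]
      exact ⟨⟨hy1, hy2⟩, hy3, hq1, hq1'⟩
    exact_mod_cast (Finset.card_le_card h1).trans Finset.card_biUnion_le
  -- the fibres
  have hM49 : ∀ v ∈ W, ∀ z, (M v z).card ≤ 49 := by
    intro v hv z
    have h1 : M v z ⊆ ((P v).filter fun t => |(2 : ℝ) ^ k * t - z.1 0| < 3) ×ˢ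
        ((P v).filter fun t => |(2 : ℝ) ^ k * t - z.2 0| < 3) := by
      intro y hy
      rw [hM] at hy
      simp only [Finset.mem_filter, Finset.mem_product] at hy
      rw [hR] at hy
      rw [Finset.mem_product, Finset.mem_filter, Finset.mem_filter]
      exact ⟨⟨hy.1.1, hy.2.2.1.1⟩, ⟨hy.1.2, hy.2.2.2.1⟩⟩
    have h2 := Finset.card_le_card h1
    rw [Finset.card_product] at h2
    have h3 := t_le (hP v hv).1 (hkk v hv) (z.1 0)
    have h4 := t_le (hP v hv).1 (hkk v hv) (z.2 0)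
    exact h2.trans ((Nat.mul_le_mul h3 h4).trans (by norm_num))
  have hfib : ∀ z : (Fin (d + 1) → ℤ) × (Fin (d + 1) → ℤ), ∑ v ∈ W, ((M v z).card : ℝ) ≤
      49 * (50 * (2 : ℝ) ^ l) ^ d := by
    intro z
    obtain ⟨W', hW'⟩ : ∃ W', W' = W.filter fun v => (M v z).Nonempty := ⟨_, rfl⟩
    have h1 : (W'.card : ℝ) ≤ (50 * (2 : ℝ) ^ l) ^ d := by
      refine v_le (by rw [hW']; exact Finset.filter_subset _ _) hW01 hW1
        (fun i => 2 ^ k * (((z.1 i.succ : ℝ) - z.2 i.succ) / ((z.1 0 : ℝ) - z.2 0))) ?_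
      intro v hv i
      rw [hW', Finset.mem_filter] at hv
      obtain ⟨hvW, y, hy⟩ := hv
      rw [hM] at hy
      simp only [Finset.mem_filter, Finset.mem_product] at hy
      rw [hR] at hy
      obtain ⟨_, hy1, hy2, hy3⟩ := hy
      exact dir_le hkl (hW01 v hvW i) hy1 hy2.1 hy3.1 (hy2.2 i) (hy3.2 i)
    have h2 : ∑ v ∈ W, ((M v z).card : ℝ) ≤ ∑ v ∈ W', (49 : ℝ) := by
      have e : ∑ v ∈ W', (49 : ℝ) = ∑ v ∈ W, if (M v z).Nonempty then (49 : ℝ) else 0 := by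
        rw [hW', Finset.sum_filter]
      rw [e]
      refine Finset.sum_le_sum fun v hv => ?_
      split_ifs with h
      · exact_mod_cast hM49 v hv z
      · rw [Finset.not_nonempty_iff_eq_empty.1 h]
        simp
    refine h2.trans ?_
    rw [Finset.sum_const, nsmul_eq_mul, mul_comm]
    exact mul_le_mul_of_nonneg_left h1 (by norm_num)
  have hsum : (W.card : ℝ) * (σ ^ 2 / 2) ≤ (Q.card : ℝ) ^ 2 * (49 * (50 * (2 : ℝ) ^ l) ^ d) := by
    calc (W.card : ℝ) * (σ ^ 2 / 2) = ∑ v ∈ W, σ ^ 2 / 2 := by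
          rw [Finset.sum_const, nsmul_eq_mul]
      _ ≤ ∑ v ∈ W, ∑ z ∈ Q ×ˢ Q, ((M v z).card : ℝ) :=
          Finset.sum_le_sum fun v hv => (hlow v hv).trans (hcov v hv)
      _ = ∑ z ∈ Q ×ˢ Q, ∑ v ∈ W, ((M v z).card : ℝ) := Finset.sum_comm
      _ ≤ ∑ z ∈ Q ×ˢ Q, 49 * (50 * (2 : ℝ) ^ l) ^ d := Finset.sum_le_sum fun z _ => hfib z
      _ = (Q.card : ℝ) ^ 2 * (49 * (50 * (2 : ℝ) ^ l) ^ d) := by
          rw [Finset.sum_const, nsmul_eq_mul, Finset.card_product]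
          push_cast
          ring
  have e : (98 * 50 ^ d : ℝ) * ((2 : ℝ) ^ l) ^ d * (Q.card : ℝ) ^ 2 =
      2 * ((Q.card : ℝ) ^ 2 * (49 * (50 * (2 : ℝ) ^ l) ^ d)) := by
    rw [mul_pow]
    ring
  rw [e]
  linarith

end Pool.Agent.H281.FXR
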