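import Pool.Agent.H951.FH.Asm3
import Pool.Agent.H951.FX.FWP
import Pool.Agent.H951.FX.FDP
import Pool.Agent.H951.FX.ONEP
import Pool.Agent.H951.FX.FVP

/-!
Assembly: Furstenberg-Kakeya sets, the bound from pairs of points.
-/

set_option autoImplicit false

open MeasureTheory
open scoped Classical ENNReal NNReal

namespace Pool.Agent.H951.FX

theorem fdP (d : ℕ) (hd : 1 ≤ d) (K N : Set (EuclideanSpace ℝ (Fin (d + 1)))) (α β : ℝ)
    (hα : 0 < α) (hβ : 0 < β) (hN : ∀ e ∈ N, ‖e‖ = 1) (hdim : ENNReal.ofReal β ≤ dimH N)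
    (hK : ∀ e ∈ N, ∃ a : EuclideanSpace ℝ (Fin (d + 1)),
      ENNReal.ofReal α ≤ dimH (K ∩ {x | ∃ r : ℝ, x = a + r • e})) :
    ENNReal.ofReal (α + β / 2) ≤ dimH K :=
  Pool.Agent.H951.FXP.t_FDP (Pool.Agent.H951.FXP.t_FWP
    (Pool.Agent.H640.FXR.t_FVP Pool.Agent.H484.FH.t_COV
      (Pool.Agent.H969.FHB.t_SELD Pool.Agent.H113.FH.t_KAP Pool.Agent.H111.FHB.t_KAPD)
      Pool.Agent.H233.FH.t_FRO Pool.Agent.H80.FHB.t_FROD Pool.Agent.H281.FXR.t_ONEP))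
    d hd K N α β hα hβ hN hdim hK

end Pool.Agent.H951.FX
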