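import Pool.Agent.H951.FX.StmR
import Pool.Agent.H951.FH.FDB

/-!
# Project FX, part FDQ: the theorem for directions, the bound from the tube inequality
(after part FDB)
-/

set_option autoImplicit false

open MeasureTheory Filter Topology
open scoped Classical ENNReal NNReal

namespace Pool.Agent.H104.FXR

open Pool.Agent.H951.FH Pool.Agent.H951.FX Pool.Agent.H706.FHB

/-- first coordinate nonzero -/
theorem first (h : S_FWQ) (d : ℕ) (c : ℝ) (hd : 1 ≤ d) (hc : 0 < c) (hcn : CntQ d c)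
    (K N : Set (EuclideanSpace ℝ (Fin (d + 1)))) (τ β : ℝ)
    (hτ : 0 < τ) (hτ1 : τ ≤ 1) (hβ : 0 < β) (h0 : ∀ e ∈ N, e 0 ≠ 0)
    (h1 : ∀ e ∈ N, ‖e‖ = 1) (hN : ENNReal.ofReal β < dimH N)
    (hK : ∀ e ∈ N, ∃ a : EuclideanSpace ℝ (Fin (d + 1)),
      ENNReal.ofReal τ < dimH (K ∩ {x | ∃ r : ℝ, x = a + r • e})) :
    ENNReal.ofReal (τ + (d * τ - (d - β)) / c) ≤ dimH K := by
  set φ : EuclideanSpace ℝ (Fin (d + 1)) ≃L[ℝ] (Fin (d + 1) → ℝ) :=
    EuclideanSpace.equiv (Fin (d + 1)) ℝ with hφ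
  have hφa : ∀ (x : EuclideanSpace ℝ (Fin (d + 1))) i, φ x i = x i := fun _ _ => rfl
  have hch : ∀ v : Fin d → ℝ, ∃ b : Fin d → ℝ, v ∈ sl d '' N →
      ENNReal.ofReal τ <
        dimH {t : ℝ | (Fin.cons t (fun i => b i + t * v i) : Fin (d + 1) → ℝ) ∈ φ '' K} := by
    intro v
    by_cases hv : v ∈ sl d '' N
    swap
    · exact ⟨0, fun h => absurd h hv⟩
    obtain ⟨e, he, rfl⟩ := hv
    have he0 := h0 e he
    obtain ⟨a, ha⟩ := hK e he
    refine ⟨fun i => a i.succ - a 0 * (e i.succ / e 0), fun _ => lt_of_lt_of_le ha ?_⟩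
    set T : Set ℝ := {t : ℝ |
      (Fin.cons t (fun i => a i.succ - a 0 * (e i.succ / e 0) + t * sl d e i) :
      Fin (d + 1) → ℝ) ∈ φ '' K} with hT
    set u0 : EuclideanSpace ℝ (Fin (d + 1)) :=
      φ.symm (Fin.cons 0 (fun i => a i.succ - a 0 * (e i.succ / e 0))) with hu0
    set u1 : EuclideanSpace ℝ (Fin (d + 1)) := φ.symm (Fin.cons 1 (sl d e)) with hu1
    have hlip : LipschitzWith ‖u1‖₊ (fun t : ℝ => u0 + t • u1) := by
      refine LipschitzWith.of_dist_le_mul fun s t => ?_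
      rw [dist_add_left, dist_eq_norm, ← sub_smul, norm_smul, dist_eq_norm, mul_comm]
      rfl
    refine (dimH_mono ?_).trans (hlip.dimH_image_le T)
    rintro x ⟨hxK, r, hx⟩
    have hx0 : x 0 = a 0 + r * e 0 := by rw [hx]; rfl
    have hxs : ∀ i : Fin d, x i.succ = a i.succ + r * e i.succ := fun i => by rw [hx]; rfl
    have hcons : (Fin.cons (x 0) (fun i => a i.succ - a 0 * (e i.succ / e 0) + x 0 * sl d e i) :
        Fin (d + 1) → ℝ) = φ x := by
      funext i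
      refine Fin.cases ?_ (fun i => ?_) i
      · rfl
      · rw [Fin.cons_succ, hφa, hxs, hx0]
        unfold sl
        field_simp
        ring
    refine ⟨x 0, ?_, ?_⟩
    · show _ ∈ φ '' K
      rw [hcons]
      exact ⟨x, hxK, rfl⟩
    · show u0 + x 0 • u1 = x
      apply φ.injective
      rw [map_add, map_smul, hu0, hu1, ContinuousLinearEquiv.apply_symm_apply,
        ContinuousLinearEquiv.apply_symm_apply, ← hcons]
      funext i
      refine Fin.cases ?_ (fun i => ?_) i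
      · simp
      · simp
  choose B hB using hch
  rw [← ContinuousLinearEquiv.dimH_image φ K]
  exact h d c hd hc hcn (φ '' K) (sl d '' N) B β τ hβ hτ hτ1 (lt_of_lt_of_le hN (dim_sl d N h0 h1)) hB

/-- some coordinate nonzero -/
theorem anyc (h : S_FWQ) (d : ℕ) (c : ℝ) (hd : 1 ≤ d) (hc : 0 < c) (hcn : CntQ d c)
    (i : Fin (d + 1)) (K N : Set (EuclideanSpace ℝ (Fin (d + 1))))
    (τ β : ℝ) (hτ : 0 < τ) (hτ1 : τ ≤ 1) (hβ : 0 < β)
    (h0 : ∀ e ∈ N, e i ≠ 0) (h1 : ∀ e ∈ N, ‖e‖ = 1) (hN : ENNReal.ofReal β < dimH N)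
    (hK : ∀ e ∈ N, ∃ a : EuclideanSpace ℝ (Fin (d + 1)),
      ENNReal.ofReal τ < dimH (K ∩ {x | ∃ r : ℝ, x = a + r • e})) :
    ENNReal.ofReal (τ + (d * τ - (d - β)) / c) ≤ dimH K := by
  obtain ⟨L, hL⟩ : ∃ L : EuclideanSpace ℝ (Fin (d + 1)) ≃ₗᵢ[ℝ] EuclideanSpace ℝ (Fin (d + 1)),
      ∀ x, L x 0 = x i := by
    refine ⟨LinearIsometryEquiv.piLpCongrLeft 2 ℝ ℝ (Equiv.swap 0 i), fun x => ?_⟩
    change x ((Equiv.swap 0 i).symm 0) = x i
    rw [Equiv.symm_swap, Equiv.swap_apply_left]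
  have e1 : ∀ S : Set (EuclideanSpace ℝ (Fin (d + 1))), dimH (L '' S) = dimH S :=
    fun S => L.isometry.dimH_image S
  rw [← e1 K]
  refine first h d c hd hc hcn (L '' K) (L '' N) τ β hτ hτ1 hβ ?_ ?_ ?_ ?_
  · rintro _ ⟨e, he, rfl⟩
    rw [hL]
    exact h0 e he
  · rintro _ ⟨e, he, rfl⟩
    rw [L.norm_map]
    exact h1 e he
  · rw [e1]
    exact hN
  · rintro _ ⟨e, he, rfl⟩
    obtain ⟨a, ha⟩ := hK e he
    refine ⟨L a, lt_of_lt_of_le ha ?_⟩
    rw [← e1]
    refine dimH_mono ?_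
    rintro _ ⟨x, ⟨hxK, r, hx⟩, rfl⟩
    refine ⟨⟨x, hxK, rfl⟩, r, ?_⟩
    rw [hx, map_add, map_smul]

theorem t_FDQ : S_FWQ → S_FDQ := by
  intro h d c hd hc hcn K N α β hα hβ h1 hN hK
  -- the exponent is at most one
  have hne : N.Nonempty := by
    rw [Set.nonempty_iff_ne_empty]
    intro h2
    rw [h2, dimH_empty] at hN
    exact absurd (ENNReal.ofReal_pos.2 hβ) (not_lt.2 hN)
  have hα1 : α ≤ 1 := by
    obtain ⟨e, he⟩ := hne
    obtain ⟨a, ha⟩ := hK e he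
    have hlip : LipschitzWith ‖e‖₊ (fun t : ℝ => a + t • e) := by
      refine LipschitzWith.of_dist_le_mul fun s t => ?_
      rw [dist_add_left, dist_eq_norm, ← sub_smul, norm_smul, dist_eq_norm, mul_comm]
      rfl
    have h2 : K ∩ {x | ∃ r : ℝ, x = a + r • e} ⊆ (fun t : ℝ => a + t • e) '' Set.univ := by
      rintro x ⟨-, r, hx⟩
      exact ⟨r, trivial, hx.symm⟩
    have h3 := (ha.trans (dimH_mono h2)).trans ((hlip.dimH_image_le Set.univ).trans_eq
      Real.dimH_univ)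
    exact (ENNReal.ofReal_le_one).mp h3
  have hlim : Tendsto (fun ε : ℝ => ENNReal.ofReal ((α - ε) + (d * (α - ε) - (d - (β - ε))) / c)) (𝓝[>] 0)
      (𝓝 (ENNReal.ofReal (α + (d * α - (d - β)) / c))) := by
    have hc : Continuous fun ε : ℝ => ENNReal.ofReal ((α - ε) + (d * (α - ε) - (d - (β - ε))) / c) :=
      ENNReal.continuous_ofReal.comp (by fun_prop)
    have h2 := hc.tendsto 0
    simp only [sub_zero] at h2
    exact h2.mono_left nhdsWithin_le_nhds
  refine le_of_tendsto hlim ?_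
  filter_upwards [Ioo_mem_nhdsGT (lt_min hα hβ)] with ε hε
  have hεα : ε < α := hε.2.trans_le (min_le_left _ _)
  have hεβ : ε < β := hε.2.trans_le (min_le_right _ _)
  have hε0 : 0 < ε := hε.1
  -- one coordinate
  have hU : N = ⋃ i : Fin (d + 1), {e | e ∈ N ∧ e i ≠ 0} := by
    ext e
    rw [Set.mem_iUnion]
    constructor
    · intro he
      by_contra hcon
      push Not at hcon
      have h2 : e = 0 := by
        ext i
        by_contra h3
        exact hcon i ⟨he, h3⟩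
      have h3 := h1 e he
      rw [h2, norm_zero] at h3
      exact zero_ne_one h3
    · rintro ⟨i, he, -⟩
      exact he
  have hlt : ENNReal.ofReal (β - ε) < dimH N :=
    lt_of_lt_of_le ((ENNReal.ofReal_lt_ofReal_iff hβ).2 (by linarith)) hN
  rw [hU, dimH_iUnion, lt_iSup_iff] at hlt
  obtain ⟨i, hi⟩ := hlt
  refine anyc h d c hd hc hcn i K {e | e ∈ N ∧ e i ≠ 0} (α - ε) (β - ε) (by linarith)
    (by linarith) (by linarith) (fun e he => he.2) (fun e he => h1 e he.1) hi fun e he => ?_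
  obtain ⟨a, ha⟩ := hK e he.1
  exact ⟨a, lt_of_lt_of_le ((ENNReal.ofReal_lt_ofReal_iff hα).2 (by linarith)) ha⟩

end Pool.Agent.H104.FXR
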