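import Pool.Agent.H951.FX.StmR
import Pool.Agent.H951.FH.ONEB

/-!
# Project FX, part 3: the counting inequality at one scale
-/

set_option autoImplicit false

open MeasureTheory
open scoped Classical ENNReal NNReal

namespace Pool.Agent.H735.FXR

open Pool.Agent.H951.FH Pool.Agent.H951.FX Pool.Agent.W46.HD Pool.Agent.H632.FHB

section

variable {Λ : Type} [Fintype Λ] (k : ℕ) (P : Λ → Finset ℝ)
  (h01 : ∀ w, (P w : Set ℝ) ⊆ Set.Ico 0 1)
  (hfr : ∀ w, ∀ p : ℕ, (((P w).filter fun t => (p : ℝ) / 2 ^ k ≤ t ∧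
      t < ((p : ℝ) + 1) / 2 ^ k).card : ℝ) ≤ 1)

include h01 hfr

set_option linter.unusedSectionVars false

theorem inj1 (w : Λ) : Set.InjOn (fun t : ℝ => ⌊(2 : ℝ) ^ k * t⌋₊) (P w : Set ℝ) := by
  intro t ht t' ht' he
  have he' : ⌊(2 : ℝ) ^ k * t⌋₊ = ⌊(2 : ℝ) ^ k * t'⌋₊ := he
  have h := hfr w ⌊(2 : ℝ) ^ k * t⌋₊
  have h' : ((P w).filter fun s => ((⌊(2 : ℝ) ^ k * t⌋₊ : ℕ) : ℝ) / 2 ^ k ≤ s ∧
      s < (((⌊(2 : ℝ) ^ k * t⌋₊ : ℕ) : ℝ) + 1) / 2 ^ k).card ≤ 1 := by exact_mod_cast h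
  rw [Finset.card_le_one] at h'
  apply h'
  · rw [Finset.mem_filter]
    exact ⟨ht, dy k k 0 _ (by omega) t (h01 w ht).1 (by simp) (by simp)⟩
  · rw [Finset.mem_filter]
    exact ⟨ht', dy k k 0 _ (by omega) t' (h01 w ht').1 (by rw [he']; simp) (by rw [he']; simp)⟩

theorem fib1 (w : Λ) : (P w).card ≤ ((EE k P).filter fun z => z.1 = w).card := by
  apply Finset.card_le_card_of_injOn (fun t => (w, ⌊(2 : ℝ) ^ k * t⌋₊))
  · intro t ht
    rw [Finset.mem_coe, Finset.mem_filter, mem_EE]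
    refine ⟨⟨?_, t, ht, rfl⟩, rfl⟩
    have h := h01 w ht
    show ⌊(2 : ℝ) ^ k * t⌋₊ < 2 ^ k
    rw [Nat.floor_lt (mul_nonneg (by positivity) h.1)]
    push_cast
    have := h.2
    have h2 : (0 : ℝ) < 2 ^ k := by positivity
    nlinarith
  · intro t ht t' ht' he
    exact inj1 k P h01 hfr w ht ht' (congrArg Prod.snd he)

theorem card1 (σ : ℝ) (hσ : ∀ w, σ ≤ (P w).card) : (Fintype.card Λ : ℝ) * σ ≤ (EE k P).card := by
  have e : (EE k P).card = ∑ w : Λ, ((EE k P).filter fun z => z.1 = w).card :=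
    Finset.card_eq_sum_card_fiberwise (f := Prod.fst) (t := Finset.univ)
      (fun z _ => Finset.mem_coe.2 (Finset.mem_univ _))
  rw [e]
  push_cast
  calc (Fintype.card Λ : ℝ) * σ = ∑ _w : Λ, σ := by
        rw [Finset.sum_const, nsmul_eq_mul, Finset.card_univ]
    _ ≤ _ := Finset.sum_le_sum fun w _ => (hσ w).trans (by exact_mod_cast fib1 k P h01 hfr w)

end

/-- the dyadic cube of a point -/
theorem memCb {d k : ℕ} (N : ℝ) (hN : N = 2 ^ k) (v : Fin d → ℝ) (h0 : ∀ i, 0 ≤ v i) :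
    v ∈ Cb (k, fun i => ⌊N * v i⌋.toNat) := by
  intro i
  have h2 : (0 : ℝ) < 2 ^ k := by positivity
  have hN0 : 0 ≤ N := by rw [hN]; exact h2.le
  have hf0 : 0 ≤ ⌊N * v i⌋ := Int.floor_nonneg.2 (mul_nonneg hN0 (h0 i))
  have hcast : ((⌊N * v i⌋.toNat : ℕ) : ℝ) = (⌊N * v i⌋ : ℝ) := by
    have : ((⌊N * v i⌋.toNat : ℕ) : ℤ) = ⌊N * v i⌋ := Int.toNat_of_nonneg hf0
    exact_mod_cast this
  have h3 := Int.floor_le (N * v i)
  have h4 := Int.lt_floor_add_one (N * v i)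
  constructor
  · show ((⌊N * v i⌋.toNat : ℕ) : ℝ) / 2 ^ k ≤ v i
    rw [div_le_iff₀ h2, hcast, ← hN]
    exact h3.trans_eq (mul_comm _ _)
  · show v i < (((⌊N * v i⌋.toNat : ℕ) : ℝ) + 1) / 2 ^ k
    rw [lt_div_iff₀ h2, hcast, ← hN]
    exact (mul_comm _ _).trans_lt h4

/-- the slopes lie in different cells -/
theorem fam1 (d k : ℕ) (W : Finset (Fin d → ℝ)) (hW : ∀ v ∈ W, ∀ i, 0 ≤ v i ∧ v i < 1)
    (hfr : ∀ p : Fin d → ℕ, ((W.filter fun v => v ∈ Cb (k, p)).card : ℝ) ≤ 1) :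
    IsFam (2 ^ k) (fun w : {v // v ∈ W} => w.1) := by
  refine ⟨Nat.one_le_two_pow, fun w i => (hW _ w.2 i).1, fun w i => (hW _ w.2 i).2.le, ?_⟩
  intro w w' he
  have hc : ((2 ^ k : ℕ) : ℝ) = (2 : ℝ) ^ k := by push_cast; rfl
  have h1 := memCb ((2 ^ k : ℕ) : ℝ) hc w.1 (fun i => (hW _ w.2 i).1)
  have h2 := memCb ((2 ^ k : ℕ) : ℝ) hc w'.1 (fun i => (hW _ w'.2 i).1)
  have e : (fun i => ⌊((2 ^ k : ℕ) : ℝ) * w'.1 i⌋.toNat) =
      fun i => ⌊((2 ^ k : ℕ) : ℝ) * w.1 i⌋.toNat := by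
    funext i
    rw [he i]
  rw [e] at h2
  have h3 := hfr (fun i => ⌊((2 ^ k : ℕ) : ℝ) * w.1 i⌋.toNat)
  have h4 : (W.filter fun v => v ∈ Cb (k, fun i => ⌊((2 ^ k : ℕ) : ℝ) * w.1 i⌋.toNat)).card ≤ 1 := by
    exact_mod_cast h3
  rw [Finset.card_le_one] at h4
  exact Subtype.ext (h4 _ (Finset.mem_filter.2 ⟨w.2, h1⟩) _ (Finset.mem_filter.2 ⟨w'.2, h2⟩))

theorem t_ONEQ : S_ONEQ := by
  intro d c hd hc hQ
  obtain ⟨K, hK⟩ := hQ
  refine ⟨(d + c) * K + c * ((d + 1) * Real.log 8), ?_⟩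
  intro k W B P Q σ hσ hWne hW01 hWfr hP
  obtain ⟨D, hD⟩ : ∃ D : {v // v ∈ W} → Fin d → ℝ, D = fun w => w.1 := ⟨_, rfl⟩
  have hDW : ∀ w, D w ∈ W := fun w => by rw [hD]; exact w.2
  have hfam : IsFam (2 ^ k) D := by rw [hD]; exact fam1 d k W hW01 hWfr
  obtain ⟨E, hE⟩ : ∃ E, E = EE k (fun w => P (D w)) := ⟨_, rfl⟩
  have h01 : ∀ w, ((P (D w) : Finset ℝ) : Set ℝ) ⊆ Set.Ico 0 1 := fun w => (hP _ (hDW w)).1
  have hcE : (Fintype.card {v // v ∈ W} : ℝ) * σ ≤ E.card := by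
    rw [hE]
    exact card1 k _ h01 (fun w => (hP _ (hDW w)).2.2.1) σ (fun w => (hP _ (hDW w)).2.1)
  have hcell : ((E.image fun z => (z.2, cel (fun w i => (2 : ℝ) ^ k * B (D w) i) D z.2 z.1)).card : ℝ) ≤
      8 ^ (d + 1) * Q.card := by
    rw [hE]
    exact cells d k D (fun w => B (D w)) _ Q (fun w i => ⟨(hW01 _ (hDW w) i).1,
      (hW01 _ (hDW w) i).2.le⟩) h01 (fun w => (hP _ (hDW w)).2.2.2)
  have hlt : ∀ z ∈ E, z.2 < 2 ^ k := fun z hz => by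
    rw [hE, mem_EE] at hz
    exact hz.1
  -- the shading with heights in `Fin (2 ^ k)`
  obtain ⟨F, hF⟩ : ∃ F : Finset ({v // v ∈ W} × Fin (2 ^ k)),
      F = Finset.univ.filter fun z => (z.1, (z.2 : ℕ)) ∈ E := ⟨_, rfl⟩
  have hmF : ∀ z, z ∈ F ↔ (z.1, (z.2 : ℕ)) ∈ E := fun z => by rw [hF, Finset.mem_filter]; simp
  have hEF : E.card ≤ F.card := by
    have hsub : E ⊆ F.image fun z => (z.1, (z.2 : ℕ)) := by
      intro z hz
      rw [Finset.mem_image]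
      exact ⟨(z.1, ⟨z.2, hlt z hz⟩), (hmF _).2 hz, rfl⟩
    exact (Finset.card_le_card hsub).trans Finset.card_image_le
  have hcF : ((F.image fun z => (z.2, cell (fun w i => (2 : ℝ) ^ k * B (D w) i) D z.2 z.1)).card : ℝ) ≤
      8 ^ (d + 1) * Q.card := by
    refine le_trans ?_ hcell
    have h1 : (F.image fun z => (z.2, cell (fun w i => (2 : ℝ) ^ k * B (D w) i) D z.2 z.1)).card ≤
        (E.image fun z => (z.2, cel (fun w i => (2 : ℝ) ^ k * B (D w) i) D z.2 z.1)).card := by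
      apply Finset.card_le_card_of_injOn (fun y => ((y.1 : ℕ), y.2))
      · intro y hy
        rw [Finset.mem_coe, Finset.mem_image] at hy
        obtain ⟨z, hz, rfl⟩ := hy
        rw [Finset.mem_coe, Finset.mem_image]
        exact ⟨(z.1, (z.2 : ℕ)), (hmF z).1 hz, rfl⟩
      · intro y _ y' _ he
        have h2 := congrArg Prod.fst he
        have h3 := congrArg Prod.snd he
        exact Prod.ext (Fin.ext h2) h3
    exact_mod_cast h1
  have hWc : 0 < W.card := Finset.card_pos.2 hWne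
  have hL : 0 < (W.card : ℝ) := by exact_mod_cast hWc
  rw [Fintype.card_coe] at hcE
  have hEF' : (E.card : ℝ) ≤ F.card := by exact_mod_cast hEF
  have hFc : 0 < (F.card : ℝ) := lt_of_lt_of_le (mul_pos hL hσ) (hcE.trans hEF')
  have hFne : F.Nonempty := by
    rw [← Finset.card_pos]
    exact_mod_cast hFc
  have h1 := hK (2 ^ k) {v // v ∈ W} (fun w i => (2 : ℝ) ^ k * B (D w) i) D hfam F hFne
  have hNpos : 0 < ((F.image fun z => (z.2, cell (fun w i => (2 : ℝ) ^ k * B (D w) i) D z.2 z.1)).card : ℝ) := by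
    exact_mod_cast (hFne.image _).card_pos
  have hQpos : 0 < (Q.card : ℝ) := by
    by_contra hno
    have h2 : (Q.card : ℝ) ≤ 0 := not_lt.1 hno
    have h3 : (8 : ℝ) ^ (d + 1) * Q.card ≤ 0 := mul_nonpos_of_nonneg_of_nonpos (by positivity) h2
    linarith
  have h4 := Real.log_le_log hNpos hcF
  rw [Real.log_mul (by positivity) hQpos.ne', Real.log_pow] at h4
  have h5 := Real.log_le_log (mul_pos hL hσ) (hcE.trans hEF')
  rw [Real.log_mul hL.ne' hσ.ne'] at h5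
  have h6 : Real.log ((2 ^ k : ℕ) : ℝ) = k * Real.log 2 := by
    push_cast
    rw [Real.log_pow]
  rw [h6, Fintype.card_coe] at h1
  obtain ⟨X, hX⟩ : ∃ X : ℝ, X = Real.log
    ((F.image fun z => (z.2, cell (fun w i => (2 : ℝ) ^ k * B (D w) i) D z.2 z.1)).card : ℝ) := ⟨_, rfl⟩
  rw [← hX] at h1 h4
  have hd0 : (0 : ℝ) < d := by exact_mod_cast hd
  have hdc : (0 : ℝ) < d + c := by positivity
  have h7 := h5.trans h1
  have h8 := mul_le_mul_of_nonneg_left h7 hdc.le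
  have h9 : ((d : ℝ) + c) * (K + d / (d + c) * (k * Real.log 2) +
      (d + c - 1) / (d + c) * Real.log W.card + c / (d + c) * X) =
      (d + c) * K + d * (k * Real.log 2) + (d + c - 1) * Real.log W.card + c * X := by
    field_simp
  rw [h9] at h8
  have h10 := mul_le_mul_of_nonneg_left h4 hc.le
  have h11 : ((d + 1 : ℕ) : ℝ) = d + 1 := by push_cast; rfl
  rw [h11] at h10
  nlinarith

end Pool.Agent.H735.FXR
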