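import Pool.Agent.H951.FX.LimR
import Pool.Agent.H951.FH.Asm3
import Pool.Agent.H951.FX.ONEQ
import Pool.Agent.H951.FX.FVQ
import Pool.Agent.H951.FX.FWQ
import Pool.Agent.H951.FX.FDQ

/-!
Assembly: Furstenberg-Kakeya sets, the bound from the tube inequality.
-/

set_option autoImplicit false

open MeasureTheory
open scoped Classical ENNReal NNReal

namespace Pool.Agent.H951.FX

theorem fdR (d : ℕ) (hd : 1 ≤ d) (c : ℝ) (hc : 0 < c)
    (hT : ∀ c' : ℝ, c < c' → CntQ d c') (K N : Set (EuclideanSpace ℝ (Fin (d + 1)))) (α β : ℝ)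
    (hα : 0 < α) (hβ : 0 < β) (hN : ∀ e ∈ N, ‖e‖ = 1) (hdim : ENNReal.ofReal β ≤ dimH N)
    (hK : ∀ e ∈ N, ∃ a : EuclideanSpace ℝ (Fin (d + 1)),
      ENNReal.ofReal α ≤ dimH (K ∩ {x | ∃ r : ℝ, x = a + r • e})) :
    ENNReal.ofReal (α + (d * α - (d - β)) / c) ≤ dimH K :=
  limR (Pool.Agent.H104.FXR.t_FDQ (Pool.Agent.H797.FXR.t_FWQ
    (Pool.Agent.H377.FXR.t_FVQ Pool.Agent.H484.FH.t_COV
      (Pool.Agent.H969.FHB.t_SELD Pool.Agent.H113.FH.t_KAP Pool.Agent.H111.FHB.t_KAPD)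
      Pool.Agent.H233.FH.t_FRO Pool.Agent.H80.FHB.t_FROD Pool.Agent.H735.FXR.t_ONEQ)))
    d hd c hc hT K N α β hα hβ hN hdim hK

end Pool.Agent.H951.FX
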