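import Pool.Agent.H951.FX.StmQ
import Pool.Agent.H951.KS.Cnt
import Pool.Agent.H951.KS.CntB

/-!
# FX-CNTQ (helper404, adapted from helper951): counting incidences, with the number of lines
-/

set_option autoImplicit false

open MeasureTheory
open scoped Classical ENNReal NNReal

namespace Pool.Agent.H404.FXQ

open Pool.Agent.H951.FH Pool.Agent.H951.FX Pool.Agent.H951.KS
open Pool.Agent.W605.HD Pool.Agent.W46.HD Pool.Agent.Y254HK

/-- incidences of lines whose slopes are `1 / n`-separated -/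
theorem cntq_sep {d : ℕ} (hd : 1 ≤ d) {c : ℝ} (hc : 0 < c) (hT : Pool.Agent.Y249.AC.TubeB d c) :
    ∃ K : ℝ, ∀ (n : ℕ) (Ω : Type) [Fintype Ω] (A D : Ω → Fin d → ℝ), IsFam n D →
      (∀ ω ω', ω ≠ ω' → ∃ i, 1 / (n : ℝ) ≤ |D ω i - D ω' i|) →
      ∀ E : Finset (Ω × Fin n), E.Nonempty →
        Real.log E.card ≤ K + d / (d + c) * Real.log n +
          (d + c - 1) / (d + c) * Real.log (Fintype.card Ω) + c / (d + c) *
          Real.log ((E.image fun z => (z.2, cell A D z.2 z.1)).card) := by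
  obtain ⟨C, hC, h⟩ := hT
  have hd0 : (0 : ℝ) < d := by exact_mod_cast hd
  obtain ⟨R, hR⟩ : ∃ R : ℝ, R = 4 * (d + 1) := ⟨_, rfl⟩
  have hR0 : 0 < R := by rw [hR]; positivity
  obtain ⟨sq, hsq⟩ : ∃ x : ℝ, x = Real.sqrt (d + 1) := ⟨_, rfl⟩
  have hsq1 : 1 ≤ sq := by
    rw [hsq]
    exact Real.one_le_sqrt.2 (by linarith)
  have hsqsq : sq * sq = d + 1 := by rw [hsq]; exact Real.mul_self_sqrt (by positivity)
  refine ⟨(d + 1) * Real.log R + d / (d + c) * (Real.log C + d * (Real.log sq - Real.log R)) -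
    c / (d + c) * ((d + 1) * Real.log R), ?_⟩
  intro n Ω _ A D hfam hsep E hE
  have hn1 : 1 ≤ n := hfam.pos
  have hn0 : (0 : ℝ) < n := by exact_mod_cast hn1
  have hn1R : (1 : ℝ) ≤ n := by exact_mod_cast hn1
  obtain ⟨x, hx⟩ : ∃ x : ℝ, x = 1 / (R * n) := ⟨_, rfl⟩
  have hx0 : 0 < x := by rw [hx]; positivity
  obtain ⟨δ, hδ⟩ : ∃ δ : ℝ, δ = sq * x := ⟨_, rfl⟩
  have hδ0 : 0 < δ := by rw [hδ]; positivity
  have hδn : δ * (4 * sq * n) = 1 := by
    rw [hδ, hx, hR, ← hsqsq]
    have : sq ≠ 0 := by linarith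
    field_simp
  have hδ1 : δ ≤ 1 / 4 := by
    have h1 : (4 : ℝ) ≤ 4 * sq * n := by nlinarith
    have h2 : δ * 4 ≤ δ * (4 * sq * n) := mul_le_mul_of_nonneg_left h1 hδ0.le
    linarith
  let a : Ω → EuclideanSpace ℝ (Fin (d + 1)) := fun ω =>
    pt d (1 / (2 * R)) (fun i => A ω i * x + D ω i / (2 * R))
  let e : Ω → EuclideanSpace ℝ (Fin (d + 1)) := fun ω => ev (D ω)
  obtain ⟨U, hU⟩ : ∃ U : Finset (Fin n × (Fin d → ℤ)),
    U = E.image fun z => (z.2, cell A D z.2 z.1) := ⟨_, rfl⟩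
  rw [← hU]
  -- the boxes are contained in the tubes
  have hbox : ∀ ω (j : Fin n), bx x (j, cell A D j ω) ⊆
      Pool.Agent.W46.KK.tube δ (a ω) (e ω) := by
    intro ω j y hy
    obtain ⟨h1, h2, h3⟩ := hy
    have hw1 := wv_one (D ω)
    have hw2 : ‖wv (D ω)‖ ≤ sq := by rw [hsq]; exact wv_le _ (hfam.lo ω) (hfam.hi ω)
    have hj1 : (((j : ℕ) : ℝ)) ≤ n := by exact_mod_cast j.2.le
    have hj0 : (0 : ℝ) ≤ ((j : ℕ) : ℝ) := Nat.cast_nonneg _
    refine Pool.Agent.W46.KK.near_axis (a ω) (e ω) y (ev_norm _)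
      ((((j : ℕ) : ℝ) / n - 1 / 2) / R * ‖wv (D ω)‖) δ ?_ le_rfl ?_
    · have h4 : |((j : ℕ) : ℝ) / n - 1 / 2| ≤ 1 / 2 := by
        rw [abs_le]
        have h5 : ((j : ℕ) : ℝ) / n ≤ 1 := by rw [div_le_one hn0]; exact hj1
        have h6 : 0 ≤ ((j : ℕ) : ℝ) / n := by positivity
        constructor <;> linarith
      rw [abs_mul, abs_div, abs_of_pos hR0, abs_of_nonneg (norm_nonneg _)]
      have h7 : |((j : ℕ) : ℝ) / n - 1 / 2| / R * ‖wv (D ω)‖ ≤ 1 / 2 / R * sq :=
        mul_le_mul (div_le_div_of_nonneg_right h4 hR0.le) hw2 (norm_nonneg _) (by positivity)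
      have h8 : 1 / 2 / R * sq ≤ 1 / 4 := by
        rw [hR, ← hsqsq]
        have : sq ≠ 0 := by linarith
        have e8 : 1 / 2 / (4 * (sq * sq)) * sq = 1 / (8 * sq) := by field_simp; norm_num
        rw [e8, div_le_div_iff₀ (by positivity) (by norm_num)]
        linarith
      linarith
    · have e1 : a ω + ((((j : ℕ) : ℝ) / n - 1 / 2) / R * ‖wv (D ω)‖) • e ω =
          pt d (((j : ℕ) : ℝ) * x) (fun i => (A ω i + ((j : ℕ) : ℝ) * D ω i) * x) := by
        have hwn : ‖wv (D ω)‖ ≠ 0 := by linarith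
        ext l
        refine Fin.cases ?_ (fun i => ?_) l
        · simp only [PiLp.add_apply, PiLp.smul_apply, smul_eq_mul, a, e, pt_zero, ev_zero, hx]
          field_simp
          ring
        · simp only [PiLp.add_apply, PiLp.smul_apply, smul_eq_mul, a, e, pt_succ, ev_succ, hx]
          field_simp
          ring
      rw [e1]
      have h4 : ‖y - pt d (((j : ℕ) : ℝ) * x) (fun i => (A ω i + ((j : ℕ) : ℝ) * D ω i) * x)‖ ^ 2 ≤
          δ ^ 2 := by
        rw [EuclideanSpace.norm_sq_eq, Fin.sum_univ_succ]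
        simp only [PiLp.sub_apply, pt_zero, pt_succ, Real.norm_eq_abs, sq_abs]
        have h5 : (y 0 - ((j : ℕ) : ℝ) * x) ^ 2 ≤ x ^ 2 := by
          apply sq_le_sq'
          · linarith
          · simp only at h2
            linarith
        have h6 : ∀ i : Fin d, (y (Fin.succ i) - (A ω i + ((j : ℕ) : ℝ) * D ω i) * x) ^ 2 ≤
            x ^ 2 := by
          intro i
          have h7 := (h3 i).1
          have h8 := (h3 i).2
          have h9 : ((cell A D j ω i : ℤ) : ℝ) ≤ A ω i + ((j : ℕ) : ℝ) * D ω i := Int.floor_le _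
          have h10 : A ω i + ((j : ℕ) : ℝ) * D ω i < (cell A D j ω i : ℤ) + 1 :=
            Int.lt_floor_add_one _
          simp only at h7 h8
          have h11 := mul_le_mul_of_nonneg_right h9 hx0.le
          have h12 := mul_lt_mul_of_pos_right h10 hx0
          apply sq_le_sq'
          · linarith
          · linarith
        have h7 : ∑ i : Fin d, (y (Fin.succ i) - (A ω i + ((j : ℕ) : ℝ) * D ω i) * x) ^ 2 ≤
            ∑ _i : Fin d, x ^ 2 := Finset.sum_le_sum fun i _ => h6 i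
        rw [Finset.sum_const, Finset.card_univ, Fintype.card_fin, nsmul_eq_mul] at h7
        have h8 : δ ^ 2 = (d + 1) * x ^ 2 := by
          rw [hδ, mul_pow, pow_two sq, hsqsq]
        rw [h8]
        linarith
      exact (pow_le_pow_iff_left₀ (norm_nonneg _) hδ0.le two_ne_zero).1 h4
  -- the directions are separated
  have hdir : ∀ ω ω', ω ≠ ω' → δ ≤ ‖e ω - e ω'‖ := by
    intro ω ω' hne
    obtain ⟨i, hi⟩ := hsep ω ω' hne
    have h1 := ev_sep (D ω) (D ω') (hfam.lo ω') (hfam.hi ω') i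
    have hw2 : ‖wv (D ω)‖ ≤ sq := by rw [hsq]; exact wv_le _ (hfam.lo ω) (hfam.hi ω)
    have h2 : 1 / (n : ℝ) ≤ 2 * sq * ‖ev (D ω) - ev (D ω')‖ := by
      refine hi.trans (h1.trans ?_)
      have := norm_nonneg (ev (D ω) - ev (D ω'))
      nlinarith
    rw [div_le_iff₀ hn0] at h2
    change δ ≤ ‖ev (D ω) - ev (D ω')‖
    have h3 : 0 < 4 * sq * n := by positivity
    have h4 : δ * (4 * sq * n) ≤ ‖ev (D ω) - ev (D ω')‖ * (4 * sq * n) := by
      rw [hδn]
      nlinarith [norm_nonneg (ev (D ω) - ev (D ω'))]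
    exact le_of_mul_le_mul_right h4 h3
  have hmain := h δ hδ0 (by linarith) Ω a e (fun ω => ev_norm _) hdir
  obtain ⟨f, hf⟩ : ∃ f : EuclideanSpace ℝ (Fin (d + 1)) → ℝ≥0∞, f = fun y => ∑ i,
    (Pool.Agent.W46.KK.tube δ (a i) (e i)).indicator (fun _ => (1 : ℝ≥0∞)) y := ⟨_, rfl⟩
  have hfm : Measurable f := by
    rw [hf]
    exact Finset.measurable_sum _ fun i _ => measurable_const.indicator
      (Pool.Agent.W46.KK.tube_isClosed _ _ _).measurableSet
  have hmain2 : ∫⁻ y, f y ^ (1 + c / (d : ℝ)) ≤ ENNReal.ofReal (C * δ ^ (d : ℝ) *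
      (Fintype.card Ω : ℝ) ^ (1 + c / (d : ℝ) - 1 / (d : ℝ))) := by
    rw [hf]
    exact hmain
  obtain ⟨S, hS⟩ : ∃ S : Set (EuclideanSpace ℝ (Fin (d + 1))), S = ⋃ y ∈ U, bx x y := ⟨_, rfl⟩
  have hSm : MeasurableSet S := by
    rw [hS]
    exact Finset.measurableSet_biUnion _ fun y _ => bx_meas x y
  have hSv : volume S ≤ ENNReal.ofReal (U.card * x ^ (d + 1)) := by
    rw [hS]
    refine (measure_biUnion_finset_le _ _).trans ?_
    rw [Finset.sum_congr rfl fun y _ => bx_vol x hx0 y, Finset.sum_const, nsmul_eq_mul,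
      ENNReal.ofReal_mul (Nat.cast_nonneg _), ENNReal.ofReal_natCast]
  have hlow : ENNReal.ofReal (E.card * x ^ (d + 1)) ≤ ∫⁻ y in S, f y := by
    rw [hS, lintegral_biUnion_finset (fun y _ y' _ hne => bx_disj x hx0 y y' hne)
      (fun y _ => bx_meas x y)]
    have h1 : (E.card : ℝ) = ∑ y ∈ U, ((E.filter fun z => (z.2, cell A D z.2 z.1) = y).card : ℝ) := by
      rw [hU]
      exact_mod_cast Finset.card_eq_sum_card_image _ E
    rw [h1, Finset.sum_mul, ENNReal.ofReal_sum_of_nonneg fun y _ => by positivity]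
    refine Finset.sum_le_sum fun y _ => ?_
    rw [ENNReal.ofReal_mul (Nat.cast_nonneg _), ENNReal.ofReal_natCast, ← bx_vol x hx0 y,
      ← setLIntegral_const]
    refine setLIntegral_mono' (bx_meas x y) fun w hw => ?_
    rw [hf]
    have h2 : ((E.filter fun z => (z.2, cell A D z.2 z.1) = y).card : ℝ≥0∞) =
        ((((E.filter fun z => (z.2, cell A D z.2 z.1) = y).image Prod.fst).card : ℕ) : ℝ≥0∞) := by
      rw [Finset.card_image_of_injOn]
      intro z hz z' hz' hzz
      have g1 := (Finset.mem_filter.1 (Finset.mem_coe.1 hz)).2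
      have g2 := (Finset.mem_filter.1 (Finset.mem_coe.1 hz')).2
      have g3 : z.2 = z'.2 := by
        have := congrArg Prod.fst (g1.trans g2.symm)
        exact this
      exact Prod.ext hzz g3
    rw [h2]
    calc ((((E.filter fun z => (z.2, cell A D z.2 z.1) = y).image Prod.fst).card : ℕ) : ℝ≥0∞) =
          ∑ i ∈ (E.filter fun z => (z.2, cell A D z.2 z.1) = y).image Prod.fst, 1 := by
          rw [Finset.sum_const, nsmul_eq_mul, mul_one]
      _ ≤ ∑ i ∈ (E.filter fun z => (z.2, cell A D z.2 z.1) = y).image Prod.fst,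
          (Pool.Agent.W46.KK.tube δ (a i) (e i)).indicator (fun _ => (1 : ℝ≥0∞)) w := by
          refine Finset.sum_le_sum fun i hi => ?_
          obtain ⟨z, hz, rfl⟩ := Finset.mem_image.1 hi
          have g1 := (Finset.mem_filter.1 hz).2
          rw [Set.indicator_of_mem]
          apply hbox z.1 z.2
          rw [g1]
          exact hw
      _ ≤ _ := Finset.sum_le_sum_of_subset (Finset.subset_univ _)
  have hdc : 0 < d + c := by positivity
  have hconj : (1 + c / (d : ℝ)).HolderConjugate ((d + c) / c) := by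
    rw [Real.holderConjugate_iff]
    refine ⟨by linarith [div_pos hc hd0], ?_⟩
    field_simp
  have hup : ∫⁻ y in S, f y ≤ (ENNReal.ofReal (C * δ ^ (d : ℝ) *
      (Fintype.card Ω : ℝ) ^ (1 + c / (d : ℝ) - 1 / (d : ℝ)))) ^ (1 / (1 + c / (d : ℝ))) *
      (ENNReal.ofReal (U.card * x ^ (d + 1))) ^ (1 / ((d + c) / c)) := by
    have h1 := ENNReal.lintegral_mul_le_Lp_mul_Lq volume hconj hfm.aemeasurable
      ((measurable_const (a := (1 : ℝ≥0∞))).indicator hSm).aemeasurable
    have h2 : ∫⁻ y in S, f y = ∫⁻ y, (f * S.indicator fun _ => (1 : ℝ≥0∞)) y := by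
      rw [← lintegral_indicator hSm]
      refine lintegral_congr fun y => ?_
      rw [Pi.mul_apply]
      by_cases hy : y ∈ S
      · rw [Set.indicator_of_mem hy, Set.indicator_of_mem hy, mul_one]
      · rw [Set.indicator_of_notMem hy, Set.indicator_of_notMem hy, mul_zero]
    have h3 : ∫⁻ y, (S.indicator (fun _ => (1 : ℝ≥0∞)) y) ^ ((d + c) / c) = volume S := by
      rw [← lintegral_indicator_one hSm]
      refine lintegral_congr fun y => ?_
      by_cases hy : y ∈ S
      · rw [Set.indicator_of_mem hy, Set.indicator_of_mem hy, ENNReal.one_rpow]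
        rfl
      · rw [Set.indicator_of_notMem hy, Set.indicator_of_notMem hy,
          ENNReal.zero_rpow_of_pos (by positivity)]
    rw [h2]
    refine h1.trans ?_
    rw [h3]
    exact mul_le_mul' (ENNReal.rpow_le_rpow hmain2 (by positivity))
      (ENNReal.rpow_le_rpow hSv (by positivity))
  have hΩ : 0 < Fintype.card Ω := by
    obtain ⟨z, hz⟩ := hE
    exact Fintype.card_pos_iff.2 ⟨z.1⟩
  have hΩR : (0 : ℝ) < Fintype.card Ω := by exact_mod_cast hΩ
  have hUpos : (0 : ℝ) < U.card := by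
    rw [hU]
    exact_mod_cast Finset.card_pos.2 (hE.image _)
  have hEpos : (0 : ℝ) < E.card := by exact_mod_cast Finset.card_pos.2 hE
  have hreal : (E.card : ℝ) * x ^ (d + 1) ≤ (C * δ ^ (d : ℝ) *
      (Fintype.card Ω : ℝ) ^ (1 + c / (d : ℝ) - 1 / (d : ℝ))) ^ (1 / (1 + c / (d : ℝ))) *
      (U.card * x ^ (d + 1)) ^ (1 / ((d + c) / c)) := by
    have h1 := hlow.trans hup
    rw [ENNReal.ofReal_rpow_of_nonneg (by positivity) (by positivity),
      ENNReal.ofReal_rpow_of_nonneg (by positivity) (by positivity),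
      ← ENNReal.ofReal_mul (by positivity)] at h1
    exact (ENNReal.ofReal_le_ofReal_iff (by positivity)).1 h1
  have hlog := Real.log_le_log (by positivity) hreal
  rw [Real.log_mul hEpos.ne' (by positivity), Real.log_pow, Real.log_mul (by positivity)
    (by positivity), Real.log_rpow (by positivity), Real.log_rpow (by positivity),
    Real.log_mul (by positivity) (by positivity), Real.log_mul (by positivity) (by positivity),
    Real.log_rpow hδ0, Real.log_rpow hΩR, Real.log_mul hUpos.ne' (by positivity),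
    Real.log_pow] at hlog
  have elx : Real.log x = -(Real.log R + Real.log n) := by
    rw [hx, Real.log_div one_ne_zero (by positivity), Real.log_one,
      Real.log_mul hR0.ne' hn0.ne', zero_sub]
  have elδ : Real.log δ = Real.log sq - (Real.log R + Real.log n) := by
    rw [hδ, Real.log_mul (by linarith) hx0.ne', elx]
    ring
  rw [elδ, elx] at hlog
  have c1 : 1 / (1 + c / (d : ℝ)) = d / (d + c) := by field_simp
  have c2 : 1 / ((d + c) / c) = c / (d + c) := by field_simp
  have c3 : 1 + c / (d : ℝ) - 1 / (d : ℝ) = (d + c - 1) / d := by field_simp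
  rw [c1, c2, c3] at hlog
  have e2 : d / (d + c) * (Real.log C + ↑d * (Real.log sq - (Real.log R + Real.log n)) +
      (d + c - 1) / d * Real.log (Fintype.card Ω)) = d / (d + c) * (Real.log C +
      ↑d * (Real.log sq - (Real.log R + Real.log n))) +
      (d + c - 1) / (d + c) * Real.log (Fintype.card Ω) := by
    field_simp
  rw [e2] at hlog
  have e3 : (d + 1) * (Real.log R + Real.log n) + d / (d + c) * (Real.log C +
      d * (Real.log sq - (Real.log R + Real.log n))) +
      c / (d + c) * (Real.log U.card + (d + 1) * -(Real.log R + Real.log n)) =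
      (d + 1) * Real.log R + d / (d + c) * (Real.log C + d * (Real.log sq - Real.log R)) -
      c / (d + c) * ((d + 1) * Real.log R) + d / (d + c) * Real.log n +
      c / (d + c) * Real.log U.card := by
    field_simp
    ring
  push_cast at hlog
  linarith

/-- FX-CNTQ -/
theorem t_CNTQ : S_CNTQ := by
  intro d c hd hc hT
  obtain ⟨K, hK⟩ := cntq_sep hd hc hT
  have hd0 : (0 : ℝ) < d := by exact_mod_cast hd
  refine ⟨K + d * Real.log 2, ?_⟩
  intro n Ω _ A D hfam E hE
  have hn1 : 1 ≤ n := hfam.pos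
  have hn0 : (0 : ℝ) < n := by exact_mod_cast hn1
  let κ : Ω → Fin d → Bool := fun ω i => decide (⌊(n : ℝ) * D ω i⌋ % 2 = 0)
  have hπ : ∃ π : Fin d → Bool, (E.card : ℝ) ≤
      2 ^ d * ((E.filter fun z => κ z.1 = π).card : ℝ) := by
    by_contra hno
    push Not at hno
    have h1 : (E.card : ℝ) = ∑ π : Fin d → Bool, ((E.filter fun z => κ z.1 = π).card : ℝ) := by
      have := Finset.card_eq_sum_card_fiberwise (f := fun z : Ω × Fin n => κ z.1) (s := E)
        (t := Finset.univ) (fun _ _ => Finset.mem_coe.2 (Finset.mem_univ _))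
      exact_mod_cast this
    have h2 : ∑ π : Fin d → Bool, 2 ^ d * ((E.filter fun z => κ z.1 = π).card : ℝ) <
        ∑ _π : Fin d → Bool, (E.card : ℝ) :=
      Finset.sum_lt_sum_of_nonempty Finset.univ_nonempty fun π _ => hno π
    rw [← Finset.mul_sum, ← h1, Finset.sum_const, Finset.card_univ, nsmul_eq_mul] at h2
    have h3 : (Fintype.card (Fin d → Bool) : ℝ) = 2 ^ d := by
      rw [Fintype.card_fun, Fintype.card_bool, Fintype.card_fin]
      push_cast
      rfl
    rw [h3] at h2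
    exact lt_irrefl _ h2
  obtain ⟨π, hπ⟩ := hπ
  let E' : Finset ({ω // κ ω = π} × Fin n) := Finset.univ.filter fun z => (z.1.1, z.2) ∈ E
  have hcard : E'.card = (E.filter fun z => κ z.1 = π).card := by
    have h1 : E'.image (fun z => (z.1.1, z.2)) = E.filter fun z => κ z.1 = π := by
      ext z
      constructor
      · intro hz
        obtain ⟨y, hy, rfl⟩ := Finset.mem_image.1 hz
        exact Finset.mem_filter.2 ⟨(Finset.mem_filter.1 hy).2, y.1.2⟩
      · intro hz
        obtain ⟨h2, h3⟩ := Finset.mem_filter.1 hz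
        exact Finset.mem_image.2 ⟨(⟨z.1, h3⟩, z.2), Finset.mem_filter.2 ⟨Finset.mem_univ _, h2⟩,
          rfl⟩
    rw [← h1, Finset.card_image_of_injective]
    intro y y' hyy
    have g1 := congrArg Prod.fst hyy
    have g2 := congrArg Prod.snd hyy
    exact Prod.ext (Subtype.ext g1) g2
  have hEpos : (0 : ℝ) < E.card := by exact_mod_cast Finset.card_pos.2 hE
  have hE'pos : 0 < E'.card := by
    rw [hcard]
    by_contra h0
    have h1 : (E.filter fun z => κ z.1 = π).card = 0 := by omega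
    rw [h1] at hπ
    push_cast at hπ
    linarith
  have hE'ne : E'.Nonempty := Finset.card_pos.1 hE'pos
  have hfam' : IsFam n (fun ω : {ω // κ ω = π} => D ω.1) := ⟨hfam.pos, fun ω i => hfam.lo _ i,
    fun ω i => hfam.hi _ i, fun ω ω' h => Subtype.ext (hfam.inj _ _ h)⟩
  have hsep : ∀ ω ω' : {ω // κ ω = π}, ω ≠ ω' → ∃ i, 1 / (n : ℝ) ≤ |D ω.1 i - D ω'.1 i| := by
    intro ω ω' hne
    by_contra hno
    push Not at hno
    apply hne
    apply Subtype.ext
    apply hfam.inj
    intro i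
    have h1 := hno i
    rw [lt_div_iff₀ hn0, abs_sub_comm] at h1
    have h2 : |(n : ℝ) * D ω'.1 i - n * D ω.1 i| < 1 := by
      rw [← mul_sub, abs_mul, abs_of_pos hn0, mul_comm]
      exact h1
    have h3 := abs_lt.1 h2
    have f1 := Int.floor_le ((n : ℝ) * D ω.1 i)
    have f2 := Int.lt_floor_add_one ((n : ℝ) * D ω.1 i)
    have f3 := Int.floor_le ((n : ℝ) * D ω'.1 i)
    have f4 := Int.lt_floor_add_one ((n : ℝ) * D ω'.1 i)
    have g1 : ⌊(n : ℝ) * D ω.1 i⌋ < ⌊(n : ℝ) * D ω'.1 i⌋ + 2 := by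
      have : ((⌊(n : ℝ) * D ω.1 i⌋ : ℤ) : ℝ) < ((⌊(n : ℝ) * D ω'.1 i⌋ + 2 : ℤ) : ℝ) := by
        push_cast
        linarith [h3.1]
      exact_mod_cast this
    have g2 : ⌊(n : ℝ) * D ω'.1 i⌋ < ⌊(n : ℝ) * D ω.1 i⌋ + 2 := by
      have : ((⌊(n : ℝ) * D ω'.1 i⌋ : ℤ) : ℝ) < ((⌊(n : ℝ) * D ω.1 i⌋ + 2 : ℤ) : ℝ) := by
        push_cast
        linarith [h3.2]
      exact_mod_cast this
    have g3 : κ ω.1 i = κ ω'.1 i := by rw [ω.2, ω'.2]
    have g4 : (⌊(n : ℝ) * D ω.1 i⌋ % 2 = 0) ↔ (⌊(n : ℝ) * D ω'.1 i⌋ % 2 = 0) := by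
      have := g3
      simp only [κ, decide_eq_decide] at this
      exact this
    omega
  have hmain := hK n {ω // κ ω = π} (fun ω => A ω.1) (fun ω => D ω.1) hfam' hsep E' hE'ne
  have hsub : (E'.image fun z => (z.2, cell (fun ω : {ω // κ ω = π} => A ω.1)
      (fun ω => D ω.1) z.2 z.1)).card ≤ (E.image fun z => (z.2, cell A D z.2 z.1)).card := by
    apply Finset.card_le_card
    intro y hy
    obtain ⟨z, hz, rfl⟩ := Finset.mem_image.1 hy
    exact Finset.mem_image.2 ⟨(z.1.1, z.2), (Finset.mem_filter.1 hz).2, rfl⟩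
  have hsubpos : (0 : ℝ) < (E'.image fun z => (z.2, cell (fun ω : {ω // κ ω = π} => A ω.1)
      (fun ω => D ω.1) z.2 z.1)).card := by
    exact_mod_cast Finset.card_pos.2 (hE'ne.image _)
  have h1 := Real.log_le_log hsubpos (Nat.cast_le (α := ℝ).2 hsub)
  have h2 : Real.log E.card ≤ d * Real.log 2 + Real.log E'.card := by
    have h3 : (E.card : ℝ) ≤ 2 ^ d * (E'.card : ℝ) := by rw [hcard]; exact hπ
    have h4 := Real.log_le_log hEpos h3
    rw [Real.log_mul (by positivity) (by exact_mod_cast hE'pos.ne'), Real.log_pow] at h4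
    exact h4
  have h5 := mul_le_mul_of_nonneg_left h1 (by positivity : 0 ≤ c / (d + c))
  have hΩ' : (0 : ℝ) < Fintype.card {ω // κ ω = π} := by
    obtain ⟨z, _⟩ := hE'ne
    have : 0 < Fintype.card {ω // κ ω = π} := Fintype.card_pos_iff.2 ⟨z.1⟩
    exact_mod_cast this
  have h6 : Fintype.card {ω // κ ω = π} ≤ Fintype.card Ω :=
    Fintype.card_le_of_injective (fun ω => ω.1) Subtype.val_injective
  have h7 := Real.log_le_log hΩ' (Nat.cast_le (α := ℝ).2 h6)
  have hd1 : (1 : ℝ) ≤ d := by exact_mod_cast hd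
  have h8 := mul_le_mul_of_nonneg_left h7
    (div_nonneg (by linarith) (by positivity) : 0 ≤ ((d : ℝ) + c - 1) / (d + c))
  linarith

end Pool.Agent.H404.FXQ

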