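import Pool.Agent.H951.FX.Stm

/-!
# FX-CONB: the inequality at one scale
-/

set_option autoImplicit false

open MeasureTheory
open scoped Classical ENNReal NNReal

namespace Pool.Agent.H339.FX

open Pool.Agent.H951.FH Pool.Agent.H951.FX

/-- The numbers. -/
theorem conb_num (K κ n β M m x p B c ρ Q : ℝ) (hM : 0 < M) (hm : 0 < m) (hn : 0 < n)
    (hx : 0 < x) (hp : 0 < p) (hρ : 0 ≤ ρ) (hK : 0 ≤ K) (hκ : 0 ≤ κ) (hQ0 : 0 ≤ Q)
    (hc : n ^ β * x / (4 * M) ≤ c) (hQ : Q ≤ p * B)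
    (h : c ^ 2 * (p * x / (2 * m)) ^ 4 * ρ ≤ K * κ * n ^ (1 + 2 * β) * Q ^ 2) :
    p ^ 2 * x ^ 6 * ρ ≤ 256 * K * κ * m ^ 4 * M ^ 2 * n * B ^ 2 := by
  have hnb : 0 < n ^ β := Real.rpow_pos_of_pos hn β
  have e1 : n ^ (1 + 2 * β) = n * (n ^ β) ^ 2 := by
    rw [Real.rpow_add hn, Real.rpow_one, mul_comm 2 β, Real.rpow_mul hn.le]
    norm_num
  have h1 : (n ^ β * x / (4 * M)) ^ 2 * (p * x / (2 * m)) ^ 4 * ρ ≤
      K * κ * (n * (n ^ β) ^ 2) * (p * B) ^ 2 := by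
    calc (n ^ β * x / (4 * M)) ^ 2 * (p * x / (2 * m)) ^ 4 * ρ
        ≤ c ^ 2 * (p * x / (2 * m)) ^ 4 * ρ := by gcongr
      _ ≤ _ := h
      _ = K * κ * (n * (n ^ β) ^ 2) * Q ^ 2 := by rw [e1]
      _ ≤ _ := by gcongr
  have h2 : (n ^ β * x / (4 * M)) ^ 2 * (p * x / (2 * m)) ^ 4 * ρ =
      (p ^ 2 * x ^ 6 * ρ) * (p ^ 2 * (n ^ β) ^ 2 / (256 * M ^ 2 * m ^ 4)) := by
    field_simp
    ring
  have h3 : K * κ * (n * (n ^ β) ^ 2) * (p * B) ^ 2 =
      (256 * K * κ * m ^ 4 * M ^ 2 * n * B ^ 2) *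
        (p ^ 2 * (n ^ β) ^ 2 / (256 * M ^ 2 * m ^ 4)) := by
    field_simp
  rw [h2, h3] at h1
  exact le_of_mul_le_mul_right h1 (by positivity)

theorem t_CONB (hSLB : S_SLB) (hONE : S_ONEB) : S_CONB := by
  intro d β hβ
  have hβ0 : 0 < β := by linarith
  obtain ⟨K, hK⟩ : ∃ K : ℝ, K = 1800000000 * 14 ^ β * (3 ^ d * 2 ^ β) ^ 2 * 64 ^ (d + 1) :=
    ⟨_, rfl⟩
  have hK0 : 0 < K := by
    rw [hK]
    positivity
  refine ⟨256 * K, by positivity, ?_⟩
  intro k Ω _ μ _ b v M x B τ P Z W r hv hv1 hM hx hB hcell hPne hP hτ0 hτ1 hfro hZ hWm hWx hWZ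
    hr1 hrk hfar
  have hm0 : 0 < (μ Set.univ).toReal := by
    obtain ⟨t0, ht0⟩ := hPne
    have h1 : ENNReal.ofReal x ≤ μ Set.univ :=
      (hWx t0 ht0).trans (measure_mono (Set.subset_univ _))
    have h2 : 0 < μ Set.univ := lt_of_lt_of_le (ENNReal.ofReal_pos.2 hx) h1
    exact ENNReal.toReal_pos h2.ne' (measure_ne_top _ _)
  obtain ⟨V, f, hVf, hVfro, hVc⟩ := hSLB d k β Ω μ v M x P W hβ0 hv hv1 hM hx hcell hPne hWm hWx
  have hPc : 0 < (P.card : ℝ) := by exact_mod_cast hPne.card_pos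
  have hn0 : (0 : ℝ) < (2 : ℝ) ^ k := by positivity
  have hVpos : 0 < (V.card : ℝ) := by
    refine lt_of_lt_of_le ?_ hVc
    have := Real.rpow_pos_of_pos hn0 β
    positivity
  have hVne : V.Nonempty := Finset.card_pos.1 (by exact_mod_cast hVpos)
  obtain ⟨Q, hQ⟩ : ∃ Q : Finset (Fin (d + 1) → ℤ),
      Q = P.biUnion fun t => (Z t).image fun z => (Fin.cons ⌊(2 : ℝ) ^ k * t⌋ z : Fin (d + 1) → ℤ) :=
    ⟨_, rfl⟩
  have hQc : (Q.card : ℝ) ≤ P.card * B := by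
    have h1 : Q.card ≤ ∑ t ∈ P, (Z t).card := by
      rw [hQ]
      refine Finset.card_biUnion_le.trans ?_
      exact Finset.sum_le_sum fun t _ => Finset.card_image_le
    have h2 : (Q.card : ℝ) ≤ ∑ t ∈ P, ((Z t).card : ℝ) := by exact_mod_cast h1
    refine h2.trans ((Finset.sum_le_sum fun t ht => hZ t ht).trans ?_)
    rw [Finset.sum_const, nsmul_eq_mul]
  have hone := hONE d k r V (fun u => b (f u)) (fun u => P.filter fun t => f u ∈ W t) Q
    ((P.card : ℝ) * x / (2 * (μ Set.univ).toReal)) β τ hβ0 hτ0 hτ1 (by linarith)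
    (by positivity) hVne
    (fun u hu i => by
      have h1 := hv1 (f u) i
      rw [(hVf u hu).1] at h1
      exact h1)
    hVfro
    (fun u hu => by
      refine ⟨?_, (hVf u hu).2, ?_, ?_⟩
      · intro t ht
        exact hP t (Finset.mem_filter.1 ht).1
      · intro l hl p
        refine le_trans ?_ (hfro l hl p)
        exact_mod_cast Finset.card_le_card
          (Finset.filter_subset_filter _ (Finset.filter_subset _ _))
      · intro t ht
        obtain ⟨htP, htW⟩ := Finset.mem_filter.1 ht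
        obtain ⟨z, hz, hz2⟩ := hWZ t htP (f u) htW
        refine ⟨Fin.cons ⌊(2 : ℝ) ^ k * t⌋ z, ?_, ?_, ?_⟩
        · rw [hQ]
          exact Finset.mem_biUnion.2 ⟨t, htP, Finset.mem_image.2 ⟨z, hz, rfl⟩⟩
        · rw [Fin.cons_zero]
          have h1 := Int.floor_le ((2 : ℝ) ^ k * t)
          have h2 := Int.lt_floor_add_one ((2 : ℝ) ^ k * t)
          rw [abs_lt]
          constructor <;> linarith
        · intro i
          rw [Fin.cons_succ]
          have h1 := hz2 i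
          rw [(hVf u hu).1] at h1
          exact h1)
    hr1 hrk hfar
  rw [← hK] at hone
  have hfin := conb_num K (((k : ℝ) + 1) ^ 11) ((2 : ℝ) ^ k) β M (μ Set.univ).toReal x P.card B
    V.card ((r : ℝ) ^ β) Q.card hM hm0 hn0 hx hPc (by positivity) hK0.le (by positivity)
    (by positivity) hVc hQc hone
  exact hfin

end Pool.Agent.H339.FX
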