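import Pool.Agent.H951.FX.StmQ
import Pool.Agent.H951.KS.Sep

/-!
# FX-CONQ: size of separated sets of heights
-/

set_option autoImplicit false
set_option maxHeartbeats 1000000

open MeasureTheory
open scoped Classical ENNReal NNReal

namespace Pool.Agent.H245.FXQ

open Pool.Agent.H951.FH Pool.Agent.H951.FX Pool.Agent.H951.KS Pool.Agent.W605.HD Pool.Agent.W46.HD
  Pool.Agent.Y254HK

/-- The numbers. -/
theorem conq_num {d c K β kl lV lP lE lY lB lX lM : ℝ} (hd : 0 < d) (hc : 0 < c)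
    (h1 : lV + lP - lX ≤ lE) (h2 : lE ≤ K + d / (d + c) * kl + (d + c - 1) / (d + c) * lV +
      c / (d + c) * lY) (h3 : lY ≤ lP + (d * Real.log 8 + lB)) (h4 : β * kl - lM ≤ lV) :
    lP ≤ ((d + c) / d * K + c * Real.log 8) + (1 - β / d) * kl + (c / d) * lB +
      ((d + c) / d) * lX + (1 / d) * lM := by
  have hdc : 0 < d + c := by linarith
  have h5 : lV + lP - lX ≤ K + d / (d + c) * kl + (d + c - 1) / (d + c) * lV +
      c / (d + c) * (lP + (d * Real.log 8 + lB)) := by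
    have := mul_le_mul_of_nonneg_left h3 (by positivity : 0 ≤ c / (d + c))
    linarith
  have h6 : (d + c) * (lV + lP - lX) ≤ (d + c) * K + d * kl + (d + c - 1) * lV +
      c * (lP + (d * Real.log 8 + lB)) := by
    have := mul_le_mul_of_nonneg_left h5 hdc.le
    refine this.trans (le_of_eq ?_)
    field_simp
  have h7 : d * lP ≤ (d + c) * K + (d - β) * kl + c * (d * Real.log 8 + lB) + (d + c) * lX +
      lM := by linarith
  have h8 : ((d + c) / d * K + c * Real.log 8) + (1 - β / d) * kl + (c / d) * lB +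
      ((d + c) / d) * lX + (1 / d) * lM =
      ((d + c) * K + (d - β) * kl + c * (d * Real.log 8 + lB) + (d + c) * lX + lM) / d := by
    field_simp
    ring
  rw [h8, le_div_iff₀ hd]
  linarith

theorem t_CONQ (hSLB : S_SLB) : S_CONQ := by
  intro d c hd hc hcnt
  obtain ⟨K, hK⟩ := hcnt
  refine ⟨((d : ℝ) + c) / d * K + c * Real.log 8, ?_⟩
  intro β k Ω _ μ _ b v M x B P Z W hβ hv hv1 hM hx hB hcell hPne hP hsep hZ hWm hWx hWZ
  have hm0 : 0 < (μ Set.univ).toReal := by
    obtain ⟨t0, ht0⟩ := hPne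
    have h1 : ENNReal.ofReal x ≤ μ Set.univ :=
      (hWx t0 ht0).trans (measure_mono (Set.subset_univ _))
    have h2 : 0 < μ Set.univ := lt_of_lt_of_le (ENNReal.ofReal_pos.2 hx) h1
    exact ENNReal.toReal_pos h2.ne' (measure_ne_top _ _)
  obtain ⟨V, f, hVf, hVfro, hVc⟩ := hSLB d k β Ω μ v M x P W hβ hv hv1 hM hx hcell hPne hWm hWx
  have hd0 : (0 : ℝ) < d := by exact_mod_cast hd
  have h2k : (0 : ℝ) < (2 : ℝ) ^ k := by positivity
  have h2kN : 0 < 2 ^ k := by positivity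
  have hcast : (((2 ^ k : ℕ)) : ℝ) = (2 : ℝ) ^ k := by push_cast; rfl
  have hPc : 0 < (P.card : ℝ) := by exact_mod_cast hPne.card_pos
  have hVpos : 0 < (V.card : ℝ) := by
    refine lt_of_lt_of_le ?_ hVc
    have := Real.rpow_pos_of_pos h2k β
    positivity
  have hVu : ∀ u ∈ V, ∀ i, 0 ≤ u i ∧ u i < 1 := by
    intro u hu i
    have h1 := hv1 (f u) i
    rw [(hVf u hu).1] at h1
    exact h1
  let J : ℝ → Fin (2 ^ k) := fun t => ⟨⌊(2 : ℝ) ^ k * t⌋.toNat % 2 ^ k, Nat.mod_lt _ h2kN⟩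
  have hJv : ∀ t ∈ P, ((((J t : Fin (2 ^ k)) : ℕ) : ℤ)) = ⌊(2 : ℝ) ^ k * t⌋ := by
    intro t ht
    have h1 : 0 ≤ ⌊(2 : ℝ) ^ k * t⌋ := Int.floor_nonneg.2 (mul_nonneg h2k.le (hP t ht).1)
    have h2 : ⌊(2 : ℝ) ^ k * t⌋ < ((2 ^ k : ℕ) : ℤ) := by
      rw [Int.floor_lt]
      push_cast
      have := mul_lt_mul_of_pos_left (hP t ht).2 h2k
      linarith
    have h3 : ⌊(2 : ℝ) ^ k * t⌋.toNat < 2 ^ k := by omega
    change ((⌊(2 : ℝ) ^ k * t⌋.toNat % 2 ^ k : ℕ) : ℤ) = _
    rw [Nat.mod_eq_of_lt h3]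
    exact Int.toNat_of_nonneg h1
  have hJ : ∀ t ∈ P, (((J t : ℕ) : ℝ)) ≤ 2 ^ k * t ∧ 2 ^ k * t < ((J t : ℕ) : ℝ) + 1 := by
    intro t ht
    have h1 : (((J t : ℕ) : ℝ)) = ((⌊(2 : ℝ) ^ k * t⌋ : ℤ) : ℝ) := by
      have := hJv t ht
      exact_mod_cast this
    rw [h1]
    exact ⟨Int.floor_le _, Int.lt_floor_add_one _⟩
  have hJinj : ∀ t ∈ P, ∀ t' ∈ P, J t = J t' → t = t' := by
    intro t ht t' ht' h
    by_contra hne
    have h1 := hsep t ht t' ht' hne
    have h2 := hJ t ht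
    have h3 := hJ t' ht'
    rw [← h] at h3
    have h4 : |(2 : ℝ) ^ k * (t - t')| < 1 := by
      rw [abs_lt]
      constructor <;> linarith [h2.1, h2.2, h3.1, h3.2]
    rw [abs_mul, abs_of_pos h2k] at h4
    rw [div_le_iff₀ h2k] at h1
    linarith
  let A : {u // u ∈ V} → Fin d → ℝ := fun u i => (2 : ℝ) ^ k * b (f u.1) i
  let D : {u // u ∈ V} → Fin d → ℝ := fun u => u.1
  let E : Finset ({u // u ∈ V} × Fin (2 ^ k)) :=
    Finset.univ.filter fun z => ∃ t ∈ P, z.2 = J t ∧ f z.1.1 ∈ W t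
  have hfam : IsFam (2 ^ k) D := by
    refine ⟨Nat.one_le_two_pow, fun q i => (hVu q.1 q.2 i).1, fun q i => (hVu q.1 q.2 i).2.le, ?_⟩
    intro u u' h
    apply Subtype.ext
    have hcell' : ∀ w : {u // u ∈ V}, (∀ i, ⌊((2 ^ k : ℕ) : ℝ) * D w i⌋ =
        ⌊((2 ^ k : ℕ) : ℝ) * D u i⌋) →
        w.1 ∈ Cb (k, fun i => ⌊((2 ^ k : ℕ) : ℝ) * D u i⌋.toNat) := by
      intro w hw i
      have h0 : (0 : ℤ) ≤ ⌊((2 ^ k : ℕ) : ℝ) * D u i⌋ := by
        apply Int.floor_nonneg.2
        have := (hVu u.1 u.2 i).1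
        positivity
      have h1 : ((⌊((2 ^ k : ℕ) : ℝ) * D u i⌋.toNat : ℕ) : ℝ) =
          ((⌊((2 ^ k : ℕ) : ℝ) * D w i⌋ : ℤ) : ℝ) := by
        rw [hw i]
        have h3 := Int.toNat_of_nonneg h0
        exact_mod_cast h3
      change ((⌊((2 ^ k : ℕ) : ℝ) * D u i⌋.toNat : ℕ) : ℝ) / 2 ^ k ≤ w.1 i ∧
        w.1 i < (((⌊((2 ^ k : ℕ) : ℝ) * D u i⌋.toNat : ℕ) : ℝ) + 1) / 2 ^ k
      rw [h1]
      have h4 := Int.floor_le (((2 ^ k : ℕ) : ℝ) * D w i)
      have h5 := Int.lt_floor_add_one (((2 ^ k : ℕ) : ℝ) * D w i)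
      have h6 : ((2 ^ k : ℕ) : ℝ) * D w i = (2 : ℝ) ^ k * w.1 i := by rw [hcast]
      rw [h6] at h4 h5
      rw [h6]
      constructor
      · rw [div_le_iff₀ h2k]
        linarith
      · rw [lt_div_iff₀ h2k]
        linarith
    have hu := hcell' u (fun i => rfl)
    have hu' := hcell' u' (fun i => (h i).symm)
    have h1 := hVfro k le_rfl (fun i => ⌊((2 ^ k : ℕ) : ℝ) * D u i⌋.toNat)
    rw [Nat.sub_self, pow_zero, Real.one_rpow] at h1
    have h2 : (V.filter fun w => w ∈ Cb (k, fun i => ⌊((2 ^ k : ℕ) : ℝ) * D u i⌋.toNat)).card ≤ 1 := by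
      exact_mod_cast h1
    exact Finset.card_le_one.1 h2 u.1 (Finset.mem_filter.2 ⟨u.2, hu⟩) u'.1
      (Finset.mem_filter.2 ⟨u'.2, hu'⟩)
  have hcount : (V.card : ℝ) * (P.card * x / (2 * (μ Set.univ).toReal)) ≤ E.card := by
    have h1 : ∀ u : {u // u ∈ V}, (P.filter fun t => f u.1 ∈ W t).card ≤
        (Finset.univ.filter fun j : Fin (2 ^ k) => (u, j) ∈ E).card := by
      intro q
      refine Finset.card_le_card_of_injOn J ?_ ?_
      · intro t ht
        obtain ⟨ht1, ht2⟩ := Finset.mem_filter.1 (Finset.mem_coe.1 ht)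
        exact Finset.mem_coe.2 (Finset.mem_filter.2 ⟨Finset.mem_univ _,
          Finset.mem_filter.2 ⟨Finset.mem_univ _, t, ht1, rfl, ht2⟩⟩)
      · intro t ht t' ht' h
        exact hJinj t (Finset.mem_filter.1 (Finset.mem_coe.1 ht)).1 t'
          (Finset.mem_filter.1 (Finset.mem_coe.1 ht')).1 h
    have h2 : ∑ q : {u // u ∈ V}, (Finset.univ.filter fun j : Fin (2 ^ k) => (q, j) ∈ E).card =
        E.card := by
      rw [← Finset.card_sigma]
      refine Finset.card_bij (fun z _ => (z.1, z.2)) ?_ ?_ ?_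
      · intro z hz
        exact (Finset.mem_filter.1 (Finset.mem_sigma.1 hz).2).2
      · rintro ⟨q, j⟩ _ ⟨q', j'⟩ _ h
        simp only [Prod.mk.injEq] at h
        obtain ⟨rfl, rfl⟩ := h
        rfl
      · intro z hz
        exact ⟨⟨z.1, z.2⟩, Finset.mem_sigma.2 ⟨Finset.mem_univ _, Finset.mem_filter.2
          ⟨Finset.mem_univ _, hz⟩⟩, rfl⟩
    have h6 : (∑ q : {u // u ∈ V}, (P.filter fun t => f q.1 ∈ W t).card) ≤ E.card := by
      rw [← h2]
      exact Finset.sum_le_sum fun q _ => h1 q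
    have h7 : (∑ q : {u // u ∈ V}, ((P.filter fun t => f q.1 ∈ W t).card : ℝ)) ≤ E.card := by
      exact_mod_cast h6
    refine le_trans ?_ h7
    calc (V.card : ℝ) * (P.card * x / (2 * (μ Set.univ).toReal)) =
        ∑ q : {u // u ∈ V}, ((P.card : ℝ) * x / (2 * (μ Set.univ).toReal)) := by
          rw [Finset.sum_const, nsmul_eq_mul, Finset.card_univ, Fintype.card_coe]
      _ ≤ _ := Finset.sum_le_sum fun q _ => (hVf q.1 q.2).2
  have hEc : 0 < (E.card : ℝ) := by
    refine lt_of_lt_of_le ?_ hcount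
    positivity
  have hEne : E.Nonempty := Finset.card_pos.1 (by exact_mod_cast hEc)
  have hEJ : ∀ z ∈ E, ∃ t ∈ P, z.2 = J t := by
    intro z hz
    obtain ⟨t, ht, h1, -⟩ := (Finset.mem_filter.1 hz).2
    exact ⟨t, ht, h1⟩
  have hY : ∀ j : Fin (2 ^ k), ∃ Y : Finset (Fin d → ℤ), (Y.card : ℝ) ≤ 8 ^ d * B ∧
        ∀ l, (l, j) ∈ E → cell A D j l ∈ Y := by
    intro j
    by_cases hex : ∃ t ∈ P, j = J t
    · obtain ⟨t, ht, rfl⟩ := hex
      refine ⟨(Z t).biUnion fun z => Fintype.piFinset fun i => Finset.Icc (z i - 4) (z i + 3),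
        ?_, ?_⟩
      · have hc2 : ((Z t).biUnion fun z => Fintype.piFinset fun i =>
            Finset.Icc (z i - 4) (z i + 3)).card ≤ (Z t).card * 8 ^ d := by
          refine Finset.card_biUnion_le.trans ?_
          rw [← smul_eq_mul, ← Finset.sum_const]
          refine Finset.sum_le_sum fun z _ => ?_
          rw [Fintype.card_piFinset]
          have : ∀ i : Fin d, (Finset.Icc (z i - 4) (z i + 3)).card = 8 := by
            intro i
            rw [Int.card_Icc]
            omega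
          rw [Finset.prod_congr rfl fun i _ => this i, Finset.prod_const, Finset.card_univ,
            Fintype.card_fin]
        have hc3 : ((((Z t).biUnion fun z => Fintype.piFinset fun i =>
            Finset.Icc (z i - 4) (z i + 3)).card : ℕ) : ℝ) ≤ ((Z t).card : ℝ) * 8 ^ d := by
          exact_mod_cast hc2
        have hc4 := mul_le_mul_of_nonneg_right (hZ t ht) (pow_nonneg (by norm_num : (0:ℝ) ≤ 8) d)
        linarith
      · intro q hq
        obtain ⟨t', ht', h1, h2⟩ := (Finset.mem_filter.1 hq).2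
        have htt : t = t' := hJinj t ht t' ht' h1
        subst htt
        obtain ⟨z, hz, hz2⟩ := hWZ t ht _ h2
        refine Finset.mem_biUnion.2 ⟨z, hz, Fintype.mem_piFinset.2 fun i => ?_⟩
        have h3 := abs_lt.1 (hz2 i)
        have h4 := hJ t ht
        have h5 := hVu q.1 q.2 i
        have h0 : v (f q.1) i = q.1 i := by rw [(hVf q.1 q.2).1]
        rw [h0] at h3
        have h6 : A q i + ((J t : ℕ) : ℝ) * D q i = (2 : ℝ) ^ k * (b (f q.1) i + t * q.1 i) -
            ((2 : ℝ) ^ k * t - ((J t : ℕ) : ℝ)) * q.1 i := by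
          simp only [A, D]
          ring
        have h7 : 0 ≤ ((2 : ℝ) ^ k * t - ((J t : ℕ) : ℝ)) * q.1 i :=
          mul_nonneg (by linarith [h4.1]) h5.1
        have h8 : ((2 : ℝ) ^ k * t - ((J t : ℕ) : ℝ)) * q.1 i ≤ 1 * 1 :=
          mul_le_mul (by linarith [h4.2]) h5.2.le h5.1 (by norm_num)
        rw [Finset.mem_Icc]
        unfold cell
        rw [h6]
        constructor
        · rw [Int.le_floor]
          push_cast
          linarith [h3.1]
        · rw [← Int.lt_add_one_iff, Int.floor_lt]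
          push_cast
          linarith [h3.2]
    · refine ⟨∅, ?_, ?_⟩
      · rw [Finset.card_empty]
        push_cast
        positivity
      · intro l hl
        obtain ⟨t, ht, h2, -⟩ := (Finset.mem_filter.1 hl).2
        exact absurd ⟨t, ht, h2⟩ hex
  have h1 := hK (2 ^ k) {u // u ∈ V} A D hfam E hEne
  choose Y hYc hYm using hY
  have h2 : ((E.image fun z => (z.2, cell A D z.2 z.1)).card : ℝ) ≤ P.card * (8 ^ d * B) := by
    have h3 : (E.image fun z => (z.2, cell A D z.2 z.1)) ⊆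
        (P.image J).biUnion fun j => (Y j).image fun y => (j, y) := by
      intro w hw
      obtain ⟨z, hz, rfl⟩ := Finset.mem_image.1 hw
      obtain ⟨t, ht, h4⟩ := hEJ z hz
      exact Finset.mem_biUnion.2 ⟨z.2, Finset.mem_image.2 ⟨t, ht, h4.symm⟩,
        Finset.mem_image.2 ⟨_, hYm z.2 z.1 hz, rfl⟩⟩
    have h4 : ((E.image fun z => (z.2, cell A D z.2 z.1)).card) ≤
        ∑ j ∈ P.image J, (Y j).card := by
      refine (Finset.card_le_card h3).trans (Finset.card_biUnion_le.trans ?_)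
      exact Finset.sum_le_sum fun j _ => Finset.card_image_le
    have h5 : ((E.image fun z => (z.2, cell A D z.2 z.1)).card : ℝ) ≤
        ∑ j ∈ P.image J, ((Y j).card : ℝ) := by
      exact_mod_cast h4
    refine h5.trans ?_
    refine (Finset.sum_le_sum fun j _ => hYc j).trans ?_
    rw [Finset.sum_const, nsmul_eq_mul]
    refine mul_le_mul_of_nonneg_right ?_ (by positivity)
    exact_mod_cast Finset.card_image_le
  have h3 : 0 < ((E.image fun z => (z.2, cell A D z.2 z.1)).card : ℝ) := by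
    exact_mod_cast (hEne.image _).card_pos
  have h4 := Real.log_le_log h3 h2
  have hBpos : (0 : ℝ) < B := by linarith
  rw [Real.log_mul hPc.ne' (by positivity), Real.log_mul (by positivity) hBpos.ne',
    Real.log_pow] at h4
  have h5 := Real.log_le_log (by positivity) hcount
  have e1 : (V.card : ℝ) * (P.card * x / (2 * (μ Set.univ).toReal)) =
      V.card * P.card / (2 * (μ Set.univ).toReal / x) := by
    field_simp
  rw [e1, Real.log_div (by positivity) (by positivity), Real.log_mul hVpos.ne' hPc.ne'] at h5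
  have h6 : Real.log ((2 ^ k : ℕ) : ℝ) = k * Real.log 2 := by
    rw [hcast, Real.log_pow]
  rw [h6, Fintype.card_coe] at h1
  have h7 := Real.log_le_log (by positivity) hVc
  have e2 : ((2 : ℝ) ^ k) ^ β * x / (4 * M) = ((2 : ℝ) ^ k) ^ β / (4 * M / x) := by
    field_simp
  rw [e2, Real.log_div (by positivity) (by positivity), Real.log_rpow h2k, Real.log_pow] at h7
  exact conq_num hd0 hc h5 h1 h4 h7

end Pool.Agent.H245.FXQ
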