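import Pool.Agent.H951.FX.Stm

/-!
# Project FX, part 2: the bound from the tube inequality for sets of directions

If the moment bound `TubeB d c` for tubes holds, then for laws of the slopes with a Frostman
condition of exponent `β` the exceptional heights form a set of dimension at most
`1 - (β - c s)/d`.  (For `β = d` this is `c s / d`, proved in `KS/Exc3.lean`, `EA`.)
-/

set_option autoImplicit false

open MeasureTheory
open scoped Classical ENNReal NNReal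

namespace Pool.Agent.H951.FX

open Pool.Agent.H951.FH Pool.Agent.W605.HD Pool.Agent.W46.HD Pool.Agent.Y254HK

/-- The counting inequality for incidences, with the number of the lines. -/
def CntQ (d : ℕ) (c : ℝ) : Prop :=
  ∃ K : ℝ, ∀ (n : ℕ) (Ω : Type) [Fintype Ω] (A D : Ω → Fin d → ℝ), IsFam n D →
    ∀ E : Finset (Ω × Fin n), E.Nonempty →
      Real.log E.card ≤ K + d / (d + c) * Real.log n +
        (d + c - 1) / (d + c) * Real.log (Fintype.card Ω) + c / (d + c) *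
          Real.log ((E.image fun z => (z.2, cell A D z.2 z.1)).card)

/-- FX-CNTQ.  Prove `theorem t_CNTQ : S_CNTQ`.

This is `cnt_sep` in `KS/Cnt.lean` and `cnt_all` in `KS/CntB.lean`: copy both proofs.  In `cnt_sep`
the number of lines is bounded by `hG0 : log (card Ω) ≤ d (1 + log n)` only in the last lines;
leave `(d + c - 1) / (d + c) * log (card Ω)` as it is: the coefficient of `log n` becomes
`(d + 1) - d^2/(d+c) - c (d+1)/(d+c) = d/(d+c)`.  In `cnt_all` the family is replaced by a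
subfamily (a colour class), whose cardinality is at most `card Ω` (and positive, so that the
logarithms are monotone; `(d + c - 1) / (d + c) ≥ 0`). -/
def S_CNTQ : Prop := ∀ (d : ℕ) (c : ℝ), 1 ≤ d → 0 < c → Pool.Agent.Y249.AC.TubeB d c → CntQ d c

/-- FX-CONQ.  Prove `theorem t_CONQ : S_SLB → S_CONQ`.

Compare `con1` in `KS/Sep.lean` and the last part of `rep` in `KS/Rep.lean`.  Take `V`, `f` from
`S_SLB`; let `n = 2^k`, `m0 = (μ univ).toReal > 0`, `Λ = {u // u ∈ V}`, `A u i = 2^k * b (f u) i`,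
`D u = u` (`IsFam (2^k) D`: the cubes `Cb (k, p)` contain at most one point of `V`), and
`E = {(u, j) : Λ × Fin (2^k) | ∃ t ∈ P, j = ⌊2^k t⌋ ∧ f u ∈ W t}`.  Since `P` is `2^(-k)`-separated,
`t ↦ ⌊2^k t⌋` is injective on `P`, so `E.card ≥ V.card * P.card * x / (2 m0)`; and the number of
cells is at most `P.card * 8^d * B` (as in `rep`: at the height `j` of `t` the cell of the line
is within `4` of some `z ∈ Z t`).  `CntQ` gives
`log V.card + d log P.card ≤ (d+c) K + (d+c) log (2 m0 / x) + d log n + c log (8^d B)`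
after multiplication by `d + c`, and `V.card ≥ n^β x / (4 M)`.  Here `C0 = (d+c)/d K + c log 8`. -/
def S_CONQ : Prop := ∀ (d : ℕ) (c : ℝ), 1 ≤ d → 0 < c → CntQ d c → ∃ C0 : ℝ,
  ∀ (β : ℝ) (k : ℕ) (Ω : Type)
  [MeasurableSpace Ω] (μ : Measure Ω) [IsFiniteMeasure μ] (b v : Ω → Fin d → ℝ) (M x B : ℝ)
  (P : Finset ℝ) (Z : ℝ → Finset (Fin d → ℤ)) (W : ℝ → Set Ω), 0 < β →
  Measurable v → (∀ ω i, 0 ≤ v ω i ∧ v ω i < 1) → 0 < M → 0 < x → 1 ≤ B → CellB μ v M β →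
  P.Nonempty → (∀ t ∈ P, 0 ≤ t ∧ t < 1) →
  (∀ t ∈ P, ∀ t' ∈ P, t ≠ t' → 1 / (2 : ℝ) ^ k ≤ |t - t'|) →
  (∀ t ∈ P, ((Z t).card : ℝ) ≤ B) → (∀ t ∈ P, MeasurableSet (W t)) →
  (∀ t ∈ P, ENNReal.ofReal x ≤ μ (W t)) →
  (∀ t ∈ P, ∀ ω ∈ W t, ∃ z ∈ Z t, ∀ i, |(2 : ℝ) ^ k * (b ω i + t * v ω i) - z i| < 3) →
  Real.log P.card ≤ C0 + (1 - β / d) * (k * Real.log 2) + (c / d) * Real.log B +
    ((d + c) / d) * Real.log (2 * (μ Set.univ).toReal / x) + (1 / d) * Real.log (4 * M / x)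

/-- FX-EAB.  Prove `theorem t_EAB : S_CONQ → S_EAB`.

Compare `sepA` in `KS/Exc2.lean` and `EA` in `KS/Exc3.lean`: `dim_cover` with the sets
`GG μ b v α δ (exp (-ε)) k`, `ζ = 1/2` and
`Γ = exp ((1 - β/d) log 2 + (c/d) α log 2 + ((d+c+1)/d) ε)`.  The cell condition `CellB` is a
hypothesis here, so only the second half of `setup` (`KS/Exc2.lean`; `cov_meas`, `lev`) is needed,
with `μ' = μ` (see also `EB` adapted by the board in `h951_FX_EBB_done.lean`). -/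
def S_EAB : Prop := ∀ (d : ℕ) (c : ℝ), 1 ≤ d → 0 < c → CntQ d c → ∀ (β : ℝ) (Ω : Type)
  [MeasurableSpace Ω] (μ : Measure Ω)
  [IsFiniteMeasure μ] (b v : Ω → Fin d → ℝ) (M : ℝ) (α : ℝ≥0) (τ0 δ : ℝ), 0 < β →
  Measurable b → Measurable v → (∀ ω i, 0 ≤ v ω i ∧ v ω i < 1) → 0 < M → CellB μ v M β →
  1 - (β - c * (α : ℝ)) / d < τ0 → 0 ≤ τ0 → 0 < δ →
  dimH {τ : ℝ | τ ∈ Set.Ico (0 : ℝ) 1 ∧ ∃ A : Set (Fin d → ℝ), dimH A < α ∧
    ENNReal.ofReal δ < μ {ω | (fun i => b ω i + τ * v ω i) ∈ A}} ≤ ENNReal.ofReal τ0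

/-- FX-E3Q.  Prove `theorem t_E3Q : S_EAB → S_E3Q`.

Copy `h951_FX_E3B_done.lean` (by helper736; proof of `S_EBB → S_ECB → S_E3B`) with the single
admissible bound `AdmQ := 1 - (β - c α)/d < τ0 ∧ 0 ≤ τ0` in place of `AdmB`.  In the last step
take `τ0 = 1 - (β - c s)/d` if this is `≥ 0`; if it is negative, then all `τ0 > 0` are admissible
and the dimension is zero. -/
def S_E3Q : Prop := ∀ (d : ℕ) (c : ℝ), 1 ≤ d → 0 < c → CntQ d c → ∀ (β : ℝ) (Ω : Type)
  [MeasurableSpace Ω] (μ : Measure Ω)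
  [IsFiniteMeasure μ] (b v : Ω → Fin d → ℝ) (C s : ℝ), 0 < β → Measurable b → Measurable v →
  0 < C → (∀ (u : Fin d → ℝ) (r : ℝ), 0 < r →
    μ {ω | v ω ∈ Metric.closedBall u r} ≤ ENNReal.ofReal (C * r ^ β)) →
  dimH {t : ℝ | ∃ A : Set (Fin d → ℝ), dimH A < ENNReal.ofReal s ∧
    μ {ω | (fun i => b ω i + t * v ω i) ∈ A} ≠ 0} ≤ ENNReal.ofReal (1 - (β - c * s) / d)

end Pool.Agent.H951.FX
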