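import Pool.Agent.H951.FX.Dir
import Pool.Agent.H951.FX.StmQ

/-!
# Exceptional slices: all directions outside a set of dimension `β`, both bounds
-/

set_option autoImplicit false
set_option maxHeartbeats 1000000

open MeasureTheory Filter Topology
open scoped Classical ENNReal NNReal

namespace Pool.Agent.H951.FX

open Pool.Agent.W605.HD Pool.Agent.Y674.HK Pool.Agent.H951.KS

theorem limit_aff {x : ℝ≥0∞} {β c s d : ℝ}
    (h : ∀ m : ℕ, x ≤ ENNReal.ofReal (1 - (β - (c + 1 / ((m : ℝ) + 1)) * s) / d)) :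
    x ≤ ENNReal.ofReal (1 - (β - c * s) / d) := by
  have h1 : Tendsto (fun m : ℕ => 1 - (β - (c + 1 / ((m : ℝ) + 1)) * s) / d) atTop
      (𝓝 (1 - (β - (c + 0) * s) / d)) :=
    ((((tendsto_const_nhds.add tendsto_one_div_add_atTop_nhds_zero_nat).mul_const s).const_sub
      β).div_const d).const_sub 1
  rw [add_zero] at h1
  exact ge_of_tendsto' (ENNReal.tendsto_ofReal h1) h

theorem M1Q (hE : S_E3Q) (d : ℕ) (hd : 1 ≤ d) (c : ℝ) (hc : 0 < c) (hT : CntQ d c) (β : ℝ)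
    (hβ : 0 < β) (K : Set (EuclideanSpace ℝ (Fin (d + 1)))) (hK : IsClosed K)
    (j : ℚ × (ℕ × ℕ))
    (L : EuclideanSpace ℝ (Fin (d + 1)) ≃ₗᵢ[ℝ] EuclideanSpace ℝ (Fin (d + 1))) (s : ℝ)
    (hdim : ENNReal.ofReal β < dimH (DD d K j)) :
    dimH (TXH d K j.1 L (UU d j.2) s) ≤ ENNReal.ofReal (1 - (β - c * s) / d) := by
  rcases (TXH d K j.1 L (UU d j.2) s).eq_empty_or_nonempty with he | ⟨t0, ht0⟩
  · rw [he, dimH_empty]
    exact zero_le
  obtain ⟨X, hX, hXL⟩ := T_sub d K hK j.1 (UU d j.2) (UU_compact d j.2) L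
  obtain ⟨m, hm1, hm2, C, hC, hm3⟩ := Pool.Agent.H225.Frost.frostman (DD d K j)
    (DD_compact d K hK j) β hβ hdim
  have hVm : Measurable fun f => sl d (L f) := (measurable_sl d).comp L.continuous.measurable
  obtain ⟨C', hC', hslo⟩ := slo d β C m L hC hm3 (by
    refine measure_mono_null ?_ hm2
    intro f hf hfD
    refine hf ⟨mem_sphere_zero_iff_norm.1 hfD.2, fun h0 => ?_⟩
    obtain ⟨z, hz, rfl⟩ := hfD.1
    have h1 := (ht0.1 z hz.1).1
    rw [h0, mul_zero, mul_zero] at h1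
    exact lt_irrefl _ h1)
  have h1 := hE d c hd hc hT β _ m X (fun f => sl d (L f)) C' s hβ hX hVm hC' hslo
  refine (dimH_mono ?_).trans h1
  rintro t ⟨ht, hdim⟩
  refine ⟨slice d (L '' K) t, hdim, fun h0 => ?_⟩
  have h2 : m Set.univ = 0 := by
    refine measure_mono_null ?_ (measure_union_null h0 hm2)
    intro f _
    by_cases hf : f ∈ DD d K j
    · exact Or.inl (hXL t ht f hf.1)
    · exact Or.inr hf
  rw [measure_univ] at h2
  exact one_ne_zero h2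

/-- all directions outside a set of dimension `β`, all segments, all directions of the slices -/
theorem M2Q (hE : S_E3Q) (d : ℕ) (hd : 1 ≤ d) (c : ℝ) (hc : 0 < c)
    (hT : ∀ c' : ℝ, c < c' → CntQ d c') (β : ℝ) (hβ : 1 ≤ β)
    (K : Set (EuclideanSpace ℝ (Fin (d + 1)))) (hK : IsClosed K) :
    dimH {e : EuclideanSpace ℝ (Fin (d + 1)) | ‖e‖ = 1 ∧
      ¬ ∀ (a : EuclideanSpace ℝ (Fin (d + 1))) (r : ℝ), segment ℝ a (a + r • e) ⊆ K →
        ∀ ν : EuclideanSpace ℝ (Fin (d + 1)), inner ℝ e ν ≠ 0 → ∀ s : ℝ,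
        dimH {x ∈ segment ℝ a (a + r • e) | dimH (K ∩ {y | inner ℝ y ν = inner ℝ x ν}) <
          ENNReal.ofReal s} ≤ ENNReal.ofReal (min (1 - (β - c * s) / d) (s - (β - 1) / 2)) ∧
        (2 * s ≤ β → dimH {x ∈ segment ℝ a (a + r • e) |
          dimH (K ∩ {y | inner ℝ y ν = inner ℝ x ν}) < ENNReal.ofReal s} = 0)} ≤
      ENNReal.ofReal β := by
  have hN : dimH (⋃ j : ℚ × (ℕ × ℕ), ⋃ _ : dimH (DD d K j) ≤ ENNReal.ofReal β, DD d K j) ≤
      ENNReal.ofReal β := by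
    rw [dimH_iUnion]
    refine iSup_le fun j => ?_
    rw [dimH_iUnion]
    exact iSup_le fun hj => hj
  refine (dimH_mono ?_).trans hN
  rintro e ⟨he1, he⟩
  by_contra hcone
  refine he ?_
  intro a r hseg ν hν s
  have hν0 : ν ≠ 0 := by
    rintro rfl
    exact hν (inner_zero_right _)
  obtain ⟨L, ρ, hρ, hL⟩ := exists_rot2 d ν hν0
  have he0 : (L e) 0 ≠ 0 := by
    rw [hL]
    exact mul_ne_zero hρ hν
  obtain ⟨ln, κ, hln, hcov⟩ := cover_lemma d K e a r hseg L he0 s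
  have hcov2 : {x ∈ segment ℝ a (a + r • e) |
      dimH (K ∩ {y | inner ℝ y ν = inner ℝ x ν}) < ENNReal.ofReal s} ⊆
      {a, a + r • e} ∪ ⋃ j : ℚ × (ℕ × ℕ), ⋃ _ : e ∈ Prod.snd '' SG d K j.1 (UU d j.2),
          ln '' TXH d K j.1 L (UU d j.2) s := by
    refine Set.Subset.trans ?_ hcov
    rintro x ⟨hx, hdim⟩
    exact ⟨hx, lt_of_le_of_lt (slice_dim d K L ν ρ hρ hL x) hdim⟩
  have hfin : dimH ({a, a + r • e} : Set (EuclideanSpace ℝ (Fin (d + 1)))) = 0 :=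
    (Set.toFinite _).dimH_zero
  have hbig : ∀ j : ℚ × (ℕ × ℕ), e ∈ Prod.snd '' SG d K j.1 (UU d j.2) →
      ENNReal.ofReal β < dimH (DD d K j) := by
    intro j hj
    by_contra hle
    exact hcone (Set.mem_iUnion₂.2 ⟨j, not_lt.1 hle, hj, mem_sphere_zero_iff_norm.2 he1⟩)
  have hgen : ∀ B : ℝ≥0∞, (∀ j : ℚ × (ℕ × ℕ), e ∈ Prod.snd '' SG d K j.1 (UU d j.2) →
      dimH (TXH d K j.1 L (UU d j.2) s) ≤ B) →
      dimH {x ∈ segment ℝ a (a + r • e) | dimH (K ∩ {y | inner ℝ y ν = inner ℝ x ν}) <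
        ENNReal.ofReal s} ≤ B := by
    intro B hB
    refine (dimH_mono hcov2).trans ?_
    rw [dimH_union, hfin]
    refine max_le zero_le ?_
    rw [dimH_iUnion]
    refine iSup_le fun j => ?_
    rw [dimH_iUnion]
    refine iSup_le fun hj => ?_
    exact (hln.dimH_image_le _).trans (hB j hj)
  refine ⟨?_, fun hs => ?_⟩
  · rw [ENNReal.ofReal_min]
    refine le_min (limit_aff fun m => ?_)
      (hgen _ fun j hj => (M1 d β hβ K hK j L s (hbig j hj)).1)
    have hm : (0 : ℝ) < 1 / ((m : ℝ) + 1) := by positivity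
    exact hgen _ fun j hj => M1Q hE d hd (c + 1 / ((m : ℝ) + 1)) (by linarith)
      (hT _ (by linarith)) β (by linarith) K hK j L s (hbig j hj)
  · exact le_antisymm (hgen 0 fun j hj =>
      ((M1 d β hβ K hK j L s (hbig j hj)).2 hs).le) zero_le

end Pool.Agent.H951.FX
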