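import Pool.Agent.H951.FX.StmQ
import Pool.Agent.H951.KS.Exc3

/-!
# FX-EAB: the dimension of the exceptional heights, from the counting inequality

After `sepA` (module KS.Exc2), `EA` (module KS.Exc3) and `setupB` (module FX.EBB, by helper32).
-/

set_option autoImplicit false
set_option maxHeartbeats 1000000

open MeasureTheory Filter Topology
open scoped Classical ENNReal NNReal

namespace Pool.Agent.H75.FXQ

open Pool.Agent.W605.HD Pool.Agent.W46.HD Pool.Agent.Y254HK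
open Pool.Agent.H951.FH Pool.Agent.H951.FX Pool.Agent.H951.KS

theorem setupB {d : ℕ} {Ω : Type} [MeasurableSpace Ω] (μ : Measure Ω) [IsFiniteMeasure μ]
    (b v : Ω → Fin d → ℝ) (α : ℝ≥0) (δ : ℝ) (hδ : 0 < δ) (ρ : ℝ) (hρ0 : 0 < ρ) (hρ1 : ρ < 1)
    (k0 : ℕ) (τ : ℝ) (hτ : τ ∈ {τ : ℝ | τ ∈ Set.Ico (0 : ℝ) 1 ∧ ∃ A : Set (Fin d → ℝ), dimH A < α ∧
      ENNReal.ofReal δ < μ {ω | (fun i => b ω i + τ * v ω i) ∈ A}}) :
    ∃ k, k0 ≤ k ∧ τ ∈ GG μ b v α δ ρ k := by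
  obtain ⟨hτ, A, hA, hμ⟩ := hτ
  obtain ⟨C, hC1, hC2⟩ := cov_meas μ (fun ω i => b ω i + τ * v ω i) A α hA k0
    (ENNReal.ofReal δ) hμ
  have hρ : 0 < 1 - ρ := by linarith
  obtain ⟨k, hk, Z, hZ1, hZ2⟩ := lev μ (fun ω i => b ω i + τ * v ω i) α k0 C hC1
    (δ * (1 - ρ) / 4) ρ (by positivity) hρ0.le hρ1 (by
      have e1 : δ * (1 - ρ) / 4 / (1 - ρ) = δ / 4 := by
        field_simp
      rw [e1]
      exact (ENNReal.ofReal_le_ofReal (by linarith)).trans_lt hC2)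
  exact ⟨k, hk, hτ, Z, hZ1, hZ2⟩

/-- the size of separated sets, from the conclusion of `S_CONQ` -/
theorem sepQ {d : ℕ} (hd : 1 ≤ d) {c β C0 : ℝ} (hβ : 0 < β)
    {Ω : Type} [MeasurableSpace Ω] (μ : Measure Ω) [IsFiniteMeasure μ] (b v : Ω → Fin d → ℝ)
    (hb : Measurable b) (hv : Measurable v) (hv1 : ∀ ω i, 0 ≤ v ω i ∧ v ω i < 1)
    (M : ℝ) (hM : 0 < M) (hQ : CellB μ v M β)
    (hC : ∀ (k : ℕ) (x B : ℝ)
      (P : Finset ℝ) (Z : ℝ → Finset (Fin d → ℤ)) (W : ℝ → Set Ω),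
      0 < x → 1 ≤ B →
      P.Nonempty → (∀ t ∈ P, 0 ≤ t ∧ t < 1) →
      (∀ t ∈ P, ∀ t' ∈ P, t ≠ t' → 1 / (2 : ℝ) ^ k ≤ |t - t'|) →
      (∀ t ∈ P, ((Z t).card : ℝ) ≤ B) → (∀ t ∈ P, MeasurableSet (W t)) →
      (∀ t ∈ P, ENNReal.ofReal x ≤ μ (W t)) →
      (∀ t ∈ P, ∀ ω ∈ W t, ∃ z ∈ Z t, ∀ i, |(2 : ℝ) ^ k * (b ω i + t * v ω i) - z i| < 3) →
      Real.log P.card ≤ C0 + (1 - β / d) * (k * Real.log 2) + (c / d) * Real.log B +
        ((d + c) / d) * Real.log (2 * (μ Set.univ).toReal / x) + (1 / d) * Real.log (4 * M / x))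
    (α : ℝ) (hα : 0 ≤ α) (δ ρ : ℝ) (hδ : 0 < δ) (hρ0 : 0 < ρ) (hρ1 : ρ < 1) (k : ℕ)
    (P : Finset ℝ) (hP : (P : Set ℝ) ⊆ GG μ b v α δ ρ k)
    (hsep : ∀ t ∈ P, ∀ t' ∈ P, t ≠ t' → (1 / 2 : ℝ) ^ k ≤ |t - t'|) :
    (P.card : ℝ) ≤ Real.exp (C0 + (c / d) * (α * Real.log 2) +
        ((d + c) / d) * (Real.log (2 * (μ Set.univ).toReal) - Real.log (δ * (1 - ρ) / 4)) +
        (1 / d) * (Real.log (4 * M) - Real.log (δ * (1 - ρ) / 4))) *
      Real.exp ((1 - β / d) * Real.log 2 + (c / d) * (α * Real.log 2) -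
        ((d + c + 1) / d) * Real.log ρ) ^ k := by
  rcases P.eq_empty_or_nonempty with rfl | hPne
  · rw [Finset.card_empty]
    push_cast
    positivity
  have hd0 : (0 : ℝ) < d := by exact_mod_cast hd
  have hρ : 0 < 1 - ρ := by linarith
  have hex : ∀ t : ℝ, ∃ Z : Finset (Fin d → ℤ), t ∈ P → (Z.card : ℝ) ≤ (2 : ℝ) ^ (α * (k + 1)) ∧
      ENNReal.ofReal (δ * (1 - ρ) / 4 * ρ ^ k) ≤
        μ {ω | ∃ z ∈ Z, ∀ i, |(2 : ℝ) ^ k * (b ω i + t * v ω i) - z i| < 3} := by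
    intro t
    by_cases ht : t ∈ P
    · obtain ⟨-, Z, hZ1, hZ2⟩ := hP ht
      exact ⟨Z, fun _ => ⟨hZ1, hZ2⟩⟩
    · exact ⟨∅, fun h => absurd h ht⟩
  choose Z hZ using hex
  have hB : (1 : ℝ) ≤ (2 : ℝ) ^ (α * (k + 1)) :=
    Real.one_le_rpow (by norm_num) (by positivity)
  have hx0 : 0 < δ * (1 - ρ) / 4 := by positivity
  have hρk : 0 < ρ ^ k := by positivity
  have hx : 0 < δ * (1 - ρ) / 4 * ρ ^ k := by positivity
  have h1 := hC k (δ * (1 - ρ) / 4 * ρ ^ k)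
    ((2 : ℝ) ^ (α * (k + 1))) P Z
    (fun t => {ω | ∃ z ∈ Z t, ∀ i, |(2 : ℝ) ^ k * (b ω i + t * v ω i) - z i| < 3}) hx hB
    hPne (fun t ht => (hP ht).1)
    (fun t ht t' ht' hne => by
      have := hsep t ht t' ht' hne
      rwa [one_div_pow] at this)
    (fun t ht => (hZ t ht).1)
    (fun t _ => Wmeas b v hb hv k t (Z t)) (fun t ht => (hZ t ht).2) (fun t _ ω hω => hω)
  -- the total mass is positive
  have hm : 0 < (μ Set.univ).toReal := by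
    obtain ⟨t, ht⟩ := hPne
    have h2 := (hZ t ht).2.trans (measure_mono (Set.subset_univ _))
    rw [ENNReal.toReal_pos_iff]
    exact ⟨lt_of_lt_of_le (ENNReal.ofReal_pos.2 hx) h2, measure_lt_top μ _⟩
  have hPc : 0 < (P.card : ℝ) := by exact_mod_cast hPne.card_pos
  rw [← Real.exp_nat_mul, ← Real.exp_add, ← Real.log_le_iff_le_exp hPc]
  refine h1.trans (le_of_eq ?_)
  rw [Real.log_div (by positivity) hx.ne', Real.log_div (by positivity) hx.ne',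
    Real.log_mul hx0.ne' hρk.ne', Real.log_pow, Real.log_rpow (by norm_num)]
  ring

theorem t_EAB : S_CONQ → S_EAB := by
  intro hCQ d c hd hc hT β Ω _ μ _ b v M α τ0 δ hβ hb hv hv1 hM hQ hτ hτ0 hδ
  obtain ⟨C0, hC0⟩ := hCQ d c hd hc hT
  have hd0 : (0 : ℝ) < d := by exact_mod_cast hd
  have hα0 : (0 : ℝ) ≤ α := α.2
  have hlog : 0 < Real.log 2 := Real.log_pos (by norm_num)
  have hgap : 0 < τ0 - (1 - (β - c * α) / d) := by linarith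
  obtain ⟨ε, hε⟩ : ∃ ε : ℝ, ε = (τ0 - (1 - (β - c * α) / d)) * Real.log 2 *
    (d / (d + c + 1)) / 2 := ⟨_, rfl⟩
  have hε0 : 0 < ε := by rw [hε]; positivity
  have hρ1 : Real.exp (-ε) < 1 := Real.exp_lt_one_iff.2 (by linarith)
  refine dim_cover _ (GG μ b v α δ (Real.exp (-ε))) (1 / 2) _ _ τ0 (by norm_num) (by norm_num)
    (Real.exp_pos _).le (Real.exp_pos _).le hτ0 ?_
    (fun k0 τ hτ' => setupB μ b v α δ hδ (Real.exp (-ε)) (Real.exp_pos _) hρ1 k0 τ hτ') 0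
    (fun k _ P hP hsep => sepQ (c := c) (C0 := C0) hd hβ μ b v hb hv hv1 M hM hQ
      (fun k x B P Z W hx hB hP1 hP2 hP3 hP4 hP5 hP6 hP7 =>
        hC0 β k Ω μ b v M x B P Z W hβ hv hv1 hM hx hB hQ hP1 hP2 hP3 hP4 hP5 hP6 hP7)
      α hα0 δ (Real.exp (-ε)) hδ (Real.exp_pos _) hρ1 k P hP hsep)
  rw [Real.log_exp, Real.rpow_def_of_pos (by norm_num), ← Real.exp_add]
  refine Real.exp_lt_one_iff.2 ?_
  have h1 : Real.log (1 / 2) = -Real.log 2 := by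
    rw [one_div, Real.log_inv]
  rw [h1]
  have h2 : ((d + c + 1) / d) * ε = (τ0 - (1 - (β - c * α) / d)) * Real.log 2 / 2 := by
    rw [hε]
    field_simp
  have h3 : (1 - β / d) * Real.log 2 + c / d * (α * Real.log 2) - (d + c + 1) / d * -ε +
      -Real.log 2 * τ0 =
      ((d + c + 1) / d) * ε - (τ0 - (1 - (β - c * α) / d)) * Real.log 2 := by
    ring
  rw [h3, h2]
  have h4 : 0 < (τ0 - (1 - (β - c * α) / d)) * Real.log 2 := by positivity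
  linarith

end Pool.Agent.H75.FXQ
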