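import Pool.Agent.H951.KS.Cond
import Pool.Agent.H951.FX.CNTQ
import Pool.Agent.H951.FX.CONQ
import Pool.Agent.H951.FX.EAB
import Pool.Agent.H951.FX.E3Q
import Pool.Agent.H951.FX.DirQ

/-!
# The admissible coefficients, and the assembly
-/

set_option autoImplicit false
set_option maxHeartbeats 1000000

open MeasureTheory Filter Topology
open scoped Classical ENNReal NNReal

namespace Pool.Agent.H951.FX

/-- the admissible coefficients -/
theorem cntq_cond {n : ℕ} (hn : 3 ≤ n) {c : ℝ} (hc1 : 1 ≤ c)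
    (h : 2 * ((n : ℝ) - 1) / n ≤ c ∨ (10 ≤ n ∧ 0 ≤ c ^ 3 - 4 * c + 2) ∨
      (15 ≤ n ∧ 0 ≤ ((n : ℝ) - 1) * (c ^ 3 - 4 * c + 2) + c * (3 * c - 1 - c ^ 2))) :
    ∀ c' : ℝ, c < c' → CntQ (n - 1) c' := by
  intro c' hcc
  have e1 : (((n - 1 : ℕ)) : ℝ) = (n : ℝ) - 1 := by
    rw [Nat.cast_sub (by omega)]
    norm_num
  refine Pool.Agent.H404.FXQ.t_CNTQ (n - 1) c' (by omega) (by linarith) ?_
  rcases h with h | ⟨hn10, h⟩ | ⟨hn15, h⟩
  · refine Pool.Agent.Y249.AC.tubeB_wolff (by omega) ?_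
    rw [e1]
    have e2 : 2 * ((n : ℝ) - 1) / ((n : ℝ) - 1 + 1) = 2 * ((n : ℝ) - 1) / n := by
      rw [sub_add_cancel]
    rw [e2]
    linarith
  · refine Pool.Agent.Y249.AC.tubeB_arith (by omega) (by linarith) ?_
    have h1 : 4 < c' ^ 2 + c * c' + c ^ 2 := by nlinarith
    nlinarith [mul_pos (sub_pos.2 hcc) (sub_pos.2 h1)]
  · have hd : (14 : ℝ) ≤ (n : ℝ) - 1 := by
      have : (15 : ℝ) ≤ n := by exact_mod_cast hn15
      linarith
    have hc16 : (8 / 5 : ℝ) < c := by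
      by_contra hle
      rw [not_lt] at hle
      have h2 : c ^ 3 - 4 * c + 2 ≤ -(3 / 10) := by
        nlinarith [mul_nonneg (sub_nonneg.2 hc1) (sub_nonneg.2 hle),
          mul_nonneg (mul_nonneg (sub_nonneg.2 hc1) (sub_nonneg.2 hle)) (by linarith : 0 ≤ c)]
      have h3 : c * (3 * c - 1 - c ^ 2) ≤ 2 := by
        nlinarith [mul_nonneg (sub_nonneg.2 hc1) (sub_nonneg.2 hle),
          mul_nonneg (mul_nonneg (sub_nonneg.2 hc1) (sub_nonneg.2 hle)) (by linarith : 0 ≤ c)]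
      nlinarith
    have hg := Pool.Agent.Y254HK.gg_pos (d := n - 1) (by omega) hc1 (c := c) (by
      unfold Pool.Agent.Y254HK.gg
      rw [e1]
      exact h) hcc
    unfold Pool.Agent.Y254HK.gg at hg
    refine Pool.Agent.Y249.AC.tubeB_mix (by omega) (x := 1) ⟨zero_le_one, le_rfl, by linarith,
      ?_, ?_⟩
    · rw [one_mul]
      exact hg
    · rw [e1]
      have hc' : (8 / 5 : ℝ) < c' := by linarith
      have h4 : 14 * (c' ^ 2 - 1) ≤ ((n : ℝ) - 1) * (c' ^ 2 - 1) :=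
        mul_le_mul_of_nonneg_right hd (by nlinarith)
      nlinarith

theorem e3q : S_E3Q :=
  Pool.Agent.H261.FXQ.t_E3Q (Pool.Agent.H75.FXQ.t_EAB (Pool.Agent.H245.FXQ.t_CONQ
    (Pool.Agent.H394.FX.t_SLB Pool.Agent.H80.FHB.t_FROD)))

end Pool.Agent.H951.FX
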