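import Pool.Agent.H951.FX.Stm

/-!
# Project FX: all slopes and heights
-/

set_option autoImplicit false
set_option maxHeartbeats 1000000

open MeasureTheory Filter Topology
open scoped Classical ENNReal NNReal

namespace Pool.Agent.H736.FX

open Pool.Agent.H951.FH Pool.Agent.H951.FX Pool.Agent.H951.KS

/-- admissible bounds for the dimension of the exceptional set -/
def AdmB (β α τ0 : ℝ) : Prop :=
  (2 * α < β ∧ 0 < τ0) ∨ (α - (β - 1) / 2 < τ0 ∧ 0 < τ0)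

theorem F0 (hEB : S_EBB) (hEC : S_ECB) (d : ℕ) (hd : 1 ≤ d) (β : ℝ) (hβ : 1 ≤ β) (Ω : Type)
    [MeasurableSpace Ω] (μ : Measure Ω) [IsFiniteMeasure μ]
    (b v : Ω → Fin d → ℝ) (hb : Measurable b) (hv : Measurable v)
    (hv1 : ∀ ω i, 0 ≤ v ω i ∧ v ω i < 1) (M : ℝ) (hM : 0 < M) (hc : CellB μ v M β)
    (α : ℝ≥0) (τ0 : ℝ) (hτ : AdmB β α τ0) :
    dimH {τ : ℝ | τ ∈ Set.Ico (0 : ℝ) 1 ∧ ∃ A : Set (Fin d → ℝ), dimH A < α ∧
      μ {ω | (fun i => b ω i + τ * v ω i) ∈ A} ≠ 0} ≤ ENNReal.ofReal τ0 := by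
  have hcov : {τ : ℝ | τ ∈ Set.Ico (0 : ℝ) 1 ∧ ∃ A : Set (Fin d → ℝ), dimH A < α ∧
      μ {ω | (fun i => b ω i + τ * v ω i) ∈ A} ≠ 0} ⊆
      ⋃ q : ℕ, {τ : ℝ | τ ∈ Set.Ico (0 : ℝ) 1 ∧ ∃ A : Set (Fin d → ℝ), dimH A < α ∧
        ENNReal.ofReal (1 / ((q : ℝ) + 1)) < μ {ω | (fun i => b ω i + τ * v ω i) ∈ A}} := by
    rintro τ ⟨hτ, A, hA, h0⟩
    have hpos := ENNReal.toReal_pos h0 (measure_ne_top μ _)
    obtain ⟨q, hq⟩ := exists_nat_one_div_lt hpos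
    refine Set.mem_iUnion.2 ⟨q, hτ, A, hA, ?_⟩
    exact ((ENNReal.ofReal_lt_ofReal_iff hpos).2 hq).trans_le ENNReal.ofReal_toReal_le
  refine (dimH_mono hcov).trans ?_
  rw [dimH_iUnion]
  refine iSup_le fun q => ?_
  rcases hτ with ⟨h1, h2⟩ | ⟨h1, h2⟩
  · exact hEB d β Ω μ b v M α τ0 _ hd (by linarith) hb hv hM hc h1 h2 (by positivity)
  · exact hEC d β Ω μ b v M α τ0 _ hβ hb hv hv1 hM hc h1 h2 (by positivity)

theorem F1 (hEB : S_EBB) (hEC : S_ECB) (d : ℕ) (hd : 1 ≤ d) (β : ℝ) (hβ : 1 ≤ β) (Ω : Type)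
    [MeasurableSpace Ω] (μ : Measure Ω) [IsFiniteMeasure μ]
    (b v : Ω → Fin d → ℝ) (hb : Measurable b) (hv : Measurable v)
    (C : ℝ) (hC : 0 < C) (hfr : ∀ (u : Fin d → ℝ) (r : ℝ), 0 < r →
      μ {ω | v ω ∈ Metric.closedBall u r} ≤ ENNReal.ofReal (C * r ^ β))
    (α : ℝ≥0) (τ0 : ℝ) (hτ0 : AdmB β α τ0) :
    dimH {τ : ℝ | τ ∈ Set.Ico (0 : ℝ) 1 ∧ ∃ A : Set (Fin d → ℝ), dimH A < α ∧
      μ {ω | (fun i => b ω i + τ * v ω i) ∈ A} ≠ 0} ≤ ENNReal.ofReal τ0 := by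
  obtain ⟨w, hw⟩ : ∃ w : Ω → Fin d → ℝ, w = fun ω i => Int.fract (v ω i) := ⟨_, rfl⟩
  have hwm : Measurable w := by
    rw [hw]
    exact measurable_pi_lambda _ fun i => measurable_fract.comp ((measurable_pi_apply i).comp hv)
  have hw1 : ∀ ω i, 0 ≤ w ω i ∧ w ω i < 1 := by
    intro ω i
    rw [hw]
    exact ⟨Int.fract_nonneg _, Int.fract_lt_one _⟩
  have hGm : ∀ g : Fin d → ℤ, MeasurableSet {ω | ∀ i, ⌊v ω i⌋ = g i} := by
    intro g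
    have e : {ω | ∀ i, ⌊v ω i⌋ = g i} = ⋂ i, {ω | ⌊v ω i⌋ = g i} := by
      ext ω
      simp only [Set.mem_ofPred_eq, Set.mem_iInter]
    rw [e]
    refine MeasurableSet.iInter fun i => ?_
    exact (Int.measurable_floor.comp ((measurable_pi_apply i).comp hv))
      (measurableSet_singleton (g i))
  have hwv : ∀ ω i, w ω i = v ω i - ⌊v ω i⌋ := by
    intro ω i
    rw [hw]
    exact (Int.self_sub_floor _).symm
  have hcell : ∀ g : Fin d → ℤ, CellB (μ.restrict {ω | ∀ i, ⌊v ω i⌋ = g i}) w C β := by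
    intro g k q
    rw [Measure.restrict_apply' (hGm g)]
    have h2k : (0 : ℝ) < (2 : ℝ) ^ k := by positivity
    have hsub : {ω | ∀ i, ⌊(2 : ℝ) ^ k * w ω i⌋ = q i} ∩ {ω | ∀ i, ⌊v ω i⌋ = g i} ⊆
        {ω | v ω ∈ Metric.closedBall (fun i => (g i : ℝ) + (q i : ℝ) / (2 : ℝ) ^ k)
          (1 / (2 : ℝ) ^ k)} := by
      rintro ω ⟨h1, h2⟩
      change v ω ∈ Metric.closedBall _ _
      rw [Metric.mem_closedBall, dist_pi_le_iff (by positivity)]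
      intro i
      have h3 := h1 i
      have h4 := h2 i
      have h5 := hwv ω i
      rw [h4] at h5
      have h6 := Int.floor_eq_iff.1 h3
      have h7 : v ω i - ((g i : ℝ) + (q i : ℝ) / (2 : ℝ) ^ k) =
          ((2 : ℝ) ^ k * w ω i - q i) / (2 : ℝ) ^ k := by
        rw [h5]
        field_simp
        ring
      rw [Real.dist_eq, h7, abs_div, abs_of_pos h2k]
      refine div_le_div_of_nonneg_right ?_ h2k.le
      rw [abs_le]
      constructor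
      · linarith [h6.1]
      · linarith [h6.2]
    refine (measure_mono hsub).trans ((hfr _ _ (by positivity)).trans ?_)
    refine le_of_eq ?_
    congr 1
    rw [Real.div_rpow (by norm_num) h2k.le, Real.one_rpow]
    ring
  have hcov : {τ : ℝ | τ ∈ Set.Ico (0 : ℝ) 1 ∧ ∃ A : Set (Fin d → ℝ), dimH A < α ∧
      μ {ω | (fun i => b ω i + τ * v ω i) ∈ A} ≠ 0} ⊆ ⋃ g : Fin d → ℤ,
      {τ : ℝ | τ ∈ Set.Ico (0 : ℝ) 1 ∧ ∃ A : Set (Fin d → ℝ), dimH A < α ∧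
        (μ.restrict {ω | ∀ i, ⌊v ω i⌋ = g i}) {ω | (fun i => b ω i + τ * w ω i) ∈ A} ≠ 0} := by
    rintro τ ⟨hτ, A, hA, h0⟩
    have hc1 : {ω | (fun i => b ω i + τ * v ω i) ∈ A} ⊆ ⋃ g : Fin d → ℤ,
        ({ω | (fun i => b ω i + τ * v ω i) ∈ A} ∩ {ω | ∀ i, ⌊v ω i⌋ = g i}) := by
      intro ω hω
      exact Set.mem_iUnion.2 ⟨fun i => ⌊v ω i⌋, hω, fun i => rfl⟩
    obtain ⟨g, hg⟩ : ∃ g : Fin d → ℤ,
        μ ({ω | (fun i => b ω i + τ * v ω i) ∈ A} ∩ {ω | ∀ i, ⌊v ω i⌋ = g i}) ≠ 0 := by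
      by_contra hno
      push Not at hno
      exact h0 (measure_mono_null hc1 (measure_iUnion_null hno))
    refine Set.mem_iUnion.2 ⟨g, hτ,
      (fun y : Fin d → ℝ => y + fun i => -(τ * (g i : ℝ))) '' A, ?_, ?_⟩
    · have h2 := (IsometryEquiv.addRight
        (fun i : Fin d => -(τ * (g i : ℝ)))).isometry.dimH_image A
      exact lt_of_eq_of_lt h2 hA
    · rw [Measure.restrict_apply' (hGm g)]
      intro h3
      refine hg (measure_mono_null ?_ h3)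
      rintro ω ⟨h4, h5⟩
      refine ⟨⟨_, h4, ?_⟩, h5⟩
      funext i
      simp only [Pi.add_apply]
      rw [hwv ω i, h5 i]
      ring
  refine (dimH_mono hcov).trans ?_
  rw [dimH_iUnion]
  refine iSup_le fun g => ?_
  exact F0 hEB hEC d hd β hβ Ω (μ.restrict {ω | ∀ i, ⌊v ω i⌋ = g i}) b w hb hwm hw1 C hC
    (hcell g) α τ0 hτ0

theorem F2 (hEB : S_EBB) (hEC : S_ECB) (d : ℕ) (hd : 1 ≤ d) (β : ℝ) (hβ : 1 ≤ β) (Ω : Type)
    [MeasurableSpace Ω] (μ : Measure Ω) [IsFiniteMeasure μ]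
    (b v : Ω → Fin d → ℝ) (hb : Measurable b) (hv : Measurable v)
    (C : ℝ) (hC : 0 < C) (hfr : ∀ (u : Fin d → ℝ) (r : ℝ), 0 < r →
      μ {ω | v ω ∈ Metric.closedBall u r} ≤ ENNReal.ofReal (C * r ^ β))
    (α : ℝ≥0) (τ0 : ℝ) (hτ0 : AdmB β α τ0) :
    dimH {t : ℝ | ∃ A : Set (Fin d → ℝ), dimH A < α ∧
      μ {ω | (fun i => b ω i + t * v ω i) ∈ A} ≠ 0} ≤ ENNReal.ofReal τ0 := by
  have hcov : {t : ℝ | ∃ A : Set (Fin d → ℝ), dimH A < α ∧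
      μ {ω | (fun i => b ω i + t * v ω i) ∈ A} ≠ 0} ⊆ ⋃ m : ℤ,
      (IsometryEquiv.addRight ((m : ℝ))) '' {τ : ℝ | τ ∈ Set.Ico (0 : ℝ) 1 ∧
        ∃ A : Set (Fin d → ℝ), dimH A < α ∧
          μ {ω | (fun i => (fun ω i => b ω i + m * v ω i) ω i + τ * v ω i) ∈ A} ≠ 0} := by
    rintro t ⟨A, hA, h0⟩
    refine Set.mem_iUnion.2 ⟨⌊t⌋, t - ⌊t⌋, ⟨⟨?_, ?_⟩, A, hA, ?_⟩, ?_⟩
    · have := Int.floor_le t
      linarith
    · have := Int.lt_floor_add_one t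
      linarith
    · have h1 : {ω | (fun i => (fun ω i => b ω i + (⌊t⌋ : ℤ) * v ω i) ω i +
          (t - ((⌊t⌋ : ℤ) : ℝ)) * v ω i) ∈ A} = {ω | (fun i => b ω i + t * v ω i) ∈ A} := by
        ext ω
        have h2 : (fun i => (fun ω i => b ω i + (⌊t⌋ : ℤ) * v ω i) ω i +
            (t - ((⌊t⌋ : ℤ) : ℝ)) * v ω i) = fun i => b ω i + t * v ω i := by
          funext i
          ring
        change _ ∈ A ↔ _ ∈ A
        rw [h2]
      rw [h1]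
      exact h0
    · change t - ((⌊t⌋ : ℤ) : ℝ) + ((⌊t⌋ : ℤ) : ℝ) = t
      ring
  refine (dimH_mono hcov).trans ?_
  rw [dimH_iUnion]
  refine iSup_le fun m => ?_
  rw [(IsometryEquiv.addRight ((m : ℝ))).isometry.dimH_image]
  refine F1 hEB hEC d hd β hβ Ω μ _ v ?_ hv C hC hfr α τ0 hτ0
  refine measurable_pi_lambda _ fun i => ?_
  exact ((measurable_pi_apply i).comp hb).add
    (measurable_const.mul ((measurable_pi_apply i).comp hv))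

/-- The case of dimension zero: the measure is zero. -/
theorem zero_of_zero (β : ℝ) (hβ : 1 ≤ β) (Ω : Type) [MeasurableSpace Ω] (μ : Measure Ω)
    (v : Ω → Fin 0 → ℝ) (C : ℝ) (hfr : ∀ (u : Fin 0 → ℝ) (r : ℝ), 0 < r →
      μ {ω | v ω ∈ Metric.closedBall u r} ≤ ENNReal.ofReal (C * r ^ β)) (S : Set Ω) :
    μ S = 0 := by
  have h1 : ∀ r : ℝ, 0 < r → μ Set.univ ≤ ENNReal.ofReal (C * r ^ β) := by
    intro r hr
    refine le_trans (measure_mono ?_) (hfr (fun _ => 0) r hr)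
    intro ω _
    change v ω ∈ Metric.closedBall _ _
    rw [Subsingleton.elim (v ω) (fun _ => 0)]
    exact Metric.mem_closedBall_self hr.le
  have h2 : Tendsto (fun r : ℝ => ENNReal.ofReal (C * r ^ β)) (𝓝[>] 0) (𝓝 0) := by
    have h3 : Tendsto (fun r : ℝ => C * r ^ β) (𝓝[>] 0) (𝓝 (C * (0 : ℝ) ^ β)) := by
      refine Tendsto.const_mul C ?_
      exact ((Real.continuousAt_rpow_const 0 β (Or.inr (by linarith))).tendsto).mono_left
        nhdsWithin_le_nhds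
    rw [Real.zero_rpow (by linarith), mul_zero] at h3
    have h4 := ENNReal.tendsto_ofReal h3
    rwa [ENNReal.ofReal_zero] at h4
  have h5 : μ Set.univ ≤ 0 :=
    ge_of_tendsto h2 (eventually_nhdsWithin_of_forall fun r hr => h1 r hr)
  exact le_antisymm ((measure_mono (Set.subset_univ S)).trans h5) zero_le

theorem t_E3B : S_EBB → S_ECB → S_E3B := by
  intro hEB hEC d β Ω _ μ _ b v C s hβ hb hv hC hfr
  rcases Nat.eq_zero_or_pos d with hd0 | hd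
  · subst hd0
    have he : {t : ℝ | ∃ A : Set (Fin 0 → ℝ), dimH A < ENNReal.ofReal s ∧
        μ {ω | (fun i => b ω i + t * v ω i) ∈ A} ≠ 0} = ∅ := by
      rw [Set.eq_empty_iff_forall_notMem]
      rintro t ⟨A, _, h0⟩
      exact h0 (zero_of_zero β hβ Ω μ v C hfr _)
    rw [he, dimH_empty]
    exact ⟨zero_le, fun _ => rfl⟩
  have hcov : {t : ℝ | ∃ A : Set (Fin d → ℝ), dimH A < ENNReal.ofReal s ∧
      μ {ω | (fun i => b ω i + t * v ω i) ∈ A} ≠ 0} ⊆ ⋃ q : ℕ × ℕ,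
      ⋃ _ : ((((q.1 : ℝ≥0) / ((q.2 : ℝ≥0) + 1) : ℝ≥0)) : ℝ) < s,
        {t : ℝ | ∃ A : Set (Fin d → ℝ), dimH A < ((q.1 : ℝ≥0) / ((q.2 : ℝ≥0) + 1) : ℝ≥0) ∧
          μ {ω | (fun i => b ω i + t * v ω i) ∈ A} ≠ 0} := by
    rintro t ⟨A, hA1, hA2⟩
    obtain ⟨q, hq1, hq2⟩ := exists_mid _ _ hA1
    exact Set.mem_iUnion₂.2 ⟨q, hq2, A, hq1, hA2⟩
  have hgen : ∀ τ0 : ℝ, (∀ α : ℝ, 0 ≤ α → α < s → AdmB β α τ0) →
      dimH {t : ℝ | ∃ A : Set (Fin d → ℝ), dimH A < ENNReal.ofReal s ∧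
        μ {ω | (fun i => b ω i + t * v ω i) ∈ A} ≠ 0} ≤ ENNReal.ofReal τ0 := by
    intro τ0 h
    refine (dimH_mono hcov).trans ?_
    rw [dimH_iUnion]
    refine iSup_le fun q => ?_
    rw [dimH_iUnion]
    refine iSup_le fun hq => ?_
    exact F2 hEB hEC d hd β hβ Ω μ b v hb hv C hC hfr _ τ0 (h _ (NNReal.coe_nonneg _) hq)
  have hzero : 2 * s ≤ β → dimH {t : ℝ | ∃ A : Set (Fin d → ℝ), dimH A < ENNReal.ofReal s ∧
      μ {ω | (fun i => b ω i + t * v ω i) ∈ A} ≠ 0} = 0 := by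
    intro hs
    refine le_antisymm ?_ zero_le
    refine ENNReal.le_of_forall_pos_le_add fun ε hε _ => ?_
    rw [zero_add]
    have h1 := hgen (ε : ℝ) fun α hα0 hαs =>
      Or.inl ⟨by linarith, by exact_mod_cast hε⟩
    rwa [ENNReal.ofReal_coe_nnreal] at h1
  refine ⟨?_, hzero⟩
  rcases lt_or_ge 0 (s - (β - 1) / 2) with h | h
  · exact hgen _ fun α hα0 hαs => Or.inr ⟨by linarith, h⟩
  · rw [hzero (by linarith)]
    exact zero_le

end Pool.Agent.H736.FX
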