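import Pool.Agent.H951.FX.Stm
import Pool.Agent.H951.KS.Exc3

/-!
# FX-EBB: the zero-dimensional range

After `EB` in the module KS.Exc3, with the Frostman condition of exponent `β`.
-/

set_option autoImplicit false
set_option maxHeartbeats 1000000

open MeasureTheory Filter Topology
open scoped Classical ENNReal NNReal

namespace Pool.Agent.H32.FX

open Pool.Agent.W605.HD Pool.Agent.W46.HD Pool.Agent.Y254HK
open Pool.Agent.H951.FH Pool.Agent.H951.FX Pool.Agent.H951.KS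

theorem setupB {d : ℕ} {Ω : Type} [MeasurableSpace Ω] (μ : Measure Ω) [IsFiniteMeasure μ]
    (b v : Ω → Fin d → ℝ) (α : ℝ≥0) (δ : ℝ) (hδ : 0 < δ) (ρ : ℝ) (hρ0 : 0 < ρ) (hρ1 : ρ < 1)
    (k0 : ℕ) (τ : ℝ) (hτ : τ ∈ {τ : ℝ | τ ∈ Set.Ico (0 : ℝ) 1 ∧ ∃ A : Set (Fin d → ℝ), dimH A < α ∧
      ENNReal.ofReal δ < μ {ω | (fun i => b ω i + τ * v ω i) ∈ A}}) :
    ∃ k, k0 ≤ k ∧ τ ∈ GG μ b v α δ ρ k := by
  obtain ⟨hτ, A, hA, hμ⟩ := hτ
  obtain ⟨C, hC1, hC2⟩ := cov_meas μ (fun ω i => b ω i + τ * v ω i) A α hA k0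
    (ENNReal.ofReal δ) hμ
  have hρ : 0 < 1 - ρ := by linarith
  obtain ⟨k, hk, Z, hZ1, hZ2⟩ := lev μ (fun ω i => b ω i + τ * v ω i) α k0 C hC1
    (δ * (1 - ρ) / 4) ρ (by positivity) hρ0.le hρ1 (by
      have e1 : δ * (1 - ρ) / 4 / (1 - ρ) = δ / 4 := by
        field_simp
      rw [e1]
      exact (ENNReal.ofReal_le_ofReal (by linarith)).trans_lt hC2)
  exact ⟨k, hk, hτ, Z, hZ1, hZ2⟩

theorem sepBB {d : ℕ} {Ω : Type} [MeasurableSpace Ω] (μ : Measure Ω) [IsFiniteMeasure μ]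
    (b v : Ω → Fin d → ℝ) (hb : Measurable b)
    (hv : Measurable v) (M β : ℝ) (hM : 0 < M) (hQ : CellB μ v M β)
    (α : ℝ) (δ ρ : ℝ) (hδ : 0 < δ) (hρ0 : 0 < ρ) (hρ1 : ρ < 1) (k : ℕ)
    (P : Finset ℝ) (hP : (P : Set ℝ) ⊆ GG μ b v α δ ρ k) (r : ℝ) (hr : 0 < r) (hr1 : r ≤ 1)
    (hsep : ∀ t ∈ P, ∀ t' ∈ P, t ≠ t' → r ≤ |t - t'|)
    (hk : 6 * (μ Set.univ).toReal * (((2 : ℝ) ^ (α * (k + 1))) ^ 2 * (14 / r) ^ d *
      (M / ((2 : ℝ) ^ k) ^ β)) < (δ * (1 - ρ) / 4 * ρ ^ k) ^ 2) :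
    (P.card : ℝ) ≤ 3 * (μ Set.univ).toReal / (δ * (1 - ρ) / 4 * ρ ^ k) := by
  have hρ : 0 < 1 - ρ := by linarith
  by_contra hno
  rw [not_le] at hno
  have hex : ∀ t : ℝ, ∃ Z : Finset (Fin d → ℤ), t ∈ P → (Z.card : ℝ) ≤ (2 : ℝ) ^ (α * (k + 1)) ∧
      ENNReal.ofReal (δ * (1 - ρ) / 4 * ρ ^ k) ≤
        μ {ω | ∃ z ∈ Z, ∀ i, |(2 : ℝ) ^ k * (b ω i + t * v ω i) - z i| < 3} := by
    intro t
    by_cases ht : t ∈ P
    · obtain ⟨-, Z, hZ1, hZ2⟩ := hP ht
      exact ⟨Z, fun _ => ⟨hZ1, hZ2⟩⟩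
    · exact ⟨∅, fun h => absurd h ht⟩
  choose Z hZ using hex
  have hx : 0 < δ * (1 - ρ) / 4 * ρ ^ k := by positivity
  have h2k : (0 : ℝ) < (2 : ℝ) ^ k := by positivity
  have h2β : (0 : ℝ) < ((2 : ℝ) ^ k) ^ β := Real.rpow_pos_of_pos h2k β
  have h2d : (0 : ℝ) < ((2 : ℝ) ^ k) ^ d := by positivity
  have hMM : M * ((2 : ℝ) ^ k) ^ d / ((2 : ℝ) ^ k) ^ β / ((2 : ℝ) ^ k) ^ d =
      M / ((2 : ℝ) ^ k) ^ β := by
    field_simp
  have h1 := con2 (k := k) μ b v (M * ((2 : ℝ) ^ k) ^ d / ((2 : ℝ) ^ k) ^ β)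
    (δ * (1 - ρ) / 4 * ρ ^ k)
    ((2 : ℝ) ^ (α * (k + 1))) r (by positivity) hx (by positivity) hr hr1
    (fun q => by rw [hMM]; exact hQ k q) P hsep
    Z (fun t ht => (hZ t ht).1)
    (fun t => {ω | ∃ z ∈ Z t, ∀ i, |(2 : ℝ) ^ k * (b ω i + t * v ω i) - z i| < 3})
    (fun t _ => Wmeas b v hb hv k t (Z t)) (fun t ht => (hZ t ht).2) (fun t _ ω hω => hω) hno
  rw [hMM] at h1
  exact absurd h1 (not_le.2 hk)

theorem t_EBB : S_EBB := by
  intro d β Ω _ μ _ b v M α τ0 δ hd hβpos hb hv hM hQ hα hτ hδ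
  have hd0 : (1 : ℝ) ≤ d := by exact_mod_cast hd
  have hα0 : (0 : ℝ) ≤ α := α.2
  obtain ⟨h, hh⟩ : ∃ h : ℝ, h = Real.log 2 := ⟨_, rfl⟩
  have hh0 : 0 < h := by rw [hh]; exact Real.log_pos (by norm_num)
  obtain ⟨γ, hγ⟩ : ∃ γ : ℝ, γ = (β - 2 * α) / (2 * d) := ⟨_, rfl⟩
  have hγd : 2 * (γ * d) = β - 2 * α := by
    rw [hγ]
    field_simp
  have hγ0 : 0 < γ := by
    rw [hγ]
    exact div_pos (by linarith) (by linarith)
  obtain ⟨ε, hε⟩ : ∃ ε : ℝ, ε = γ * h * min τ0 1 / 4 := ⟨_, rfl⟩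
  have hmin0 : 0 < min τ0 1 := lt_min hτ one_pos
  have hε0 : 0 < ε := by rw [hε]; positivity
  have hε1 : ε < γ * h * τ0 := by
    rw [hε]
    have h1 : γ * h * min τ0 1 ≤ γ * h * τ0 := mul_le_mul_of_nonneg_left (min_le_left _ _)
      (by positivity)
    have h2 : 0 < γ * h * min τ0 1 := by positivity
    linarith
  have hε2 : 2 * ε < γ * d * h := by
    rw [hε]
    have h1 : γ * h * min τ0 1 ≤ γ * h * 1 := mul_le_mul_of_nonneg_left (min_le_right _ _)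
      (by positivity)
    have h2 : γ * h * 1 ≤ γ * h * d := mul_le_mul_of_nonneg_left hd0 (by positivity)
    have h3 : 0 < γ * h * d := by positivity
    linarith
  have hρ1 : Real.exp (-ε) < 1 := Real.exp_lt_one_iff.2 (by linarith)
  have hρ : 0 < 1 - Real.exp (-ε) := by linarith
  obtain ⟨x0, hx0⟩ : ∃ x0 : ℝ, x0 = δ * (1 - Real.exp (-ε)) / 4 := ⟨_, rfl⟩
  have hx00 : 0 < x0 := by rw [hx0]; positivity
  have hζ1 : Real.exp (-(γ * h)) < 1 := Real.exp_lt_one_iff.2 (by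
    have : 0 < γ * h := by positivity
    linarith)
  obtain ⟨κ, hκ⟩ : ∃ κ : ℝ, κ = γ * d * h - 2 * ε := ⟨_, rfl⟩
  have hκ0 : 0 < κ := by rw [hκ]; linarith
  obtain ⟨C, hC⟩ : ∃ C : ℝ, C = 6 * (μ Set.univ).toReal *
    (Real.exp (2 * α * h) * 14 ^ d * M) := ⟨_, rfl⟩
  have hlim : Tendsto (fun k : ℕ => C * Real.exp (-κ) ^ k) atTop (𝓝 (C * 0)) :=
    (tendsto_pow_atTop_nhds_zero_of_lt_one (Real.exp_pos _).le
      (Real.exp_lt_one_iff.2 (by linarith))).const_mul C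
  rw [mul_zero] at hlim
  obtain ⟨k1, hk1⟩ := eventually_atTop.1 (hlim.eventually (gt_mem_nhds (pow_pos hx00 2)))
  refine dim_cover _ (GG μ b v α δ (Real.exp (-ε))) (Real.exp (-(γ * h)))
    (3 * (μ Set.univ).toReal / x0) (Real.exp ε) τ0 (Real.exp_pos _) hζ1
    (by positivity) (Real.exp_pos _).le hτ.le ?_
    (fun k0 τ hτ' => setupB μ b v α δ hδ (Real.exp (-ε)) (Real.exp_pos _) hρ1 k0 τ hτ') k1 ?_
  · rw [Real.rpow_def_of_pos (Real.exp_pos _), Real.log_exp, ← Real.exp_add]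
    refine Real.exp_lt_one_iff.2 ?_
    linarith
  · intro k hk P hP hsep
    have h1 := sepBB μ b v hb hv M β hM hQ α δ (Real.exp (-ε)) hδ (Real.exp_pos _) hρ1 k P hP
      (Real.exp (-(γ * h)) ^ k) (pow_pos (Real.exp_pos _) _)
      (pow_le_one₀ (Real.exp_pos _).le hζ1.le) hsep (by
        rw [← hx0]
        have e1 : ((2 : ℝ) ^ ((α : ℝ) * (k + 1))) ^ 2 = Real.exp (2 * (α * h * (k + 1))) := by
          rw [Real.rpow_def_of_pos (by norm_num), ← hh, ← Real.exp_nat_mul]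
          congr 1
          push_cast
          ring
        have e2 : (14 / Real.exp (-(γ * h)) ^ k) ^ d = 14 ^ d * Real.exp (γ * h * k * d) := by
          rw [← Real.exp_nat_mul, div_pow, ← Real.exp_nat_mul, div_eq_mul_inv, ← Real.exp_neg]
          congr 2
          ring
        have e3 : M / ((2 : ℝ) ^ k) ^ β = M * Real.exp (-(h * k * β)) := by
          have h2 : ((2 : ℝ) ^ k) ^ β = Real.exp (h * k * β) := by
            rw [← Real.rpow_natCast, ← Real.rpow_mul (by norm_num),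
              Real.rpow_def_of_pos (by norm_num), ← hh]
            congr 1
            ring
          rw [h2, Real.exp_neg, div_eq_mul_inv]
        have e4 : (x0 * Real.exp (-ε) ^ k) ^ 2 = x0 ^ 2 * Real.exp (-(2 * ε * k)) := by
          rw [mul_pow, ← Real.exp_nat_mul, ← Real.exp_nat_mul]
          congr 2
          push_cast
          ring
        rw [e1, e2, e3, e4]
        have e5 : 6 * (μ Set.univ).toReal * (Real.exp (2 * (α * h * (k + 1))) *
            (14 ^ d * Real.exp (γ * h * k * d)) * (M * Real.exp (-(h * k * β)))) =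
            (C * Real.exp (-κ) ^ k) * Real.exp (-(2 * ε * k)) := by
          rw [hC, ← Real.exp_nat_mul]
          have e6 : Real.exp (2 * (α * h * (k + 1))) * Real.exp (γ * h * k * d) *
              Real.exp (-(h * k * β)) = Real.exp (2 * α * h) * Real.exp ((k : ℝ) * -κ) *
                Real.exp (-(2 * ε * k)) := by
            rw [← Real.exp_add, ← Real.exp_add, ← Real.exp_add, ← Real.exp_add]
            congr 1
            rw [hκ]
            have e7 : (β : ℝ) = 2 * (γ * d) + 2 * α := by linarith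
            linear_combination (-(h * k)) * e7
          calc 6 * (μ Set.univ).toReal * (Real.exp (2 * (α * h * (k + 1))) *
            (14 ^ d * Real.exp (γ * h * k * d)) * (M * Real.exp (-(h * k * β)))) =
              6 * (μ Set.univ).toReal * 14 ^ d * M * (Real.exp (2 * (α * h * (k + 1))) *
                Real.exp (γ * h * k * d) * Real.exp (-(h * k * β))) := by ring
            _ = _ := by
              rw [e6]
              ring
        rw [e5]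
        exact mul_lt_mul_of_pos_right (hk1 k hk) (Real.exp_pos _))
    refine h1.trans (le_of_eq ?_)
    rw [← hx0]
    have e8 : Real.exp (-ε) ^ k = (Real.exp ε ^ k)⁻¹ := by
      rw [Real.exp_neg, inv_pow]
    rw [e8]
    field_simp

end Pool.Agent.H32.FX
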