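import Pool.Agent.H951.FX.Stm

/-!
# FX-ECB: the range of the hairbrush argument
-/

set_option autoImplicit false
set_option maxHeartbeats 1000000

open MeasureTheory Filter Topology
open scoped Classical ENNReal NNReal

namespace Pool.Agent.H734.FX

open Pool.Agent.W605.HD Pool.Agent.W46.HD Pool.Agent.Y254HK Pool.Agent.H951.FH
  Pool.Agent.H951.KS Pool.Agent.H951.FX

/-- exceptional heights are in infinitely many of the sets `GG` -/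
theorem ecb_key {d : ℕ} {Ω : Type} [MeasurableSpace Ω] (μ : Measure Ω) [IsFiniteMeasure μ]
    (b v : Ω → Fin d → ℝ) (α : ℝ≥0) (δ : ℝ) (hδ : 0 < δ) (ρ : ℝ) (hρ0 : 0 < ρ) (hρ1 : ρ < 1)
    (k0 : ℕ) : ∀ τ ∈ {τ : ℝ | τ ∈ Set.Ico (0 : ℝ) 1 ∧
        ∃ A : Set (Fin d → ℝ), dimH A < α ∧
          ENNReal.ofReal δ < μ {ω | (fun i => b ω i + τ * v ω i) ∈ A}},
        ∃ k, k0 ≤ k ∧ τ ∈ GG μ b v α δ ρ k := by
  rintro τ ⟨hτ, A, hA, hμ⟩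
  obtain ⟨C, hC1, hC2⟩ := cov_meas μ (fun ω i => b ω i + τ * v ω i) A α hA k0
    (ENNReal.ofReal δ) hμ
  have hρ : 0 < 1 - ρ := by linarith
  obtain ⟨k, hk, Z, hZ1, hZ2⟩ := lev μ (fun ω i => b ω i + τ * v ω i) α k0 C hC1
    (δ * (1 - ρ) / 4) ρ (by positivity) hρ0.le hρ1 (by
      have e1 : δ * (1 - ρ) / 4 / (1 - ρ) = δ / 4 := by
        field_simp
      rw [e1]
      refine lt_of_le_of_lt ?_ hC2
      exact ENNReal.ofReal_le_ofReal (by linarith))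
  exact ⟨k, hk, hτ, Z, hZ1, hZ2⟩

/-- the range of the hairbrush argument -/
theorem t_ECB : S_CONB → S_NAB → S_ECB := by
  intro hCONB hNAB d β Ω _ μ _ b v M α τ0 δ hβ hb hv hv1 hM hcell hα hτ hδ
  rcases le_or_gt τ0 1 with hτ1 | hτ1
  swap
  · refine (dimH_mono (Set.subset_univ _)).trans ?_
    rw [Real.dimH_univ]
    rw [← ENNReal.ofReal_one]
    exact ENNReal.ofReal_le_ofReal hτ1.le
  rcases eq_or_ne (μ Set.univ) 0 with hm0 | hm0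
  · have hemp : {τ : ℝ | τ ∈ Set.Ico (0 : ℝ) 1 ∧ ∃ A : Set (Fin d → ℝ), dimH A < α ∧
        ENNReal.ofReal δ < μ {ω | (fun i => b ω i + τ * v ω i) ∈ A}} = ∅ := by
      refine Set.eq_empty_of_forall_notMem ?_
      rintro τ ⟨-, A, -, h⟩
      have h1 : μ {ω | (fun i => b ω i + τ * v ω i) ∈ A} ≤ 0 :=
        (measure_mono (Set.subset_univ _)).trans hm0.le
      exact absurd (h.trans_le h1) (not_lt.2 zero_le)
    rw [hemp, dimH_empty]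
    exact zero_le
  obtain ⟨m, hm⟩ : ∃ m : ℝ, m = (μ Set.univ).toReal := ⟨_, rfl⟩
  have hmpos : 0 < m := by
    rw [hm]
    exact ENNReal.toReal_pos hm0 (measure_ne_top μ _)
  have hα0 : (0 : ℝ) ≤ α := α.2
  obtain ⟨C0, hC0, hcon⟩ := hCONB d β hβ
  obtain ⟨ρ, bb, hρ0, hρ1, hb0, hb1, hnum⟩ := hNAB β τ0 α (by linarith) hτ hτ1 hα0 (by linarith)
  have hρ : 0 < 1 - ρ := by linarith
  obtain ⟨x0, hx0⟩ : ∃ x0 : ℝ, x0 = δ * (1 - ρ) / 4 := ⟨_, rfl⟩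
  have hx00 : 0 < x0 := by rw [hx0]; positivity
  obtain ⟨k1, hk1⟩ := hnum x0 m (C0 * m ^ 4 * M ^ 2) hx00 hmpos (by positivity)
  refine Pool.Agent.H599.FH.t_DIM _ (GG μ b v α δ ρ) τ0 bb k1 hτ hb0 hb1
    (fun k0 => ecb_key μ b v α δ hδ ρ hρ0 hρ1 k0) fun k hk => ?_
  obtain ⟨P, C, hPG0, hPf, -, hcov, hsum⟩ := Pool.Agent.H233.FH.t_FRO τ0 k (GG μ b v α δ ρ k)
    hτ hτ1 (fun t ht => ht.1)
  refine ⟨C, hcov, ?_⟩
  by_contra hno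
  rw [not_le] at hno
  have hk2 : (0 : ℝ) < ((2 : ℝ) ^ k) ^ τ0 := by positivity
  have hPc2 : bb ^ k * ((2 : ℝ) ^ k) ^ τ0 / 2 ≤ P.card := by
    have h1 := hno.le.trans hsum
    rw [le_div_iff₀ hk2] at h1
    linarith
  have hPpos : 0 < (P.card : ℝ) := lt_of_lt_of_le (by positivity) hPc2
  have hPne : P.Nonempty := Finset.card_pos.1 (by exact_mod_cast hPpos)
  have hPG : ∀ t ∈ P, t ∈ GG μ b v α δ ρ k := fun t ht => hPG0 ht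
  obtain ⟨r, hr1, hrk, hfar, hlt⟩ := hk1 k hk
  have hex : ∀ t : ℝ, ∃ Z : Finset (Fin d → ℤ), t ∈ P → (Z.card : ℝ) ≤ (2 : ℝ) ^ ((α : ℝ) * (k + 1)) ∧
      ENNReal.ofReal (δ * (1 - ρ) / 4 * ρ ^ k) ≤
        μ {ω | ∃ z ∈ Z, ∀ i, |(2 : ℝ) ^ k * (b ω i + t * v ω i) - z i| < 3} := by
    intro t
    by_cases ht : t ∈ P
    · obtain ⟨-, Z, hZ1, hZ2⟩ := hPG t ht
      exact ⟨Z, fun _ => ⟨hZ1, hZ2⟩⟩
    · exact ⟨∅, fun h => absurd h ht⟩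
  choose Z hZ using hex
  have hmain := hcon k Ω μ b v M (x0 * ρ ^ k) ((2 : ℝ) ^ ((α : ℝ) * (k + 1))) τ0 P Z
    (fun t => {ω | ∃ z ∈ Z t, ∀ i, |(2 : ℝ) ^ k * (b ω i + t * v ω i) - z i| < 3}) r
    hv hv1 hM (by positivity) (by positivity) hcell hPne (fun t ht => (hPG t ht).1) hτ hτ1
    hPf (fun t ht => (hZ t ht).1) (fun t _ => Wmeas b v hb hv k t (Z t))
    (fun t ht => by rw [hx0]; exact (hZ t ht).2) (fun t _ ω hω => hω) hr1 hrk (by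
      rw [← hm]
      refine hfar.trans ?_
      gcongr)
  rw [← hm] at hmain
  have h2 : (bb ^ k * ((2 : ℝ) ^ k) ^ τ0 / 2) ^ 2 * (x0 * ρ ^ k) ^ 6 * (r : ℝ) ^ β ≤
      (P.card : ℝ) ^ 2 * (x0 * ρ ^ k) ^ 6 * (r : ℝ) ^ β := by
    gcongr
  have h3 : C0 * ((k : ℝ) + 1) ^ 11 * m ^ 4 * M ^ 2 * (2 : ℝ) ^ k *
      ((2 : ℝ) ^ ((α : ℝ) * (k + 1))) ^ 2 =
      C0 * m ^ 4 * M ^ 2 * ((k : ℝ) + 1) ^ 11 * (2 : ℝ) ^ k *
      ((2 : ℝ) ^ ((α : ℝ) * (k + 1))) ^ 2 := by ring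
  linarith

end Pool.Agent.H734.FX
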