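import Pool.Agent.H951.FX.Stm
import Pool.Agent.H951.KS.Rep

/-!
# FX-SLB: selection of lines
-/

set_option autoImplicit false
set_option maxHeartbeats 1000000

open MeasureTheory
open scoped Classical ENNReal NNReal

namespace Pool.Agent.H394.FX

open Pool.Agent.H951.FH Pool.Agent.H951.FX Pool.Agent.H951.KS

/-- membership in a dyadic cube in terms of floors -/
theorem mem_Cb {d l : ℕ} (p : Fin d → ℕ) (u : Fin d → ℝ) :
    u ∈ Cb (l, p) ↔ ∀ i, ⌊(2 : ℝ) ^ l * u i⌋ = (p i : ℤ) := by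
  have h2 : (0 : ℝ) < (2 : ℝ) ^ l := by positivity
  unfold Cb
  rw [Set.mem_setOf_eq]
  refine forall_congr' fun i => ?_
  rw [Int.floor_eq_iff, div_le_iff₀ h2, lt_div_iff₀ h2, mul_comm (u i)]
  push_cast
  exact Iff.rfl

/-- the floor of level `l` is determined by the floor of level `k ≥ l` -/
theorem floor_level {l k : ℕ} (hl : l ≤ k) (a b : ℝ) (h : ⌊(2 : ℝ) ^ k * a⌋ = ⌊(2 : ℝ) ^ k * b⌋) :
    ⌊(2 : ℝ) ^ l * a⌋ = ⌊(2 : ℝ) ^ l * b⌋ := by
  have key : ∀ c : ℝ, ⌊(2 : ℝ) ^ l * c⌋ = ⌊(2 : ℝ) ^ k * c⌋ / ((2 ^ (k - l) : ℕ) : ℤ) := by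
    intro c
    rw [← Int.floor_div_natCast]
    congr 1
    push_cast
    rw [eq_div_iff (by positivity), mul_right_comm, ← pow_add, Nat.add_sub_cancel' hl]
  rw [key, key, h]

theorem t_SLB (hF : S_FROD) : S_SLB := by
  intro d k β Ω _ μ _ v M x P W hβ hv hv1 hM hx hC hP hWm hWx
  have h2k : (0 : ℝ) < (2 : ℝ) ^ k := by positivity
  obtain ⟨t0, ht0⟩ := hP
  have hPc : (0 : ℝ) < P.card := by exact_mod_cast Finset.card_pos.2 ⟨t0, ht0⟩
  have hne : Nonempty Ω := by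
    by_contra hcon
    rw [not_nonempty_iff] at hcon
    have h1 := hWx t0 ht0
    rw [Set.eq_empty_of_isEmpty (W t0), measure_empty, nonpos_iff_eq_zero,
      ENNReal.ofReal_eq_zero] at h1
    linarith
  -- the cells
  let cel : (Fin d → ℝ) → (Fin d → ℤ) := fun u i => ⌊(2 : ℝ) ^ k * u i⌋
  let h : Ω → ℕ := fun ω => (P.filter fun t => ω ∈ W t).card
  have hbest : ∀ q : Fin d → ℤ, ∃ σ : Ω, (∃ ω, cel (v ω) = q) → (cel (v σ) = q ∧
      ∀ ω', cel (v ω') = q → h ω' ≤ h σ) := by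
    intro q
    by_cases hq : ∃ ω, cel (v ω) = q
    · obtain ⟨σ, h1, h2⟩ := exists_best {ω | cel (v ω) = q} hq h P.card
        (fun ω => Finset.card_filter_le _ _)
      exact ⟨σ, fun _ => ⟨h1, fun ω' hω' => h2 ω' hω'⟩⟩
    · exact ⟨Classical.arbitrary Ω, fun h => absurd h hq⟩
  choose σ hσ using hbest
  set m0 : ℝ := (μ Set.univ).toReal with hm0
  have hm0pos : 0 < m0 := by
    have h1 : ENNReal.ofReal x ≤ μ Set.univ := (hWx t0 ht0).trans (measure_mono (Set.subset_univ _))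
    have h2 := ENNReal.toReal_mono (measure_ne_top μ Set.univ) h1
    rw [ENNReal.toReal_ofReal hx.le] at h2
    exact lt_of_lt_of_le hx h2
  set thr : ℝ := (P.card : ℝ) * x / (2 * m0) with hthr
  have hthr0 : 0 ≤ thr := by positivity
  let G : Set Ω := {ω | thr ≤ (h (σ (cel (v ω))) : ℝ)}
  have hcelm : Measurable fun ω => cel (v ω) := by
    refine measurable_pi_lambda _ fun i => ?_
    exact Int.measurable_floor.comp (((measurable_pi_apply i).comp hv).const_mul _)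
  have hGm : MeasurableSet G := by
    have : G = (fun ω => cel (v ω)) ⁻¹' {q | thr ≤ (h (σ q) : ℝ)} := rfl
    rw [this]
    exact hcelm (Set.to_countable _).measurableSet
  -- the measure of the good set
  have hG1 : ∑ t ∈ P, μ (W t ∩ G) ≤ (P.card : ℕ) * μ G :=
    sum_inter μ P W hWm G hGm P.card fun ω _ => Finset.card_filter_le _ _
  have hG2 : ∑ t ∈ P, μ (W t ∩ Gᶜ) ≤ (⌊thr⌋₊ : ℕ) * μ Gᶜ := by
    refine sum_inter μ P W hWm Gᶜ hGm.compl ⌊thr⌋₊ fun ω hω => ?_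
    have h1 : ¬ thr ≤ (h (σ (cel (v ω))) : ℝ) := hω
    have h2 : h ω ≤ h (σ (cel (v ω))) := (hσ (cel (v ω)) ⟨ω, rfl⟩).2 ω rfl
    have h3 : (h ω : ℝ) ≤ (h (σ (cel (v ω))) : ℝ) := by exact_mod_cast h2
    exact Nat.le_floor (h3.trans (not_le.1 h1).le)
  have hsum : (P.card : ℝ≥0∞) * ENNReal.ofReal x ≤ (P.card : ℕ) * μ G + (⌊thr⌋₊ : ℕ) * μ Gᶜ := by
    calc (P.card : ℝ≥0∞) * ENNReal.ofReal x ≤ ∑ t ∈ P, μ (W t) := by
          rw [← nsmul_eq_mul, ← Finset.sum_const]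
          exact Finset.sum_le_sum fun t ht => hWx t ht
      _ = ∑ t ∈ P, (μ (W t ∩ G) + μ (W t ∩ Gᶜ)) := by
          refine Finset.sum_congr rfl fun t _ => ?_
          rw [← Set.diff_eq, measure_inter_add_diff (W t) hGm]
      _ = ∑ t ∈ P, μ (W t ∩ G) + ∑ t ∈ P, μ (W t ∩ Gᶜ) := Finset.sum_add_distrib
      _ ≤ _ := add_le_add hG1 hG2
  have hreal : (P.card : ℝ) * x ≤ P.card * (μ G).toReal + thr * m0 := by
    have hfin : ((P.card : ℕ) : ℝ≥0∞) * μ G + (⌊thr⌋₊ : ℕ) * μ Gᶜ ≠ ⊤ :=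
      ENNReal.add_ne_top.2 ⟨ENNReal.mul_ne_top (ENNReal.natCast_ne_top _) (measure_ne_top _ _),
        ENNReal.mul_ne_top (ENNReal.natCast_ne_top _) (measure_ne_top _ _)⟩
    have h1 := ENNReal.toReal_mono hfin hsum
    rw [ENNReal.toReal_mul, ENNReal.toReal_natCast, ENNReal.toReal_ofReal hx.le,
      ENNReal.toReal_add (ENNReal.mul_ne_top (ENNReal.natCast_ne_top _) (measure_ne_top _ _))
        (ENNReal.mul_ne_top (ENNReal.natCast_ne_top _) (measure_ne_top _ _)), ENNReal.toReal_mul,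
      ENNReal.toReal_mul, ENNReal.toReal_natCast, ENNReal.toReal_natCast] at h1
    have h2 : ((⌊thr⌋₊ : ℕ) : ℝ) ≤ thr := Nat.floor_le hthr0
    have h3 : (μ Gᶜ).toReal ≤ m0 :=
      ENNReal.toReal_mono (measure_ne_top μ Set.univ) (measure_mono (Set.subset_univ _))
    have h4 : ((⌊thr⌋₊ : ℕ) : ℝ) * (μ Gᶜ).toReal ≤ thr * m0 :=
      mul_le_mul h2 h3 ENNReal.toReal_nonneg hthr0
    linarith
  have hx2 : x / 2 ≤ (μ G).toReal := by
    have h1 : thr * m0 = P.card * (x / 2) := by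
      rw [hthr]
      field_simp
    rw [h1] at hreal
    have h2 : (P.card : ℝ) * (x / 2) ≤ P.card * (μ G).toReal := by linarith
    exact le_of_mul_le_mul_left h2 hPc
  -- the Frostman set
  obtain ⟨P1, C, hP1, hPC, hCV, hSm⟩ := hF d β k (v '' G) hβ (by
    rintro u ⟨ω, -, rfl⟩
    exact hv1 ω)
  have hGC : μ G ≤ ENNReal.ofReal (M * SmD β C) := by
    calc μ G ≤ μ (⋃ c ∈ C, {ω | v ω ∈ Cb c}) := by
          refine measure_mono fun ω hω => ?_
          obtain ⟨c, hc, hc2⟩ := hCV (v ω) ⟨ω, hω, rfl⟩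
          exact Set.mem_biUnion hc hc2
      _ ≤ ∑ c ∈ C, μ {ω | v ω ∈ Cb c} := measure_biUnion_finset_le _ _
      _ ≤ ∑ c ∈ C, ENNReal.ofReal (M * (1 / (2 : ℝ) ^ c.1) ^ β) := by
          refine Finset.sum_le_sum fun c _ => ?_
          have h1 : {ω | v ω ∈ Cb c} = {ω | ∀ i, ⌊(2 : ℝ) ^ c.1 * v ω i⌋ =
              (fun i => ((c.2 i : ℕ) : ℤ)) i} := by
            ext ω
            exact mem_Cb c.2 (v ω)
          rw [h1]
          refine (hC c.1 _).trans (le_of_eq ?_)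
          congr 1
          rw [Real.div_rpow (by norm_num) (by positivity), Real.one_rpow, mul_one_div]
      _ = ENNReal.ofReal (M * SmD β C) := by
          rw [← ENNReal.ofReal_sum_of_nonneg (fun c _ => by positivity), SmD, Finset.mul_sum]
  have hcard : ((2 : ℝ) ^ k) ^ β * x / (4 * M) ≤ P1.card := by
    have hSm0 : 0 ≤ SmD β C := Finset.sum_nonneg fun c _ => by positivity
    have h1 : (μ G).toReal ≤ M * SmD β C :=
      ENNReal.toReal_le_of_le_ofReal (by positivity) hGC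
    have h2 : 0 < ((2 : ℝ) ^ k) ^ β := by positivity
    have h3 : M * SmD β C ≤ M * (2 * P1.card / ((2 : ℝ) ^ k) ^ β) :=
      mul_le_mul_of_nonneg_left hSm hM.le
    have h4 : x / 2 ≤ M * (2 * P1.card / ((2 : ℝ) ^ k) ^ β) := hx2.trans (h1.trans h3)
    rw [div_le_iff₀ (by positivity)]
    rw [mul_div_assoc', le_div_iff₀ h2] at h4
    linarith
  -- the representatives
  let g : (Fin d → ℝ) → (Fin d → ℝ) := fun u => v (σ (cel u))
  have hP1' : ∀ u ∈ P1, ∃ ω ∈ G, v ω = u := fun u hu => hP1 (Finset.mem_coe.2 hu)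
  have hgc : ∀ u ∈ P1, cel (g u) = cel u := by
    intro u hu
    obtain ⟨ω, -, rfl⟩ := hP1' u hu
    exact (hσ (cel (v ω)) ⟨ω, rfl⟩).1
  have hinj : Set.InjOn g (P1 : Set (Fin d → ℝ)) := by
    intro u hu u' hu' huu
    have hu := Finset.mem_coe.1 hu
    have hu' := Finset.mem_coe.1 hu'
    have h1 : cel u = cel u' := by rw [← hgc u hu, ← hgc u' hu', huu]
    let p : Fin d → ℕ := fun i => (cel u i).toNat
    have hpos : ∀ i, 0 ≤ cel u i := by
      intro i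
      obtain ⟨ω, -, rfl⟩ := hP1' u hu
      exact Int.floor_nonneg.2 (mul_nonneg h2k.le (hv1 ω i).1)
    have hp : ∀ i, cel u i = ((p i : ℕ) : ℤ) := fun i => (Int.toNat_of_nonneg (hpos i)).symm
    have h2 : u ∈ Cb (k, p) := (mem_Cb p u).2 fun i => hp i
    have h3 : u' ∈ Cb (k, p) := (mem_Cb p u').2 fun i => by
      rw [← hp i, h1]
    have h4 := hPC k le_rfl p
    rw [Nat.sub_self, pow_zero, Real.one_rpow] at h4
    have h5 : (P1.filter fun v => v ∈ Cb (k, p)).card ≤ 1 := by exact_mod_cast h4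
    exact Finset.card_le_one.1 h5 u (Finset.mem_filter.2 ⟨hu, h2⟩) u'
      (Finset.mem_filter.2 ⟨hu', h3⟩)
  refine ⟨P1.image g, fun u => σ (cel u), ?_, ?_, ?_⟩
  · intro u hu
    obtain ⟨u', hu', rfl⟩ := Finset.mem_image.1 hu
    have h1 : σ (cel (g u')) = σ (cel u') := by rw [hgc u' hu']
    refine ⟨?_, ?_⟩
    · change v (σ (cel (g u'))) = g u'
      rw [h1]
    · change thr ≤ (h (σ (cel (g u'))) : ℝ)
      rw [h1]
      obtain ⟨ω, hω, rfl⟩ := hP1' u' hu'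
      exact hω
  · intro l hl p
    refine le_trans ?_ (hPC l hl p)
    have h1 : ((P1.image g).filter fun u => u ∈ Cb (l, p)) ⊆
        (P1.filter fun u => u ∈ Cb (l, p)).image g := by
      intro u hu
      obtain ⟨hu1, hu2⟩ := Finset.mem_filter.1 hu
      obtain ⟨u', hu', rfl⟩ := Finset.mem_image.1 hu1
      refine Finset.mem_image.2 ⟨u', Finset.mem_filter.2 ⟨hu', ?_⟩, rfl⟩
      rw [mem_Cb] at hu2 ⊢
      intro i
      rw [← hu2 i]
      exact (floor_level hl _ _ (congrFun (hgc u' hu') i)).symm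
    exact_mod_cast (Finset.card_le_card h1).trans Finset.card_image_le
  · rw [Finset.card_image_of_injOn hinj]
    exact hcard

end Pool.Agent.H394.FX
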