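import Pool.Agent.H951.FX.Slo
import Pool.Agent.H951.FX.SLB
import Pool.Agent.H951.FX.CONB
import Pool.Agent.H951.FX.NAB
import Pool.Agent.H951.FX.EBB
import Pool.Agent.H951.FX.ECB
import Pool.Agent.H951.FX.E3B
import Pool.Agent.H951.FH.Asm3
import Pool.Agent.H225.Frost

/-!
# Exceptional slices: all directions outside a set of dimension `β`
-/

set_option autoImplicit false
set_option maxHeartbeats 1000000

open MeasureTheory Filter Topology
open scoped Classical ENNReal NNReal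

namespace Pool.Agent.H951.FX

open Pool.Agent.W605.HD Pool.Agent.Y674.HK Pool.Agent.H951.KS

theorem e3b : S_E3B :=
  Pool.Agent.H736.FX.t_E3B Pool.Agent.H32.FX.t_EBB
    (Pool.Agent.H734.FX.t_ECB
      (Pool.Agent.H339.FX.t_CONB (Pool.Agent.H394.FX.t_SLB Pool.Agent.H80.FHB.t_FROD)
        (Pool.Agent.H632.FHB.t_ONEB Pool.Agent.H951.FH.dhB))
      Pool.Agent.H962.FX.t_NAB)

/-- the compact set of the unit directions of the segments in `U` -/
def DD (d : ℕ) (K : Set (EuclideanSpace ℝ (Fin (d + 1)))) (j : ℚ × (ℕ × ℕ)) :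
    Set (EuclideanSpace ℝ (Fin (d + 1))) :=
  Prod.snd '' SG d K j.1 (UU d j.2) ∩ Metric.sphere 0 1

theorem DD_compact (d : ℕ) (K : Set (EuclideanSpace ℝ (Fin (d + 1)))) (hK : IsClosed K)
    (j : ℚ × (ℕ × ℕ)) : IsCompact (DD d K j) :=
  ((SG_compact d K hK j.1 _ (UU_compact d j.2)).image continuous_snd).inter_right
    Metric.isClosed_sphere

theorem M1 (d : ℕ) (β : ℝ) (hβ : 1 ≤ β) (K : Set (EuclideanSpace ℝ (Fin (d + 1))))
    (hK : IsClosed K) (j : ℚ × (ℕ × ℕ))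
    (L : EuclideanSpace ℝ (Fin (d + 1)) ≃ₗᵢ[ℝ] EuclideanSpace ℝ (Fin (d + 1))) (s : ℝ)
    (hdim : ENNReal.ofReal β < dimH (DD d K j)) :
    dimH (TXH d K j.1 L (UU d j.2) s) ≤ ENNReal.ofReal (s - (β - 1) / 2) ∧
    (2 * s ≤ β → dimH (TXH d K j.1 L (UU d j.2) s) = 0) := by
  rcases (TXH d K j.1 L (UU d j.2) s).eq_empty_or_nonempty with he | ⟨t0, ht0⟩
  · rw [he, dimH_empty]
    exact ⟨zero_le, fun _ => rfl⟩
  obtain ⟨X, hX, hXL⟩ := T_sub d K hK j.1 (UU d j.2) (UU_compact d j.2) L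
  obtain ⟨m, hm1, hm2, C, hC, hm3⟩ := Pool.Agent.H225.Frost.frostman (DD d K j)
    (DD_compact d K hK j) β (by linarith) hdim
  have hVm : Measurable fun f => sl d (L f) := (measurable_sl d).comp L.continuous.measurable
  obtain ⟨C', hC', hslo⟩ := slo d β C m L hC hm3 (by
    refine measure_mono_null ?_ hm2
    intro f hf hfD
    refine hf ⟨mem_sphere_zero_iff_norm.1 hfD.2, fun h0 => ?_⟩
    obtain ⟨z, hz, rfl⟩ := hfD.1
    have h1 := (ht0.1 z hz.1).1
    rw [h0, mul_zero, mul_zero] at h1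
    exact lt_irrefl _ h1)
  have h1 := e3b d β _ m X (fun f => sl d (L f)) C' s hβ hX hVm hC' hslo
  have hsub : TXH d K j.1 L (UU d j.2) s ⊆ {t : ℝ | ∃ A : Set (Fin d → ℝ),
      dimH A < ENNReal.ofReal s ∧ m {ω | (fun i => X ω i + t * sl d (L ω) i) ∈ A} ≠ 0} := by
    rintro t ⟨ht, hdim⟩
    refine ⟨slice d (L '' K) t, hdim, fun h0 => ?_⟩
    have h2 : m Set.univ = 0 := by
      refine measure_mono_null ?_ (measure_union_null h0 hm2)
      intro f _
      by_cases hf : f ∈ DD d K j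
      · exact Or.inl (hXL t ht f hf.1)
      · exact Or.inr hf
    rw [measure_univ] at h2
    exact one_ne_zero h2
  refine ⟨(dimH_mono hsub).trans h1.1, fun hs => ?_⟩
  exact le_antisymm ((dimH_mono hsub).trans (h1.2 hs).le) zero_le

/-- all directions outside a set of dimension `β`, all segments, all directions of the slices -/
theorem M2 (d : ℕ) (β : ℝ) (hβ : 1 ≤ β) (K : Set (EuclideanSpace ℝ (Fin (d + 1))))
    (hK : IsClosed K) :
    dimH {e : EuclideanSpace ℝ (Fin (d + 1)) | ‖e‖ = 1 ∧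
      ¬ ∀ (a : EuclideanSpace ℝ (Fin (d + 1))) (r : ℝ), segment ℝ a (a + r • e) ⊆ K →
        ∀ ν : EuclideanSpace ℝ (Fin (d + 1)), inner ℝ e ν ≠ 0 → ∀ s : ℝ,
        dimH {x ∈ segment ℝ a (a + r • e) | dimH (K ∩ {y | inner ℝ y ν = inner ℝ x ν}) <
          ENNReal.ofReal s} ≤ ENNReal.ofReal (s - (β - 1) / 2) ∧
        (2 * s ≤ β → dimH {x ∈ segment ℝ a (a + r • e) |
          dimH (K ∩ {y | inner ℝ y ν = inner ℝ x ν}) < ENNReal.ofReal s} = 0)} ≤
      ENNReal.ofReal β := by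
  have hN : dimH (⋃ j : ℚ × (ℕ × ℕ), ⋃ _ : dimH (DD d K j) ≤ ENNReal.ofReal β, DD d K j) ≤
      ENNReal.ofReal β := by
    rw [dimH_iUnion]
    refine iSup_le fun j => ?_
    rw [dimH_iUnion]
    exact iSup_le fun hj => hj
  refine (dimH_mono ?_).trans hN
  rintro e ⟨he1, he⟩
  by_contra hcone
  refine he ?_
  intro a r hseg ν hν s
  have hν0 : ν ≠ 0 := by
    rintro rfl
    exact hν (inner_zero_right _)
  obtain ⟨L, ρ, hρ, hL⟩ := exists_rot2 d ν hν0
  have he0 : (L e) 0 ≠ 0 := by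
    rw [hL]
    exact mul_ne_zero hρ hν
  obtain ⟨ln, κ, hln, hcov⟩ := cover_lemma d K e a r hseg L he0 s
  have hcov2 : {x ∈ segment ℝ a (a + r • e) |
      dimH (K ∩ {y | inner ℝ y ν = inner ℝ x ν}) < ENNReal.ofReal s} ⊆
      {a, a + r • e} ∪ ⋃ j : ℚ × (ℕ × ℕ), ⋃ _ : e ∈ Prod.snd '' SG d K j.1 (UU d j.2),
          ln '' TXH d K j.1 L (UU d j.2) s := by
    refine Set.Subset.trans ?_ hcov
    rintro x ⟨hx, hdim⟩
    exact ⟨hx, lt_of_le_of_lt (slice_dim d K L ν ρ hρ hL x) hdim⟩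
  have hfin : dimH ({a, a + r • e} : Set (EuclideanSpace ℝ (Fin (d + 1)))) = 0 :=
    (Set.toFinite _).dimH_zero
  have hbig : ∀ j : ℚ × (ℕ × ℕ), e ∈ Prod.snd '' SG d K j.1 (UU d j.2) →
      ENNReal.ofReal β < dimH (DD d K j) := by
    intro j hj
    by_contra hle
    exact hcone (Set.mem_iUnion₂.2 ⟨j, not_lt.1 hle, hj, mem_sphere_zero_iff_norm.2 he1⟩)
  have hgen : ∀ B : ℝ≥0∞, (∀ j : ℚ × (ℕ × ℕ), e ∈ Prod.snd '' SG d K j.1 (UU d j.2) →
      dimH (TXH d K j.1 L (UU d j.2) s) ≤ B) →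
      dimH {x ∈ segment ℝ a (a + r • e) | dimH (K ∩ {y | inner ℝ y ν = inner ℝ x ν}) <
        ENNReal.ofReal s} ≤ B := by
    intro B hB
    refine (dimH_mono hcov2).trans ?_
    rw [dimH_union, hfin]
    refine max_le zero_le ?_
    rw [dimH_iUnion]
    refine iSup_le fun j => ?_
    rw [dimH_iUnion]
    refine iSup_le fun hj => ?_
    exact (hln.dimH_image_le _).trans (hB j hj)
  refine ⟨hgen _ fun j hj => (M1 d β hβ K hK j L s (hbig j hj)).1, fun hs => ?_⟩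
  exact le_antisymm (hgen 0 fun j hj => ((M1 d β hβ K hK j L s (hbig j hj)).2 hs).le) zero_le

end Pool.Agent.H951.FX
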