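import Pool.Agent.H951.FX.StmR

/-!
# The limit in the coefficient
-/

set_option autoImplicit false

open MeasureTheory Filter Topology
open scoped Classical ENNReal NNReal

namespace Pool.Agent.H951.FX

theorem limR (hF : S_FDQ) (d : ℕ) (hd : 1 ≤ d) (c : ℝ) (hc : 0 < c)
    (hT : ∀ c' : ℝ, c < c' → CntQ d c') (K N : Set (EuclideanSpace ℝ (Fin (d + 1)))) (α β : ℝ)
    (hα : 0 < α) (hβ : 0 < β) (hN : ∀ e ∈ N, ‖e‖ = 1) (hdim : ENNReal.ofReal β ≤ dimH N)
    (hK : ∀ e ∈ N, ∃ a : EuclideanSpace ℝ (Fin (d + 1)),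
      ENNReal.ofReal α ≤ dimH (K ∩ {x | ∃ r : ℝ, x = a + r • e})) :
    ENNReal.ofReal (α + (d * α - (d - β)) / c) ≤ dimH K := by
  have h1 : Tendsto (fun m : ℕ => α + (d * α - (d - β)) / (c + 1 / ((m : ℝ) + 1))) atTop
      (𝓝 (α + (d * α - (d - β)) / (c + 0))) :=
    (Tendsto.div tendsto_const_nhds
      (tendsto_const_nhds.add tendsto_one_div_add_atTop_nhds_zero_nat)
      (by rw [add_zero]; exact hc.ne')).const_add α
  rw [add_zero] at h1
  refine le_of_tendsto' (ENNReal.tendsto_ofReal h1) fun m => ?_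
  have hm : (0 : ℝ) < 1 / ((m : ℝ) + 1) := by positivity
  exact hF d (c + 1 / ((m : ℝ) + 1)) hd (by linarith) (hT _ (by linarith)) K N α β hα hβ hN
    hdim hK

end Pool.Agent.H951.FX
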