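import Pool.Agent.H951.KS.AllNu

/-!
# Slopes of unit vectors: the Frostman condition
-/

set_option autoImplicit false
set_option maxHeartbeats 1000000

open MeasureTheory Filter Topology
open scoped Classical ENNReal NNReal

namespace Pool.Agent.H951.FX

open Pool.Agent.W605.HD Pool.Agent.Y674.HK Pool.Agent.H951.KS

/-- the unit vector with a given slope -/
noncomputable def nv (d : ℕ) (w : Fin d → ℝ) : EuclideanSpace ℝ (Fin (d + 1)) :=
  ‖pt d 1 w‖⁻¹ • pt d 1 w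

theorem one_le_pt (d : ℕ) (w : Fin d → ℝ) : 1 ≤ ‖pt d 1 w‖ := by
  have h := coord_le (pt d 1 w) 0
  rw [pt_zero, abs_one] at h
  exact h

theorem pt_sub (d : ℕ) (w u : Fin d → ℝ) (r : ℝ) (hr : 0 ≤ r) (h : ∀ i, |w i - u i| ≤ r) :
    ‖pt d 1 w - pt d 1 u‖ ≤ ((d : ℝ) + 1) * r := by
  have h1 : ‖pt d 1 w - pt d 1 u‖ ^ 2 ≤ (((d : ℝ) + 1) * r) ^ 2 := by
    rw [EuclideanSpace.norm_sq_eq, Fin.sum_univ_succ]
    have e0 : ‖(pt d 1 w - pt d 1 u) 0‖ ^ 2 = 0 := by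
      rw [PiLp.sub_apply, pt_zero, pt_zero]
      simp
    rw [e0, zero_add]
    have h2 : ∀ i : Fin d, ‖(pt d 1 w - pt d 1 u) i.succ‖ ^ 2 ≤ r ^ 2 := by
      intro i
      rw [PiLp.sub_apply, pt_succ, pt_succ, Real.norm_eq_abs]
      exact pow_le_pow_left₀ (abs_nonneg _) (h i) 2
    calc ∑ i : Fin d, ‖(pt d 1 w - pt d 1 u) i.succ‖ ^ 2 ≤ ∑ _i : Fin d, r ^ 2 :=
          Finset.sum_le_sum fun i _ => h2 i
      _ = d * r ^ 2 := by
          rw [Finset.sum_const, Finset.card_univ, Fintype.card_fin, nsmul_eq_mul]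
      _ ≤ (((d : ℝ) + 1) * r) ^ 2 := by
          rw [mul_pow]
          refine mul_le_mul_of_nonneg_right ?_ (by positivity)
          have : (0 : ℝ) ≤ d := Nat.cast_nonneg _
          nlinarith
  exact le_of_sq_le_sq h1 (by positivity)

theorem nv_sub (d : ℕ) (w u : Fin d → ℝ) (r : ℝ) (hr : 0 ≤ r) (h : ∀ i, |w i - u i| ≤ r) :
    ‖nv d w - nv d u‖ ≤ 2 * ((d : ℝ) + 1) * r := by
  obtain ⟨x, hx⟩ : ∃ x, x = pt d 1 w := ⟨_, rfl⟩
  obtain ⟨y, hy⟩ : ∃ y, y = pt d 1 u := ⟨_, rfl⟩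
  have hx1 : 1 ≤ ‖x‖ := by rw [hx]; exact one_le_pt d w
  have hy1 : 1 ≤ ‖y‖ := by rw [hy]; exact one_le_pt d u
  have hxy : ‖x - y‖ ≤ ((d : ℝ) + 1) * r := by rw [hx, hy]; exact pt_sub d w u r hr h
  unfold nv
  rw [← hx, ← hy]
  have hx0 : ‖x‖ ≠ 0 := by linarith
  have hy0 : ‖y‖ ≠ 0 := by linarith
  have e1 : ‖x‖⁻¹ • x - ‖y‖⁻¹ • y = ‖x‖⁻¹ • (x - y) + (‖x‖⁻¹ - ‖y‖⁻¹) • y := by
    rw [smul_sub, sub_smul]
    abel
  rw [e1]
  refine (norm_add_le _ _).trans ?_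
  rw [norm_smul, norm_smul, norm_inv, norm_norm]
  have h2 : ‖x‖⁻¹ * ‖x - y‖ ≤ 1 * ‖x - y‖ :=
    mul_le_mul_of_nonneg_right (inv_le_one_of_one_le₀ hx1) (norm_nonneg _)
  have h3 : ‖‖x‖⁻¹ - ‖y‖⁻¹‖ * ‖y‖ ≤ ‖x - y‖ := by
    have e2 : ‖x‖⁻¹ - ‖y‖⁻¹ = (‖y‖ - ‖x‖) * (‖x‖⁻¹ * ‖y‖⁻¹) := by
      field_simp
    rw [e2, norm_mul, norm_mul, norm_inv, norm_inv, norm_norm, norm_norm]
    have h4 : ‖‖y‖ - ‖x‖‖ ≤ ‖x - y‖ := by
      rw [norm_sub_rev x y]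
      exact abs_norm_sub_norm_le y x
    calc ‖‖y‖ - ‖x‖‖ * (‖x‖⁻¹ * ‖y‖⁻¹) * ‖y‖ = ‖‖y‖ - ‖x‖‖ * ‖x‖⁻¹ := by
          field_simp
      _ ≤ ‖x - y‖ * 1 := mul_le_mul h4 (inv_le_one_of_one_le₀ hx1) (by positivity)
          (norm_nonneg _)
      _ = ‖x - y‖ := mul_one _
  linarith

theorem unit_eq (d : ℕ) (g : EuclideanSpace ℝ (Fin (d + 1))) (hg : ‖g‖ = 1) (h0 : g 0 ≠ 0) :
    g = nv d (sl d g) ∨ g = -nv d (sl d g) := by
  have h1 : g = g 0 • pt d 1 (sl d g) := by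
    ext l
    refine Fin.cases ?_ (fun i => ?_) l
    · rw [PiLp.smul_apply, pt_zero, smul_eq_mul, mul_one]
    · rw [PiLp.smul_apply, pt_succ, smul_eq_mul]
      simp only [sl]
      rw [← mul_assoc, mul_inv_cancel₀ h0, one_mul]
  have h2 : |g 0| * ‖pt d 1 (sl d g)‖ = 1 := by
    rw [← Real.norm_eq_abs, ← norm_smul, ← h1, hg]
  have h3 : |g 0| = ‖pt d 1 (sl d g)‖⁻¹ := eq_inv_of_mul_eq_one_left h2
  rcases abs_cases (g 0) with ⟨h4, _⟩ | ⟨h4, _⟩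
  · left
    unfold nv
    rw [← h3, h4]
    exact h1
  · right
    unfold nv
    rw [← h3, h4, neg_smul, neg_neg]
    exact h1

theorem slo (d : ℕ) (β C : ℝ) (m : Measure (EuclideanSpace ℝ (Fin (d + 1))))
    (L : EuclideanSpace ℝ (Fin (d + 1)) ≃ₗᵢ[ℝ] EuclideanSpace ℝ (Fin (d + 1)))
    (hC : 0 < C) (hm : ∀ x, ∀ r : ℝ, 0 < r →
      m (Metric.closedBall x r) ≤ ENNReal.ofReal (C * r ^ β))
    (h0 : m {f | ¬ (‖f‖ = 1 ∧ (L f) 0 ≠ 0)} = 0) :
    ∃ C' : ℝ, 0 < C' ∧ ∀ (u : Fin d → ℝ) (r : ℝ), 0 < r →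
      m {f | sl d (L f) ∈ Metric.closedBall u r} ≤ ENNReal.ofReal (C' * r ^ β) := by
  refine ⟨2 * C * (2 * ((d : ℝ) + 1)) ^ β, by positivity, fun u r hr => ?_⟩
  obtain ⟨R, hR⟩ : ∃ R : ℝ, R = 2 * ((d : ℝ) + 1) * r := ⟨_, rfl⟩
  have hR0 : 0 < R := by rw [hR]; positivity
  have hcov : {f | sl d (L f) ∈ Metric.closedBall u r} ⊆ {f | ¬ (‖f‖ = 1 ∧ (L f) 0 ≠ 0)} ∪
      (Metric.closedBall (L.symm (nv d u)) R ∪ Metric.closedBall (-L.symm (nv d u)) R) := by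
    intro f hf
    by_cases hg : ‖f‖ = 1 ∧ (L f) 0 ≠ 0
    · right
      have h1 : ‖L f‖ = 1 := by rw [L.norm_map]; exact hg.1
      have h2 : ∀ i, |sl d (L f) i - u i| ≤ r := by
        intro i
        have h3 : dist (sl d (L f)) u ≤ r := hf
        rw [dist_pi_le_iff hr.le] at h3
        have h4 := h3 i
        rwa [Real.dist_eq] at h4
      have h5 := nv_sub d (sl d (L f)) u r hr.le h2
      rw [← hR] at h5
      rcases unit_eq d (L f) h1 hg.2 with h6 | h6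
      · left
        have h7 : f = L.symm (nv d (sl d (L f))) := by
          rw [← h6, LinearIsometryEquiv.symm_apply_apply]
        rw [Metric.mem_closedBall, dist_eq_norm]
        have h8 : f - L.symm (nv d u) = L.symm (nv d (sl d (L f)) - nv d u) := by
          rw [map_sub, ← h7]
        rw [h8, LinearIsometryEquiv.norm_map]
        exact h5
      · right
        have h7 : f = -L.symm (nv d (sl d (L f))) := by
          rw [← map_neg, ← h6, LinearIsometryEquiv.symm_apply_apply]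
        rw [Metric.mem_closedBall, dist_eq_norm]
        have h8 : f - -L.symm (nv d u) = -L.symm (nv d (sl d (L f)) - nv d u) := by
          rw [map_sub, neg_sub, sub_neg_eq_add]
          nth_rewrite 1 [h7]
          abel
        rw [h8, norm_neg, LinearIsometryEquiv.norm_map]
        exact h5
    · exact Or.inl hg
  refine (measure_mono hcov).trans ((measure_union_le _ _).trans ?_)
  rw [h0, zero_add]
  refine (measure_union_le _ _).trans ((add_le_add (hm _ R hR0) (hm _ R hR0)).trans ?_)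
  rw [← ENNReal.ofReal_add (by positivity) (by positivity)]
  refine ENNReal.ofReal_le_ofReal (le_of_eq ?_)
  rw [hR, Real.mul_rpow (by positivity) hr.le]
  ring

end Pool.Agent.H951.FX
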