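import Pool.Agent.H951.FH.Stm3
import Pool.Agent.H951.KS.Fh2

/-!
# Project FX: exceptional slices for sets of directions of dimension at least `β`

Let `X + tV` be a random line with heights `t`, where the law of `V` satisfies a Frostman
condition of exponent `β ≥ 1`.  The heights `t` for which some set of dimension `< s` contains
`X + tV` with positive probability form a set of dimension at most `s - (β-1)/2`, and of dimension
zero if `s ≤ β/2`.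

All statements are small changes of theorems that are proved in `Pool/Agent/H951/KS` for an
absolutely continuous law (exponent `d` in place of `β`).
-/

set_option autoImplicit false

open MeasureTheory
open scoped Classical ENNReal NNReal

namespace Pool.Agent.H951.FX

open Pool.Agent.H951.FH

/-- The Frostman condition of exponent `β` for the dyadic cells of slopes. -/
def CellB {d : ℕ} {Ω : Type} [MeasurableSpace Ω] (μ : Measure Ω) (v : Ω → Fin d → ℝ)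
    (M β : ℝ) : Prop :=
  ∀ (k : ℕ) (q : Fin d → ℤ), μ {ω | ∀ i, ⌊(2 : ℝ) ^ k * v ω i⌋ = q i} ≤
    ENNReal.ofReal (M / ((2 : ℝ) ^ k) ^ β)

/-- FX-SLB: selection of lines.

Prove `theorem t_SLB : S_FROD → S_SLB`.  (`S_FROD`, `Cb`, `CvD`, `SmD` are in `FH/Stm3.lean`.)

Proof.  Let `m0 = (μ univ).toReal`; `0 < m0` since `P` is nonempty and `x ≤ μ (W t)`.  For a cell
`q : Fin d → ℤ` (all `ω` with `⌊2^k v ω i⌋ = q i`; only cells with `0 ≤ q i < 2^k` occur) which is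
nonempty let `σ q` be a point `ω` of the cell for which `h ω = #{t ∈ P | ω ∈ W t}` is the largest
(`exists_best` in `KS/Rep.lean`), `h q = h (σ q)`.  Let `I` be the finite set of the nonempty cells
and `J ⊆ I` the cells with `P.card * x / (2 * m0) ≤ h q`.  Then, by `sum_inter` in `KS/Rep.lean`,
`P.card * x ≤ ∑_{t ∈ P} μ (W t) ≤ ∑_{q ∈ I} h q * μ (cell q)
 ≤ P.card * ∑_{q ∈ J} μ (cell q) + P.card * x / (2 * m0) * m0`, so `x / 2 ≤ ∑_{q ∈ J} μ (cell q)`.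
Apply `S_FROD` to `V0 = {v ω | the cell of ω is in J}`: there are a finite `P1 ⊆ V0` with at most
`(2^(k-l))^β` points in each dyadic cube `Cb (l, p)`, `l ≤ k`, and a finite set `C` of dyadic cubes
that cover `V0` with `SmD β C ≤ 2 * P1.card / (2^k)^β`.  By `CellB` (at all levels `c.1`),
`x / 2 ≤ ∑_{q ∈ J} μ (cell q) = μ {ω | cell of ω in J} ≤ ∑_{c ∈ C} μ {ω | v ω ∈ Cb c}
 ≤ M * SmD β C`,
so `(2^k)^β * x / (4 * M) ≤ P1.card`.  Replace each point `u` of `P1` by `v (σ (cell of u))`, which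
is in the same cell of level `k`, hence in the same `Cb (l, p)` for all `l ≤ k`; for `l = k` each
cell contains at most one point of `P1`, so this map is injective on `P1`.  Its image is `V`, and
`f u = σ (cell of u)`. -/
def S_SLB : Prop := ∀ (d k : ℕ) (β : ℝ) (Ω : Type) [MeasurableSpace Ω] (μ : Measure Ω)
  [IsFiniteMeasure μ] (v : Ω → Fin d → ℝ) (M x : ℝ) (P : Finset ℝ) (W : ℝ → Set Ω), 0 < β →
  Measurable v → (∀ ω i, 0 ≤ v ω i ∧ v ω i < 1) → 0 < M → 0 < x → CellB μ v M β → P.Nonempty →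
  (∀ t ∈ P, MeasurableSet (W t)) → (∀ t ∈ P, ENNReal.ofReal x ≤ μ (W t)) →
  ∃ (V : Finset (Fin d → ℝ)) (f : (Fin d → ℝ) → Ω),
    (∀ u ∈ V, v (f u) = u ∧ (P.card : ℝ) * x / (2 * (μ Set.univ).toReal) ≤
      ((P.filter fun t => f u ∈ W t).card : ℝ)) ∧
    (∀ l ≤ k, ∀ p : Fin d → ℕ, ((V.filter fun u => u ∈ Cb (l, p)).card : ℝ) ≤
      ((2 : ℝ) ^ (k - l)) ^ β) ∧
    ((2 : ℝ) ^ k) ^ β * x / (4 * M) ≤ V.card

/-- FX-CONB: the inequality at one scale.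

Prove `theorem t_CONB : S_SLB → S_ONEB → S_CONB`.  (`S_ONEB` is in `FH/Stm3.lean`; compare
`con3` in `KS/Fh1.lean`.)

Proof.  Take `V`, `f` from `S_SLB` and apply `S_ONEB` to `W := V`, the positions `B u := b (f u)`,
the heights `P u := P.filter (f u ∈ W t)`, `σ = P.card * x / (2 * m0)` and the set `Q` of all
`q : Fin (d+1) → ℤ` with `q 0 = ⌊2^k t⌋` and `q i.succ = z i` for `t ∈ P`, `z ∈ Z t`; then
`Q.card ≤ P.card * B`.  It gives `V.card^2 * σ^4 * r^β ≤ C (k+1)^11 (2^k)^(1+2β) (P.card * B)^2`,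
and `V.card ≥ (2^k)^β x / (4M)`. -/
def S_CONB : Prop := ∀ (d : ℕ) (β : ℝ), 1 ≤ β → ∃ C0 : ℝ, 0 < C0 ∧ ∀ (k : ℕ) (Ω : Type)
  [MeasurableSpace Ω] (μ : Measure Ω) [IsFiniteMeasure μ] (b v : Ω → Fin d → ℝ) (M x B τ : ℝ)
  (P : Finset ℝ) (Z : ℝ → Finset (Fin d → ℤ)) (W : ℝ → Set Ω) (r : ℕ),
  Measurable v → (∀ ω i, 0 ≤ v ω i ∧ v ω i < 1) → 0 < M → 0 < x → 0 ≤ B → CellB μ v M β →
  P.Nonempty → (∀ t ∈ P, 0 ≤ t ∧ t < 1) → 0 < τ → τ ≤ 1 →
  (∀ l ≤ k, ∀ p : ℕ, ((P.filter fun t => (p : ℝ) / 2 ^ l ≤ t ∧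
    t < ((p : ℝ) + 1) / 2 ^ l).card : ℝ) ≤ ((2 : ℝ) ^ (k - l)) ^ τ) →
  (∀ t ∈ P, ((Z t).card : ℝ) ≤ B) → (∀ t ∈ P, MeasurableSet (W t)) →
  (∀ t ∈ P, ENNReal.ofReal x ≤ μ (W t)) →
  (∀ t ∈ P, ∀ ω ∈ W t, ∃ z ∈ Z t, ∀ i, |(2 : ℝ) ^ k * (b ω i + t * v ω i) - z i| < 3) →
  1 ≤ r → r ≤ 2 ^ k →
  3 * (2 * r : ℝ) ^ τ ≤ (P.card : ℝ) * x / (2 * (μ Set.univ).toReal) /
    (64 * ((k : ℝ) + 1) ^ 3) →
  (P.card : ℝ) ^ 2 * x ^ 6 * (r : ℝ) ^ β ≤
    C0 * ((k : ℝ) + 1) ^ 11 * (μ Set.univ).toReal ^ 4 * M ^ 2 * (2 : ℝ) ^ k * B ^ 2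

/-- FX-NAB: the numbers.

Prove `theorem t_NAB : S_NAB`.  Compare `S_NA` (`FH/Stm4.lean`, proved in `FH/NA.lean`) and
`S_NBB` (`FH/Stm3.lean`, proved in `FH/NBB.lean`): choose `r = ⌊...⌋₊` as large as the first
inequality allows, about `2^k * (b ρ)^(k/τ)` up to powers of `k`; the second inequality holds for
large `k` if `b`, `ρ` are close to `1`, since `1 + 2α < 2τ + β`. -/
def S_NAB : Prop := ∀ (β τ α : ℝ), 0 < β → 0 < τ → τ ≤ 1 → 0 ≤ α →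
  α < τ + (β - 1) / 2 → ∃ ρ b : ℝ, 0 < ρ ∧ ρ < 1 ∧ 0 < b ∧ b < 1 ∧
    ∀ x m C : ℝ, 0 < x → 0 < m → 0 < C → ∃ k1 : ℕ, ∀ k, k1 ≤ k → ∃ r : ℕ, 1 ≤ r ∧ r ≤ 2 ^ k ∧
      3 * (2 * r : ℝ) ^ τ ≤ (b ^ k * ((2 : ℝ) ^ k) ^ τ / 2) * (x * ρ ^ k) / (2 * m) /
        (64 * ((k : ℝ) + 1) ^ 3) ∧
      C * ((k : ℝ) + 1) ^ 11 * (2 : ℝ) ^ k * ((2 : ℝ) ^ (α * (k + 1))) ^ 2 <
        (b ^ k * ((2 : ℝ) ^ k) ^ τ / 2) ^ 2 * (x * ρ ^ k) ^ 6 * (r : ℝ) ^ β

/-- FX-EBB: the zero-dimensional range.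

Prove `theorem t_EBB : S_EBB`.  This is `EB` in `KS/Exc3.lean` with `β` in place of `d`.  There
`setup` (`KS/Exc2.lean`) replaced `μ` by a restriction to get the cell condition; here it is the
hypothesis `CellB`, so only the second half of `setup` is needed (with `μ' = μ`: `cov_meas`,
`lev`).  In `sepB` use `con2` with `M * (2^k)^d / (2^k)^β` in place of its `M`; the numerical
condition becomes `6 m0 ((2^(α(k+1)))^2 (14/r)^d M / (2^k)^β) < (x0 ρ^k)^2` with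
`r = exp(-γ k log 2)`, where `γ d < β - 2α` leaves room, e.g. `2 γ d = β - 2α`. -/
def S_EBB : Prop := ∀ (d : ℕ) (β : ℝ) (Ω : Type) [MeasurableSpace Ω] (μ : Measure Ω)
  [IsFiniteMeasure μ] (b v : Ω → Fin d → ℝ) (M : ℝ) (α : ℝ≥0) (τ0 δ : ℝ), 1 ≤ d → 0 < β →
  Measurable b → Measurable v → 0 < M → CellB μ v M β → 2 * (α : ℝ) < β → 0 < τ0 → 0 < δ →
  dimH {τ : ℝ | τ ∈ Set.Ico (0 : ℝ) 1 ∧ ∃ A : Set (Fin d → ℝ), dimH A < α ∧
    ENNReal.ofReal δ < μ {ω | (fun i => b ω i + τ * v ω i) ∈ A}} ≤ ENNReal.ofReal τ0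

/-- FX-ECB: the range of the hairbrush argument.

Prove `theorem t_ECB : S_CONB → S_NAB → S_ECB`.  This is `EC` in `KS/Fh2.lean` with `β` in place
of `d`: use `CellB` instead of `setup` (its second half, with `μ' = μ`), `S_NAB` instead of `S_NA`
(with `m = (μ univ).toReal`, positive if the set is nonempty; with `m0 ≤ m` any positive `m` if
you prefer) and `S_CONB` instead of `con3`.  The passage to half of the points (`half_sep`) is not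
needed. -/
def S_ECB : Prop := ∀ (d : ℕ) (β : ℝ) (Ω : Type) [MeasurableSpace Ω] (μ : Measure Ω)
  [IsFiniteMeasure μ] (b v : Ω → Fin d → ℝ) (M : ℝ) (α : ℝ≥0) (τ0 δ : ℝ), 1 ≤ β →
  Measurable b → Measurable v → (∀ ω i, 0 ≤ v ω i ∧ v ω i < 1) → 0 < M → CellB μ v M β →
  (α : ℝ) - (β - 1) / 2 < τ0 → 0 < τ0 → 0 < δ →
  dimH {τ : ℝ | τ ∈ Set.Ico (0 : ℝ) 1 ∧ ∃ A : Set (Fin d → ℝ), dimH A < α ∧
    ENNReal.ofReal δ < μ {ω | (fun i => b ω i + τ * v ω i) ∈ A}} ≤ ENNReal.ofReal τ0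

/-- FX-E3B: all slopes and heights.

Prove `theorem t_E3B : S_EBB → S_ECB → S_E3B`.  Compare `E0`, `E1`, `E2`, `E3` in `KS/Exc4.lean`.
Steps: (a) heights in `[0,1)`, slopes in `[0,1)^d`, `CellB`: countable union over
`δ = 1/(q+1)` (`E0`).  (b) heights in `[0,1)`, all slopes: for `g : Fin d → ℤ` restrict `μ` to
`Ω_g = {ω | ∀ i, ⌊v ω i⌋ = g i}` and use the slopes `w ω i = Int.fract (v ω i)` (on all of `Ω`;
`CellB (μ.restrict Ω_g) w C β`: the set `{⌊2^k w⌋ = q} ∩ Ω_g` lies in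
`{ω | v ω ∈ closedBall (g + q/2^k) (1/2^k)}`), and the translate `A - τ g` of `A`; if
`μ {ω | b + τ v ∈ A} ≠ 0` then `μ.restrict Ω_g` of it is not zero for some `g`.  (c) all heights:
translation by `⌊t⌋` as in `E2`.  (d) real `s`: as in `E3` (without the `SFinite` part); the bound
by `s - (β-1)/2` follows from (c) with all `τ0 > α - (β-1)/2`, `τ0 > 0`, `α < s`, as there.  If
`d = 0` every nonempty subset of `Fin 0 → ℝ` is a point, `closedBall u r` is everything and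
`μ univ ≤ C r^β` for all `r > 0` gives `μ = 0`, so the set is empty. -/
def S_E3B : Prop := ∀ (d : ℕ) (β : ℝ) (Ω : Type) [MeasurableSpace Ω] (μ : Measure Ω)
  [IsFiniteMeasure μ] (b v : Ω → Fin d → ℝ) (C s : ℝ), 1 ≤ β → Measurable b → Measurable v →
  0 < C → (∀ (u : Fin d → ℝ) (r : ℝ), 0 < r →
    μ {ω | v ω ∈ Metric.closedBall u r} ≤ ENNReal.ofReal (C * r ^ β)) →
  dimH {t : ℝ | ∃ A : Set (Fin d → ℝ), dimH A < ENNReal.ofReal s ∧
    μ {ω | (fun i => b ω i + t * v ω i) ∈ A} ≠ 0} ≤ ENNReal.ofReal (s - (β - 1) / 2) ∧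
  (2 * s ≤ β → dimH {t : ℝ | ∃ A : Set (Fin d → ℝ), dimH A < ENNReal.ofReal s ∧
    μ {ω | (fun i => b ω i + t * v ω i) ∈ A} ≠ 0} = 0)

end Pool.Agent.H951.FX
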