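import Pool.Agent.H951.FH.Stm3

/-!
# Project FX, part 4: Furstenberg-Kakeya sets, the bound from pairs of points

If `N` is a set of directions of dimension at least `β` in `ℝ^(d+1)` and `K` meets for each
`e ∈ N` a line parallel to `e` in dimension at least `α`, then `dim K ≥ α + β/2`: two points of
`K` on such a line determine the direction.  Everything is a small change of the theorems of
part 3 (`FX/StmR.lean`, `FX/FVQ.lean`, `FX/FWQ.lean`, `FX/FDQ.lean`).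
-/

set_option autoImplicit false

open MeasureTheory
open scoped Classical ENNReal NNReal

namespace Pool.Agent.H951.FX

open Pool.Agent.H951.FH

/-- FX-ONEP.  Prove `theorem t_ONEP : S_ONEP`.

Double counting.  Let `X` be the set of the triples `(v, t, t')`, `v ∈ W`, `t, t' ∈ P v` with
`1 / 2^l ≤ |t - t'|`.  For `v ∈ W`, `t ∈ P v` the `t' ∈ P v` with `|t - t'| < 1 / 2^l` lie in three
dyadic intervals of level `l`, so their number is at most `3 (2^(k-l))^τ ≤ σ/2 ≤ card (P v) / 2`;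
hence `W.card * σ^2 / 2 ≤ X.card`.  Map `(v, t, t')` to the pair `(q, q') ∈ Q × Q` of cubes of `t`
and `t'` (choice).  The fibre of `(q, q')`: from `|2^k (t - t') v_i - (q_{i+1} - q'_{i+1})| < 6` and
`|2^k (t - t') - (q_0 - q'_0)| < 6` we get, with `D = q_0 - q'_0`, `|D| ≥ 2^k/2^l - 6 ≥ 2^k/2^l/2`,
`|v_i - (q_{i+1} - q'_{i+1}) / D| ≤ 12 / |D| ≤ 24 * 2^l / 2^k`, so `v` is in at most `(50 * 2^l)^d`
dyadic cubes of level `k`, each of which contains at most one point of `W`; and for given `v`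
there are at most `7` points `t ∈ P v` with `|2^k t - q_0| < 3` (each dyadic interval of level `k`
contains at most one), and the same for `t'`.  So `X.card ≤ 49 (50 * 2^l)^d Q.card^2` (any
constants depending on `d` are fine). -/
def S_ONEP : Prop := ∀ d : ℕ, 1 ≤ d → ∃ C0 : ℝ, 0 < C0 ∧
  ∀ (k l : ℕ) (W : Finset (Fin d → ℝ)) (B : (Fin d → ℝ) → Fin d → ℝ)
  (P : (Fin d → ℝ) → Finset ℝ) (Q : Finset (Fin (d + 1) → ℤ)) (σ τ : ℝ), 0 < σ → 0 < τ → l ≤ k →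
  12 * (2 : ℝ) ^ l ≤ 2 ^ k → 6 * ((2 : ℝ) ^ (k - l)) ^ τ ≤ σ → W.Nonempty →
  (∀ v ∈ W, ∀ i, 0 ≤ v i ∧ v i < 1) →
  (∀ p : Fin d → ℕ, ((W.filter fun v => v ∈ Cb (k, p)).card : ℝ) ≤ 1) →
  (∀ v ∈ W, (P v : Set ℝ) ⊆ Set.Ico 0 1 ∧ σ ≤ (P v).card ∧
    (∀ l' ≤ k, ∀ p : ℕ, (((P v).filter fun t => (p : ℝ) / 2 ^ l' ≤ t ∧
      t < ((p : ℝ) + 1) / 2 ^ l').card : ℝ) ≤ ((2 : ℝ) ^ (k - l')) ^ τ) ∧
    ∀ t ∈ P v, ∃ q ∈ Q, |(2 : ℝ) ^ k * t - q 0| < 3 ∧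
      ∀ i : Fin d, |(2 : ℝ) ^ k * (B v i + t * v i) - q i.succ| < 3) →
  W.card * σ ^ 2 ≤ C0 * ((2 : ℝ) ^ l) ^ d * (Q.card : ℝ) ^ 2

/-- FX-FVP.  Prove `theorem t_FVP : S_COV → S_SELD → S_FRO → S_FROD → S_ONEP → S_FVP`.

Adapt `FX/FVQ.lean` (helper377).  By contradiction choose `s ≥ 0` with `dimH K < ofReal s` and
`s < τ + β/2`.  Let `h = log 2`, `g = (β + 2 τ - 2 s) h > 0`, `ρ = b = exp (-ε)` with
`(3 + d/τ) ε ≤ g / 2` and `ε ≤ τ h / 4`.  At the selected level `k` (large): `W.card ≥ ρ^k (2^k)^β / 2`,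
`σ = ρ^k (2^k)^τ / 2`, `Q.card ≤ 2^(s (k + 1))`; take `l = ⌈(ε k + log 12) / (τ h)⌉₊`, so that
`6 * (2^(k-l))^τ ≤ σ` and `2^l ≤ 2 * 12^(1/τ) * exp (ε k / τ)` (and `12 * 2^l ≤ 2^k`, `l ≤ k` for
large `k`).  `S_ONEP` gives
`exp (-3 ε k) (2^k)^(β + 2τ) / 8 ≤ C0 * (2 * 12^(1/τ))^d * exp (ε k d / τ) * 2^(2 s (k + 1))`,
which is false for large `k`. -/
def S_FVP : Prop := ∀ d : ℕ, 1 ≤ d →
  ∀ (K : Set (Fin (d + 1) → ℝ)) (V : Set (Fin d → ℝ))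
  (B : (Fin d → ℝ) → Fin d → ℝ) (β τ : ℝ), 0 < β → 0 < τ → τ ≤ 1 →
  (∀ v ∈ V, ∀ i, 0 ≤ v i ∧ v i < 1) → ENNReal.ofReal β < dimH V →
  (∀ v ∈ V, ENNReal.ofReal τ < dimH {t : ℝ | t ∈ Set.Ico (0 : ℝ) 1 ∧
    (Fin.cons t (fun i => B v i + t * v i) : Fin (d + 1) → ℝ) ∈ K}) →
  ENNReal.ofReal (τ + β / 2) ≤ dimH K

/-- All slopes and heights. -/
def S_FWP : Prop := ∀ d : ℕ, 1 ≤ d →
  ∀ (K : Set (Fin (d + 1) → ℝ)) (V : Set (Fin d → ℝ))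
  (B : (Fin d → ℝ) → Fin d → ℝ) (β τ : ℝ), 0 < β → 0 < τ → τ ≤ 1 →
  ENNReal.ofReal β < dimH V →
  (∀ v ∈ V, ENNReal.ofReal τ < dimH {t : ℝ |
    (Fin.cons t (fun i => B v i + t * v i) : Fin (d + 1) → ℝ) ∈ K}) →
  ENNReal.ofReal (τ + β / 2) ≤ dimH K

/-- The theorem for directions. -/
def S_FDP : Prop := ∀ d : ℕ, 1 ≤ d →
  ∀ (K N : Set (EuclideanSpace ℝ (Fin (d + 1)))) (α β : ℝ),
  0 < α → 0 < β → (∀ e ∈ N, ‖e‖ = 1) → ENNReal.ofReal β ≤ dimH N →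
  (∀ e ∈ N, ∃ a : EuclideanSpace ℝ (Fin (d + 1)),
    ENNReal.ofReal α ≤ dimH (K ∩ {x | ∃ r : ℝ, x = a + r • e})) →
  ENNReal.ofReal (α + β / 2) ≤ dimH K

end Pool.Agent.H951.FX
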