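import Pool.Agent.H951.FX.StmQ

/-!
# Project FX, part 3: Furstenberg-Kakeya sets, the bound from the tube inequality

If the counting inequality `CntQ d c` holds (a consequence of the moment bound for tubes of Wolff,
Katz-Tao, ...), `N` is a set of directions of dimension at least `β` in `ℝ^(d+1)` and `K` meets for
each `e ∈ N` a line parallel to `e` in dimension at least `α`, then
`dim K ≥ α + (d α - (d - β)) / c`.  Everything is a small change of the theorems that were proved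
for the bound `2 α + (β - 1)/2` (`FH/Stm3.lean`: `S_ONEB`, `S_FVB`, `S_FWB`, `S_FDB`).
-/

set_option autoImplicit false

open MeasureTheory
open scoped Classical ENNReal NNReal

namespace Pool.Agent.H951.FX

open Pool.Agent.H951.FH Pool.Agent.W605.HD Pool.Agent.W46.HD Pool.Agent.Y254HK

/-- FX-ONEQ.  Prove `theorem t_ONEQ : S_ONEQ`.

Compare the proof of `S_ONEB` in `FH/ONEB.lean` (helper632) and `con1` in `KS/Sep.lean`.  Let
`n = 2^k`, `Λ = {v // v ∈ W}`, `A v i = 2^k * B v i`, `D v = v`: `IsFam (2^k) D`, since a dyadic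
cube of level `k` contains at most one point of `W`.  Let `E : Finset (Λ × Fin (2^k))` be the set
of the `(v, j)` with `j = ⌊2^k t⌋` for some `t ∈ P v`; then `W.card * σ ≤ E.card`.  For
`(v, j) ∈ E` there is `q ∈ Q` with `|j - q 0| < 4` and `|cell A D j v i - q i.succ| ≤ 5`, so the
number of cells is at most `64^(d+1) * Q.card` (as in `FH/ONEB.lean`).  `CntQ`, multiplied by
`d + c`, gives the inequality with `C0 = (d + c) K + c (d + 1) log 64`. -/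
def S_ONEQ : Prop := ∀ (d : ℕ) (c : ℝ), 1 ≤ d → 0 < c → CntQ d c → ∃ C0 : ℝ,
  ∀ (k : ℕ) (W : Finset (Fin d → ℝ)) (B : (Fin d → ℝ) → Fin d → ℝ)
  (P : (Fin d → ℝ) → Finset ℝ) (Q : Finset (Fin (d + 1) → ℤ)) (σ : ℝ), 0 < σ → W.Nonempty →
  (∀ v ∈ W, ∀ i, 0 ≤ v i ∧ v i < 1) →
  (∀ p : Fin d → ℕ, ((W.filter fun v => v ∈ Cb (k, p)).card : ℝ) ≤ 1) →
  (∀ v ∈ W, (P v : Set ℝ) ⊆ Set.Ico 0 1 ∧ σ ≤ (P v).card ∧
    (∀ p : ℕ, (((P v).filter fun t => (p : ℝ) / 2 ^ k ≤ t ∧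
      t < ((p : ℝ) + 1) / 2 ^ k).card : ℝ) ≤ 1) ∧
    ∀ t ∈ P v, ∃ q ∈ Q, |(2 : ℝ) ^ k * t - q 0| < 3 ∧
      ∀ i : Fin d, |(2 : ℝ) ^ k * (B v i + t * v i) - q i.succ| < 3) →
  Real.log W.card + (d + c) * Real.log σ ≤ C0 + d * (k * Real.log 2) + c * Real.log Q.card

/-- FX-FVQ.  Prove `theorem t_FVQ : S_COV → S_SELD → S_FRO → S_FROD → S_ONEQ → S_FVQ`.

Adapt `FH/FVB.lean` (helper383).  By contradiction choose `s ≥ 0` with `dimH K < ofReal s` and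
`s < τ + (d τ - (d - β)) / c` (if the bound is not positive the claim is trivial).  Let `h = log 2`,
`g = β h + (d + c) τ h - d h - c s h > 0` and `ρ = b = exp (-ε)` with
`(d + c + 1) ε = g / 2`.  At the selected level `k` (large): `W.card ≥ ρ^k (2^k)^β / 2`,
`σ = b^k (2^k)^τ / 2`, `Q.card ≤ 2^(s (k + 1))` (and `Q` is nonempty), and `S_ONEQ` gives
`k g / 2 ≤ C0 + (1 + d + c) log 2 + c s h`, which is false for large `k`. -/
def S_FVQ : Prop := ∀ (d : ℕ) (c : ℝ), 1 ≤ d → 0 < c → CntQ d c →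
  ∀ (K : Set (Fin (d + 1) → ℝ)) (V : Set (Fin d → ℝ))
  (B : (Fin d → ℝ) → Fin d → ℝ) (β τ : ℝ), 0 < β → 0 < τ → τ ≤ 1 →
  (∀ v ∈ V, ∀ i, 0 ≤ v i ∧ v i < 1) → ENNReal.ofReal β < dimH V →
  (∀ v ∈ V, ENNReal.ofReal τ < dimH {t : ℝ | t ∈ Set.Ico (0 : ℝ) 1 ∧
    (Fin.cons t (fun i => B v i + t * v i) : Fin (d + 1) → ℝ) ∈ K}) →
  ENNReal.ofReal (τ + (d * τ - (d - β)) / c) ≤ dimH K

/-- FX-FWQ.  Prove `theorem t_FWQ : S_FVQ → S_FWQ`: copy `FH/FWB.lean` (helper120) with the new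
bound (the hypothesis `2 τ ≤ 1 + β` disappears). -/
def S_FWQ : Prop := ∀ (d : ℕ) (c : ℝ), 1 ≤ d → 0 < c → CntQ d c →
  ∀ (K : Set (Fin (d + 1) → ℝ)) (V : Set (Fin d → ℝ))
  (B : (Fin d → ℝ) → Fin d → ℝ) (β τ : ℝ), 0 < β → 0 < τ → τ ≤ 1 →
  ENNReal.ofReal β < dimH V →
  (∀ v ∈ V, ENNReal.ofReal τ < dimH {t : ℝ |
    (Fin.cons t (fun i => B v i + t * v i) : Fin (d + 1) → ℝ) ∈ K}) →
  ENNReal.ofReal (τ + (d * τ - (d - β)) / c) ≤ dimH K

/-- FX-FDQ.  Prove `theorem t_FDQ : S_FWQ → S_FDQ`: copy `FH/FDB.lean` (helper706) with the new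
bound (the hypothesis `2 α ≤ 1 + β` disappears; the dimension is `n = d + 1`, `d ≥ 1`). -/
def S_FDQ : Prop := ∀ (d : ℕ) (c : ℝ), 1 ≤ d → 0 < c → CntQ d c →
  ∀ (K N : Set (EuclideanSpace ℝ (Fin (d + 1)))) (α β : ℝ),
  0 < α → 0 < β → (∀ e ∈ N, ‖e‖ = 1) → ENNReal.ofReal β ≤ dimH N →
  (∀ e ∈ N, ∃ a : EuclideanSpace ℝ (Fin (d + 1)),
    ENNReal.ofReal α ≤ dimH (K ∩ {x | ∃ r : ℝ, x = a + r • e})) →
  ENNReal.ofReal (α + (d * α - (d - β)) / c) ≤ dimH K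

end Pool.Agent.H951.FX
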